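import Pool.Agent.Helper364_SP.Sem
import Pool.Agent.TH197.J1545b

/-!
# The first claim
-/

set_option autoImplicit false

namespace Pool.Agent.Helper364_SP.ClaimOne

open FirstOrder FirstOrder.Language
open Pool.Agent.TH672 (Fm Str upd Pv LogK)
open Pool.Agent.TH636.BC (Fml inst robinson Arith)
open Pool.Agent.TH838.J1549 (Q)
open Pool.Agent.Helper364_SP

/-- The relations of the standard structure depend only on the given symbol. -/
theorem stdOp_congr (n c : ℕ) (X Y : ℕ → Ob → Ob → Ob → Ob → Prop) (i : ℕ) (h : X i = Y i) :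
    stdOp n c X i = stdOp n c Y i := by
  rcases i with _ | _ | _ | _ | _ | _ | _ | _ | _ | _ | _ | _ | _ | _ | _ | _ | _ | _ | _ | _ | _ | i
  all_goals first | rfl | exact h

/-- Formulas without the new symbols do not depend on the meaning of the new symbols. -/
theorem sat_low (n c : ℕ) (X Y : ℕ → Ob → Ob → Ob → Ob → Prop) (h : ∀ i, i < 100 → X i = Y i) :
    ∀ (ψ : Fml) (v : ℕ → Ob), OpB 100 ψ →
      (Fm.Sat (stdStr n c X) ψ v ↔ Fm.Sat (stdStr n c Y) ψ v) := by
  intro ψ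
  induction ψ with
  | bot => intro v _; exact Iff.rfl
  | eq x y => intro v _; exact Iff.rfl
  | zero x => intro v _; exact Iff.rfl
  | succ x y => intro v _; exact Iff.rfl
  | add x y z => intro v _; exact Iff.rfl
  | mul x y z => intro v _; exact Iff.rfl
  | op i a b c' d =>
    intro v hi
    have e : stdOp n c X i = stdOp n c Y i := stdOp_congr n c X Y i (h i hi)
    show stdOp n c X i (v a) (v b) (v c') (v d) ↔ stdOp n c Y i (v a) (v b) (v c') (v d)
    rw [e]
  | imp φ ψ ih ih' =>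
    intro v hi
    exact imp_congr (ih v hi.1) (ih' v hi.2)
  | all x φ ih =>
    intro v hi
    exact forall_congr' fun a => ih (upd v x a) hi

/-- The assignment with the values `x`, `y`, `z`, `w`. -/
def as4 (x y z w : Ob) (k : ℕ) : Ob :=
  if k = 0 then x else if k = 1 then y else if k = 2 then z else w

/-- The meaning of the new symbols. -/
def XX (n c : ℕ) (φ : Fin 7 → Fml) (i : ℕ) (x y z w : Ob) : Prop :=
  ∃ t : Fin 7, i = 100 + t ∧
    Fm.Sat (stdStr n c (fun _ _ _ _ _ => False)) (φ t) (as4 x y z w)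

theorem XX_low (n c : ℕ) (φ : Fin 7 → Fml) (i : ℕ) (hi : i < 100) :
    XX n c φ i = fun _ _ _ _ => False := by
  funext x y z w
  simp only [XX, eq_iff_iff, iff_false, not_exists, not_and]
  intro t ht
  omega

theorem sat_robinson {S : Str ℕ} (q : Q S) : ∀ ψ ∈ robinson, ∀ v : ℕ → S.M, Fm.Sat S ψ v := by
  have key : ∀ v : ℕ → S.M, ∀ ψ ∈ robinson, Fm.Sat S ψ v := by
    intro v
    simp only [robinson, List.mem_cons, List.not_mem_nil, or_false, forall_eq_or_imp,
      forall_eq, Fm.sat_all, Fm.sat_ex, Fm.sat_imp, Fm.sat_zero, Fm.sat_succ, Fm.sat_add,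
      Fm.sat_mul, Fm.sat_eq, Fm.sat_neg, Fm.sat_or]
    simp [upd]
    simp only [q.zero_iff, q.succ_iff, q.add_iff, q.mul_iff]
    refine ⟨⟨_, rfl⟩, ?_, ?_, ?_, ?_, ?_, ?_, ?_, ?_, ?_, ?_, ?_, ?_, ?_, ?_⟩
    · rintro a b rfl rfl; rfl
    · intro a; exact ⟨_, rfl⟩
    · rintro a b c rfl rfl; rfl
    · intro a b; exact ⟨_, rfl⟩
    · rintro a b c d rfl rfl; rfl
    · intro a b; exact ⟨_, rfl⟩
    · rintro a b c d rfl rfl; rfl
    · rintro a b rfl h; exact q.s_ne _ h
    · rintro a b c rfl h; exact q.s_inj _ _ h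
    · intro a; exact q.cases a
    · rintro a b rfl; exact (q.a_o a).symm
    · rintro a b c d e rfl rfl rfl; exact (q.a_s _ _).symm
    · rintro a b rfl; exact (q.m_o a).symm
    · rintro a b c d e rfl rfl rfl; exact (q.m_s _ _).symm
  exact fun ψ hψ v => key v ψ hψ

theorem sat_pv {S : Str ℕ} {T : Fml → Prop} (hT : ∀ ψ, T ψ → ∀ v : ℕ → S.M, Fm.Sat S ψ v)
    {φ : Fml} (h : Pv T φ) : ∀ v : ℕ → S.M, Fm.Sat S φ v := by
  induction h with
  | ax h => exact hT _ h
  | log h => exact fun v => TH197.J1545.sat_log h v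
  | mp _ _ ih1 ih2 => exact fun v => ih1 v (ih2 v)
  | gen x _ ih => exact fun v a => ih _

theorem claim1 (h1 : StdAx) (h2 : StdQ) (h3 : SatTr) (h4 : CongIff) : Claim1 := by
  intro P σ0 Γ0 p c hP hp hbd hσ hΓ hR n
  induction n using Nat.strong_induction_on with
  | _ n ih =>
  rintro ⟨φ, hφ, hpv⟩
  obtain ⟨s, hs⟩ := (hR n).2 ⟨φ, hφ, hpv⟩
  have hP2 : ∀ (S : Str ℕ) (q : Q S) (v : ℕ → S.M) (c s i : ℕ), v 2 = q.nm c → v 3 = q.nm s →
      v 4 = q.nm i → (Fm.Sat S P v ↔ Hal c s i) := hP.2.2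
  obtain ⟨q, hq⟩ := h2 n c (XX n c φ)
  -- the standard structure
  have hall : ∀ ψ, ψ ∈ Sax σ0 c n ++ List.ofFn (fun t : Fin 7 => dF t (φ t)) →
      ∀ v : ℕ → (stdStr n c (XX n c φ)).M, Fm.Sat (stdStr n c (XX n c φ)) ψ v := by
    intro ψ hψ v
    rcases List.mem_append.1 hψ with hψ | hψ
    · rcases List.mem_cons.1 hψ with rfl | hψ
      · refine (hσ _ v).2 (h1 n c (XX n c φ) P ?_)
        intro i j hi hsat
        have h5 := (hP2 (stdStr n c (XX n c φ)) q (as3 (.num c) (.num j) (.num i)) c j i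
          (hq c).symm (hq j).symm (hq i).symm).1 hsat
        exact ih i hi ((hR i).1 ⟨j, h5⟩)
      · rcases List.mem_cons.1 hψ with rfl | hψ
        · rw [TH838.J1549.sat_inst q le_rfl (by simp [Fm.Free]) (by simp [Fm.Free])]
          show stdOp n c (XX n c φ) 17 (upd v 2 (q.nm n) 2) (upd v 2 (q.nm n) 2)
            (upd v 2 (q.nm n) 2) (upd v 2 (q.nm n) 2)
          rw [TH672.upd_same, hq]
          exact rfl
        · rcases List.mem_cons.1 hψ with rfl | hψ
          · rw [TH838.J1549.sat_inst q le_rfl (by simp [Fm.Free]) (by simp [Fm.Free])]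
            show stdOp n c (XX n c φ) 18 (upd v 2 (q.nm c) 2) (upd v 2 (q.nm c) 2)
              (upd v 2 (q.nm c) 2) (upd v 2 (q.nm c) 2)
            rw [TH672.upd_same, hq]
            exact rfl
          · exact sat_robinson q ψ hψ v
    · obtain ⟨t, rfl⟩ := (List.mem_ofFn' _ _).1 hψ
      intro a b c' d
      rw [Fm.sat_iff]
      have e1 : Fm.Sat (stdStr n c (XX n c φ)) (φ t) (upd (upd (upd (upd v 0 a) 1 b) 2 c') 3 d) ↔
          Fm.Sat (stdStr n c (fun _ _ _ _ _ => False)) (φ t)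
            (upd (upd (upd (upd v 0 a) 1 b) 2 c') 3 d) :=
        sat_low n c _ _ (fun i hi => XX_low n c φ i hi) (φ t) _ (hφ t).2
      have e2 : Fm.Sat (stdStr n c (fun _ _ _ _ _ => False)) (φ t)
            (upd (upd (upd (upd v 0 a) 1 b) 2 c') 3 d) ↔
          Fm.Sat (stdStr n c (fun _ _ _ _ _ => False)) (φ t) (as4 a b c' d) := by
        refine TH838.J1549.sat_cong fun x hx => ?_
        have hx4 : x < 4 := (hφ t).1 x hx
        have : x = 0 ∨ x = 1 ∨ x = 2 ∨ x = 3 := by omega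
        rcases this with rfl | rfl | rfl | rfl <;> simp [upd, as4]
      have e3 : Fm.Sat (stdStr n c (XX n c φ)) (.op (100 + t) 0 1 2 3)
            (upd (upd (upd (upd v 0 a) 1 b) 2 c') 3 d) ↔
          Fm.Sat (stdStr n c (fun _ _ _ _ _ => False)) (φ t) (as4 a b c' d) := by
        have e4 : stdOp n c (XX n c φ) (100 + t) = XX n c φ (100 + t) := by
          rw [show 100 + (t : ℕ) = (79 + t) + 21 by omega]
          rfl
        rw [Fm.sat_op]
        show stdOp n c (XX n c φ) (100 + t) _ _ _ _ ↔ _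
        rw [e4]
        have u0 : upd (upd (upd (upd v 0 a) 1 b) 2 c') 3 d 0 = a := by simp [upd]
        have u1 : upd (upd (upd (upd v 0 a) 1 b) 2 c') 3 d 1 = b := by simp [upd]
        have u2 : upd (upd (upd (upd v 0 a) 1 b) 2 c') 3 d 2 = c' := by simp [upd]
        have u3 : upd (upd (upd (upd v 0 a) 1 b) 2 c') 3 d 3 = d := by simp [upd]
        rw [u0, u1, u2, u3]
        constructor
        · rintro ⟨t', ht', h5⟩
          have : t = t' := Fin.ext (by omega)
          rw [this]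
          exact h5
        · intro h5
          exact ⟨t, rfl, h5⟩
      rw [e3, e1, e2]
  -- the target
  have htar := sat_pv hall hpv (fun _ => Ob.nil)
  rw [target, Fm.sat_ex] at htar
  obtain ⟨a0, htar⟩ := htar
  obtain ⟨hc1, hc2⟩ := (Fm.sat_and _ _ _ _).1 htar
  have hcong : Cong (stdStr n c (XX n c φ)) a0 := by
    have h5 := (hΓ _ _).1 hc1
    rwa [TH672.upd_same] at h5
  obtain ⟨R, h, hT⟩ := (h4 _ _).1 hcong
  have hθ := (h3 _ R a0 h hT p (theta P c n) _ (TH672.upd_same _ _ _)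
    (fun h5 => by
      rcases bd_theta h5 with h5 | h5
      · omega
      · exact hbd h5)
    (fun x hx => absurd hx (closed_theta hP.2.1 c n x))).1 hc2
  rw [theta, Fm.sat_and, Fm.sat_and] at hθ
  obtain ⟨hθ1, hθ2, hθ3⟩ := hθ
  obtain ⟨q'⟩ := TH838.J1549.exists_Q _ ((sat_conjL _ _ _).1 hθ1)
  -- the cut
  rw [cutF, Fm.sat_and, Fm.sat_ex] at hθ2
  obtain ⟨⟨z, hz⟩, hsucc⟩ := hθ2
  rw [Fm.sat_and, Fm.sat_zero, Fm.sat_op, TH672.upd_same] at hz
  have hcut : ∀ k, R.op 0 (q'.nm k) (q'.nm k) (q'.nm k) (q'.nm k) := by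
    intro k
    induction k with
    | zero =>
      have : z = q'.o := (q'.zero_iff z).1 hz.1
      show R.op 0 q'.o q'.o q'.o q'.o
      rw [← this]
      exact hz.2
    | succ k ihk =>
      have h5 := hsucc (q'.nm k) (q'.nm (k + 1))
      simp only [Fm.sat_imp, Fm.sat_succ, Fm.sat_op, TH672.upd_same,
        TH672.upd_ne _ _ (show (0 : ℕ) ≠ 1 by decide)] at h5
      exact h5 ((q'.succ_iff _ _).2 rfl) ihk
  -- the halting computation
  have hPf : ∀ x, P.Free x → x = 2 ∨ x = 3 ∨ x = 4 := hP.2.1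
  have hnf1 : ¬ (Fm.all 3 (.imp (.op 0 3 3 3 3) (.neg P)) : Fml).Free 1 := by
    intro h5
    simp only [Fm.Free, Fm.neg] at h5
    obtain ⟨-, h6 | h6 | h6⟩ := h5
    · omega
    · have := hPf 1 h6
      omega
    · exact h6
  have hnf0 : ¬ (Fm.all 3 (.imp (.op 0 3 3 3 3) (.neg P)) : Fml).Free 0 := by
    intro h5
    simp only [Fm.Free, Fm.neg] at h5
    obtain ⟨-, h6 | h6 | h6⟩ := h5
    · omega
    · have := hPf 0 h6
      omega
    · exact h6
  rw [TH838.J1549.sat_inst q' le_rfl (fun h5 => (TH838.J1549.free_inst h5).1 rfl)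
    (fun h5 => hnf1 (TH838.J1549.free_inst h5).2.2),
    TH838.J1549.sat_inst q' (by omega) hnf0 hnf1] at hθ3
  have h6 := hθ3 (q'.nm s)
  rw [Fm.sat_imp, Fm.sat_op, TH672.upd_same, Fm.sat_neg] at h6
  refine h6 (hcut s) ((hP2 R q' _ c s n ?_ ?_ ?_).2 hs)
  · rw [TH672.upd_ne _ _ (by omega), TH672.upd_ne _ _ (by omega), TH672.upd_same]
  · rw [TH672.upd_same]
  · rw [TH672.upd_ne _ _ (by omega), TH672.upd_same]

end Pool.Agent.Helper364_SP.ClaimOne
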