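import Pool.Agent.Helper364_SP.Stmts
import Pool.Agent.TH197.J1545b

/-!
# The halting relation is representable
-/

set_option autoImplicit false

namespace Pool.Agent.Helper364_SP.HalR

open Pool.Agent.TH672 (Fm Str upd Pv LogK)
open Pool.Agent.TH636.BC (Fml inst robinson Arith)
open Pool.Agent.TH838.J1549 (Q)
open Pool.Agent.Helper364_SP

theorem sat_robinson {R : Str ℕ} (q : Q R) : ∀ ψ ∈ robinson, ∀ v : ℕ → R.M, Fm.Sat R ψ v := by
  intro ψ hψ v
  simp only [robinson, List.mem_cons, List.not_mem_nil, or_false] at hψ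
  rcases hψ with rfl | rfl | rfl | rfl | rfl | rfl | rfl | rfl | rfl | rfl | rfl | rfl | rfl |
    rfl | rfl
  all_goals
    simp only [Fm.sat_all, Fm.sat_ex, Fm.sat_imp, Fm.sat_zero, Fm.sat_succ, Fm.sat_add,
      Fm.sat_mul, Fm.sat_eq, Fm.sat_neg, Fm.sat_or, q.zero_iff, q.succ_iff, q.add_iff, q.mul_iff]
    simp [upd]
  · intro x
    exact q.s_ne x
  · intro x y h
    exact q.s_inj _ _ h
  · intro x
    exact q.cases x
  · intro x
    exact (q.a_o x).symm
  · rintro x y _ _ _ rfl rfl rfl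
    exact (q.a_s x y).symm
  · intro x
    exact (q.m_o x).symm
  · rintro x y _ _ _ rfl rfl rfl
    exact (q.m_s x y).symm


theorem computable_hal :
    ComputablePred (fun x : ℕ × ℕ × ℕ => Hal x.1 x.2.1 x.2.2) := by
  refine ⟨fun x => inferInstanceAs (Decidable (_ = true)), ?_⟩
  have h1 : Primrec (fun x : ℕ × ℕ × ℕ => Nat.Partrec.Code.evaln x.2.1
      (Denumerable.ofNat Nat.Partrec.Code x.1) x.2.2) :=
    Nat.Partrec.Code.primrec_evaln.comp (Primrec.pair (Primrec.pair
      (Primrec.fst.comp Primrec.snd) ((Primrec.ofNat Nat.Partrec.Code).comp Primrec.fst))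
      (Primrec.snd.comp Primrec.snd))
  have h2 : Primrec (fun x : ℕ × ℕ × ℕ => (Nat.Partrec.Code.evaln x.2.1
      (Denumerable.ofNat Nat.Partrec.Code x.1) x.2.2).isSome) :=
    Primrec.option_isSome.comp h1
  refine (h2.to_comp).of_eq fun x => ?_
  simp [Hal]

theorem exHalRep : ExHalRep := by
  obtain ⟨P, hA, hF, hpos, hneg⟩ := TH838.J1549.repr Hal computable_hal.to_re
    computable_hal.not.to_re
  refine ⟨P, hA, hF, fun S q v c s i h2 h3 h4 => ?_⟩
  have key : ∀ ψ : Fml, (∀ x, ψ.Free x → x = 2 ∨ x = 3 ∨ x = 4) →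
      (∃ k, TH636.BC.Proves robinson k (inst 2 c (inst 3 s (inst 4 i ψ)))) → Fm.Sat S ψ v := by
    rintro ψ hψ ⟨k, hk⟩
    have h := TH197.J1545.sat_proves (sat_robinson q) hk v
    rw [TH838.J1549.sat_inst3 q hψ] at h
    refine (TH838.J1549.sat_cong fun x hx => ?_).1 h
    rcases hψ x hx with rfl | rfl | rfl
    · simp [upd, h2]
    · simp [upd, h3]
    · simp [upd, h4]
  constructor
  · intro h
    by_contra hc
    have h' := key P.neg (fun x hx => hF x (by simpa [Fm.neg, Fm.Free] using hx)) (hneg c s i hc)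
    exact h' h
  · intro h
    exact key P hF (hpos c s i h)

end Pool.Agent.Helper364_SP.HalR
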