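import Pool.Agent.Helper364_SP.Stmts

set_option autoImplicit false

namespace Pool.Agent.Helper364_SP.Comps

open FirstOrder FirstOrder.Language
open Pool.Agent.TH672 (Fm Str upd Pv LogK)
open Pool.Agent.TH636.BC (Fml inst robinson Arith)
open Pool.Agent.TH838.J1549 (Q)
open Pool.Agent.Helper364_SP

/-- translation of formulas without bound variables -/
theorem trans0 (h : TranslateG) (L' L : FirstOrder.Language.{0, 0}) (K : Interp L' L) (β : Type)
    (φ : L'.Formula β) : ∃ ψ : L.Formula (Fin K.par ⊕ β × Fin K.dim),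
    ∀ (M : Type) [L.Structure M] (A : Type) [L'.Structure A] (a : Fin K.par → M)
      (f : K.Dom M a → A), K.Realizes M a A f → ∀ (y : β → K.Dom M a),
      (ψ.Realize (Sum.elim a fun p => (y p.1).1 p.2) ↔ φ.Realize (fun b => f (y b))) := by
  obtain ⟨ψ, hψ⟩ := h L' L K β 0 φ
  refine ⟨ψ.relabel (Sum.map id
    (fun p : (β ⊕ Fin 0) × Fin K.dim => (Sum.elim id Fin.elim0 p.1, p.2))), ?_⟩
  intro M _ A _ a f hf y
  rw [Formula.realize_relabel]
  have := hψ M A a f hf y (fun i => i.elim0)
  have e1 : (Sum.elim a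
      fun p : (β ⊕ Fin 0) × Fin K.dim => (Sum.elim y (fun i => i.elim0) p.1).1 p.2) =
      (Sum.elim a fun p : β × Fin K.dim => (y p.1).1 p.2) ∘ (Sum.map id
        (fun p : (β ⊕ Fin 0) × Fin K.dim => (Sum.elim id Fin.elim0 p.1, p.2))) := by
    funext p
    rcases p with i | p
    · rfl
    · obtain ⟨p1, p2⟩ := p
      rcases p1 with b | i
      · rfl
      · exact i.elim0
  rw [e1] at this
  rw [this]
  unfold Formula.Realize
  have e2 : (fun i : Fin 0 => f (i.elim0 : K.Dom M a)) = default := Subsingleton.elim _ _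
  rw [e2]

section

variable {L L' L'' : FirstOrder.Language.{0, 0}} (K : Interp L'' L') (N : Interp L' L)

/-- the pairing of indices -/
def e : Fin K.dim × Fin N.dim ≃ Fin (K.dim * N.dim) := finProdFinEquiv

/-- the pairing of indices of parameters -/
def ep : Fin K.par × Fin N.dim ≃ Fin (K.par * N.dim) := finProdFinEquiv

/-- The parameters `c` are the parameters `a` and the components of `w`. -/
structure Good {M : Type} [L.Structure M] (a : Fin N.par → M)
    (w : Fin K.par → N.Dom M a) (c : Fin (N.par + K.par * N.dim) → M) : Prop where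
  left : ∀ i, c (Fin.castAdd _ i) = a i
  right : ∀ i j, c (Fin.natAdd _ (ep K N (i, j))) = (w i).1 j

/-- renaming of variables -/
def gm (β : Type) : Fin N.par ⊕ (Fin K.par ⊕ β × Fin K.dim) × Fin N.dim →
    Fin (N.par + K.par * N.dim) ⊕ β × Fin (K.dim * N.dim)
  | Sum.inl i => Sum.inl (Fin.castAdd _ i)
  | Sum.inr (Sum.inl i, j) => Sum.inl (Fin.natAdd _ (ep K N (i, j)))
  | Sum.inr (Sum.inr (b, i), j) => Sum.inr (b, e K N (i, j))

/-- the translation of a formula with variables in `β × Fin K.dim` -/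
theorem trans1 (h : TranslateG) (β : Type) (φ : L'.Formula (Fin K.par ⊕ β × Fin K.dim)) :
    ∃ ψ : L.Formula (Fin (N.par + K.par * N.dim) ⊕ β × Fin (K.dim * N.dim)),
    ∀ (M : Type) [L.Structure M] (A : Type) [L'.Structure A] (a : Fin N.par → M)
      (f : N.Dom M a → A), N.Realizes M a A f → ∀ (w : Fin K.par → N.Dom M a)
        (c : Fin (N.par + K.par * N.dim) → M), Good K N a w c →
        ∀ (z : β → Fin (K.dim * N.dim) → M)
        (y : β → Fin K.dim → N.Dom M a), (∀ b i j, (y b i).1 j = z b (e K N (i, j))) →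
      (ψ.Realize (Sum.elim c fun p => z p.1 p.2) ↔
        φ.Realize (Sum.elim (fun i => f (w i)) fun b => f (y b.1 b.2))) := by
  obtain ⟨ψ, hψ⟩ := trans0 h L' L N (Fin K.par ⊕ β × Fin K.dim) φ
  refine ⟨ψ.relabel (gm K N β), ?_⟩
  intro M _ A _ a f hf w c hc z y hy
  rw [Formula.realize_relabel]
  have h1 := hψ M A a f hf (Sum.elim w fun b => y b.1 b.2)
  have h2 : (fun b => f (Sum.elim w (fun b : β × Fin K.dim => y b.1 b.2) b)) =
      Sum.elim (fun i => f (w i)) fun b => f (y b.1 b.2) := by
    funext b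
    rcases b with b | b <;> rfl
  rw [h2] at h1
  rw [← h1]
  have h3 : (Sum.elim c fun p : β × Fin (K.dim * N.dim) => z p.1 p.2) ∘ gm K N β =
      Sum.elim a fun p : (Fin K.par ⊕ β × Fin K.dim) × Fin N.dim =>
        (Sum.elim w (fun b : β × Fin K.dim => y b.1 b.2) p.1).1 p.2 := by
    funext p
    rcases p with i | ⟨i | ⟨b, i⟩, j⟩
    · exact hc.left i
    · exact hc.right i j
    · exact (hy b i j).symm
  rw [h3]

/-- renaming of variables -/
def gd : Fin N.par ⊕ (Fin K.par ⊕ Fin K.dim) × Fin N.dim →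
    Fin (N.par + K.par * N.dim) ⊕ Fin (K.dim * N.dim)
  | Sum.inl i => Sum.inl (Fin.castAdd _ i)
  | Sum.inr (Sum.inl i, j) => Sum.inl (Fin.natAdd _ (ep K N (i, j)))
  | Sum.inr (Sum.inr i, j) => Sum.inr (e K N (i, j))

/-- the domain formula -/
theorem transD (h : TranslateG) :
    ∃ ψ : L.Formula (Fin (N.par + K.par * N.dim) ⊕ Fin (K.dim * N.dim)),
    ∀ (M : Type) [L.Structure M] (A : Type) [L'.Structure A] (a : Fin N.par → M)
      (f : N.Dom M a → A), N.Realizes M a A f → ∀ (w : Fin K.par → N.Dom M a)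
      (c : Fin (N.par + K.par * N.dim) → M), Good K N a w c →
      ∀ (z : Fin (K.dim * N.dim) → M),
      (ψ.Realize (Sum.elim c z) ↔ ∃ y : Fin K.dim → N.Dom M a,
        (∀ i j, (y i).1 j = z (e K N (i, j))) ∧
        K.dom.Realize (Sum.elim (fun i => f (w i)) fun i => f (y i))) := by
  obtain ⟨ψ, hψ⟩ := trans0 h L' L N (Fin K.par ⊕ Fin K.dim) K.dom
  refine ⟨(BoundedFormula.iInf fun i : Fin K.dim => N.dom.relabel
    (Sum.elim (fun j => Sum.inl (Fin.castAdd _ j)) (fun j => Sum.inr (e K N (i, j))))) ⊓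
    ψ.relabel (gd K N), ?_⟩
  intro M _ A _ a f hf w c hc z
  unfold Formula.Realize
  rw [BoundedFormula.realize_inf, BoundedFormula.realize_iInf]
  have key : ∀ y : Fin K.dim → N.Dom M a, (∀ i j, (y i).1 j = z (e K N (i, j))) →
      (Formula.Realize (ψ.relabel (gd K N)) (Sum.elim c z) ↔
        K.dom.Realize (Sum.elim (fun i => f (w i)) fun i => f (y i))) := by
    intro y hy
    rw [Formula.realize_relabel]
    have h1 := hψ M A a f hf (Sum.elim w y)
    have h2 : (fun b => f (Sum.elim w y b)) = Sum.elim (fun i => f (w i)) fun i => f (y i) := by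
      funext b
      rcases b with b | b <;> rfl
    rw [h2] at h1
    rw [← h1]
    have h3 : (Sum.elim c z) ∘ gd K N = Sum.elim a fun p : (Fin K.par ⊕ Fin K.dim) × Fin N.dim =>
        (Sum.elim w y p.1).1 p.2 := by
      funext p
      rcases p with i | ⟨i | i, j⟩
      · exact hc.left i
      · exact hc.right i j
      · exact (hy i j).symm
    rw [h3]
  have dm : ∀ i : Fin K.dim, (Sum.elim c z) ∘ (Sum.elim (fun j => Sum.inl (Fin.castAdd _ j))
      (fun j => Sum.inr (e K N (i, j)))) = Sum.elim a fun j => z (e K N (i, j)) := by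
    intro i
    funext p
    rcases p with j | j
    · exact hc.left j
    · rfl
  constructor
  · rintro ⟨h1, h2⟩
    have h1' : ∀ i, N.dom.Realize (Sum.elim a fun j => z (e K N (i, j))) := by
      intro i
      have := h1 i
      rw [← Formula.Realize, Formula.realize_relabel, dm] at this
      exact this
    refine ⟨fun i => ⟨fun j => z (e K N (i, j)), h1' i⟩, fun i j => rfl, ?_⟩
    exact (key _ (fun i j => rfl)).1 h2
  · rintro ⟨y, hy, h3⟩
    refine ⟨?_, (key y hy).2 h3⟩
    intro i
    rw [← Formula.Realize, Formula.realize_relabel, dm]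
    have : (fun j => z (e K N (i, j))) = (y i).1 := by
      funext j
      exact (hy i j).symm
    rw [this]
    exact (y i).2

end

theorem compS (h : TranslateG) : CompS := by
  intro L L' L'' K N
  obtain ⟨D, hD⟩ := transD K N h
  obtain ⟨E, hE⟩ := trans1 K N h (Fin 2) K.eqv
  have hF := fun (n : ℕ) (F : L''.Functions n) => trans1 K N h (Fin (n + 1)) (K.func F)
  choose Fu hFu using hF
  have hR := fun (n : ℕ) (R : L''.Relations n) => trans1 K N h (Fin n) (K.rel R)
  choose Re hRe using hR
  refine ⟨⟨N.par + K.par * N.dim, K.dim * N.dim, D, E, fun {n} F => Fu n F,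
    fun {n} R => Re n R⟩, ?_⟩
  intro M _ A _ B _ a f b g hf hg
  obtain ⟨w, hw⟩ : ∃ w : Fin K.par → N.Dom M a, (fun i => f (w i)) = b := by
    choose w hw using fun i => hf.surj (b i)
    exact ⟨w, funext hw⟩
  subst hw
  let c : Fin (N.par + K.par * N.dim) → M :=
    Fin.append a (fun k => (w ((ep K N).symm k).1).1 ((ep K N).symm k).2)
  have hc : Good K N a w c := by
    constructor
    · intro i
      exact Fin.append_left _ _ i
    · intro i j
      show Fin.append a _ (Fin.natAdd _ (ep K N (i, j))) = _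
      rw [Fin.append_right]
      simp
  have hD' := fun x : {x : Fin (K.dim * N.dim) → M // D.Realize (Sum.elim c x)} =>
    (hD M A a f hf w c hc x.1).1 x.2
  choose y hy hyK using hD'
  refine ⟨c, fun x => g ⟨fun i => f (y x i), hyK x⟩, ?_⟩
  constructor
  · intro b
    obtain ⟨⟨u, hu⟩, rfl⟩ := hg.surj b
    choose v hv using fun i => hf.surj (u i)
    have hx : D.Realize (Sum.elim c fun k : Fin (K.dim * N.dim) =>
        (v ((e K N).symm k).1).1 ((e K N).symm k).2) := by
      rw [hD M A a f hf w c hc]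
      refine ⟨v, fun i j => by simp, ?_⟩
      have : (fun i => f (v i)) = u := funext hv
      rw [this]
      exact hu
    refine ⟨⟨_, hx⟩, ?_⟩
    refine congrArg g (Subtype.ext ?_)
    funext i
    show f (y ⟨_, hx⟩ i) = u i
    rw [← hv i]
    refine congrArg f (Subtype.ext ?_)
    funext j
    rw [hy]
    simp
  · intro x
    have := hE M A a f hf w c hc (fun i => (x i).1) (fun i => y (x i))
      (fun b i j => hy (x b) i j)
    rw [this]
    exact hg.eqv (fun i => ⟨fun j => f (y (x i) j), hyK (x i)⟩)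
  · intro n F x
    have := hFu n F M A a f hf w c hc (fun i => (x i).1) (fun i => y (x i))
      (fun b i j => hy (x b) i j)
    rw [this]
    exact hg.func F (fun i => ⟨fun j => f (y (x i) j), hyK (x i)⟩)
  · intro n R x
    have := hRe n R M A a f hf w c hc (fun i => (x i).1) (fun i => y (x i))
      (fun b i j => hy (x b) i j)
    rw [this]
    exact hg.rel R (fun i => ⟨fun j => f (y (x i) j), hyK (x i)⟩)

end Pool.Agent.Helper364_SP.Comps
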