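import Pool.Agent.Helper364_SP.Stmts

set_option autoImplicit false

namespace Pool.Agent.Helper364_SP.CongTr

open FirstOrder FirstOrder.Language
open Pool.Agent.TH672 (Fm Str upd Pv LogK)
open Pool.Agent.TH636.BC (Fml inst robinson Arith)
open Pool.Agent.TH838.J1549 (Q)
open Pool.Agent.Helper364_SP

/-- the domain -/
def dD (p i : ℕ) : Fml := .op 100 i i i p

/-- the identity -/
def dE (p i j : ℕ) : Fml := .op 101 i j j p

def cNe (p : ℕ) : Fml := .ex 0 (dD p 0)
def cRefl (p : ℕ) : Fml := .all 0 (.imp (dD p 0) (dE p 0 0))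
def cSymm (p : ℕ) : Fml := .all 0 (.all 1 (.imp (dD p 0) (.imp (dD p 1) (.imp (dE p 0 1)
  (dE p 1 0)))))
def cTrans (p : ℕ) : Fml := .all 0 (.all 1 (.all 2 (.imp (dD p 0) (.imp (dD p 1) (.imp (dD p 2)
  (.imp (dE p 0 1) (.imp (dE p 1 2) (dE p 0 2))))))))
def cUn (p t : ℕ) : Fml := .all 0 (.all 1 (.imp (dD p 0) (.imp (dD p 1) (.imp (dE p 0 1)
  (.imp (.op t 0 0 0 p) (.op t 1 1 1 p))))))
def cBin (p t : ℕ) : Fml := .all 0 (.all 1 (.all 2 (.all 3 (.imp (dD p 0) (.imp (dD p 1)
  (.imp (dD p 2) (.imp (dD p 3) (.imp (dE p 0 2) (.imp (dE p 1 3)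
  (.imp (.op t 0 1 1 p) (.op t 2 3 3 p)))))))))))
def cTer (p t : ℕ) : Fml := .all 0 (.all 1 (.all 2 (.all 3 (.all 4 (.all 5 (.imp (dD p 0)
  (.imp (dD p 1) (.imp (dD p 2) (.imp (dD p 3) (.imp (dD p 4) (.imp (dD p 5) (.imp (dE p 0 3)
  (.imp (dE p 1 4) (.imp (dE p 2 5) (.imp (.op t 0 1 2 p) (.op t 3 4 5 p))))))))))))))))

/-- the formula -/
def gam0 (p : ℕ) : Fml := .and (cNe p) (.and (cRefl p) (.and (cSymm p) (.and (cTrans p)
  (.and (cUn p 102) (.and (cBin p 103) (.and (cTer p 104) (.and (cTer p 105) (cUn p 106))))))))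

theorem free_and {x : ℕ} {φ ψ : Fml} (h : (Fm.and φ ψ).Free x) : φ.Free x ∨ ψ.Free x := by
  simpa [Fm.and, Fm.neg, Fm.Free] using h

theorem fr_and {p : ℕ} {φ ψ : Fml} (h1 : ∀ x, φ.Free x → x = p) (h2 : ∀ x, ψ.Free x → x = p) :
    ∀ x, (Fm.and φ ψ).Free x → x = p := by
  intro x hx
  rcases free_and hx with h | h
  · exact h1 x h
  · exact h2 x h

theorem exCong : ExCong := by
  intro p hp
  refine ⟨gam0 p, ?_, ?_⟩
  · refine fr_and ?_ (fr_and ?_ (fr_and ?_ (fr_and ?_ (fr_and ?_ (fr_and ?_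
      (fr_and ?_ (fr_and ?_ ?_)))))))
    · intro x hx
      simp [cNe, Fm.ex, Fm.neg, Fm.Free, dD] at hx
      omega
    · intro x hx
      simp [cRefl, Fm.Free, dD, dE] at hx
      omega
    · intro x hx
      simp [cSymm, Fm.Free, dD, dE] at hx
      omega
    · intro x hx
      simp [cTrans, Fm.Free, dD, dE] at hx
      omega
    · intro x hx
      simp [cUn, Fm.Free, dD, dE] at hx
      omega
    · intro x hx
      simp [cBin, Fm.Free, dD, dE] at hx
      omega
    · intro x hx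
      simp [cTer, Fm.Free, dD, dE] at hx
      omega
    · intro x hx
      simp [cTer, Fm.Free, dD, dE] at hx
      omega
    · intro x hx
      simp [cUn, Fm.Free, dD, dE] at hx
      omega
  · intro S v
    simp only [gam0, Fm.sat_and, cNe, cRefl, cSymm, cTrans, cUn, cBin, cTer, dD, dE, Fm.sat_ex,
      Fm.sat_all, Fm.sat_imp, Fm.sat_op]
    have e0 : p ≠ 0 := by omega
    have e1 : p ≠ 1 := by omega
    have e2 : p ≠ 2 := by omega
    have e3 : p ≠ 3 := by omega
    have e4 : p ≠ 4 := by omega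
    have e5 : p ≠ 5 := by omega
    simp [upd, e0, e1, e2, e3, e4, e5]
    constructor
    · rintro ⟨h1, h2, h3, h4, h5, h6, h7, h8, h9⟩
      exact ⟨h1, h2, h3, h4, h5, h6, h7, h8, h9⟩
    · rintro ⟨h1, h2, h3, h4, h5, h6, h7, h8, h9⟩
      exact ⟨h1, h2, h3, h4, h5, h6, h7, h8, h9⟩

theorem satTr : SatTr := by
  intro S R π h H p φ
  induction φ with
  | bot => intro v _ _ _; exact Iff.rfl
  | eq x y =>
    intro v hp _ hv
    subst hp
    exact H.eq _ _ (hv x (Or.inl rfl)) (hv y (Or.inr rfl))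
  | zero x =>
    intro v hp _ hv
    subst hp
    exact H.zero _ (hv x rfl)
  | succ x y =>
    intro v hp _ hv
    subst hp
    exact H.succ _ _ (hv x (Or.inl rfl)) (hv y (Or.inr rfl))
  | add x y z =>
    intro v hp _ hv
    subst hp
    exact H.add _ _ _ (hv x (Or.inl rfl)) (hv y (Or.inr (Or.inl rfl))) (hv z (Or.inr (Or.inr rfl)))
  | mul x y z =>
    intro v hp _ hv
    subst hp
    exact H.mul _ _ _ (hv x (Or.inl rfl)) (hv y (Or.inr (Or.inl rfl))) (hv z (Or.inr (Or.inr rfl)))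
  | op i a b c d =>
    intro v hp _ hv
    subst hp
    exact H.op i _ _ _ _ (hv a (Or.inl rfl))
  | imp φ ψ ih1 ih2 =>
    intro v hp hb hv
    have h1 := ih1 v hp (fun h => hb (Or.inl h)) (fun x hx => hv x (Or.inl hx))
    have h2 := ih2 v hp (fun h => hb (Or.inr h)) (fun x hx => hv x (Or.inr hx))
    show (Fm.Sat S (tr p φ) v → Fm.Sat S (tr p ψ) v) ↔ _
    rw [h1, h2]
    exact Iff.rfl
  | all x φ ih =>
    intro v hp hb hv
    have hpx : p ≠ x := fun e => hb (Or.inl e)
    have hb' : ¬ φ.Bd p := fun h => hb (Or.inr h)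
    have hp' : ∀ a, upd v x a p = π := fun a => (TH672.upd_ne v a hpx).trans hp
    have hup : ∀ a, (fun y => h (upd v x a y)) = upd (fun y => h (v y)) x (h a) := by
      intro a
      funext y
      unfold upd
      split_ifs <;> rfl
    have hf : ∀ a, S.op 100 a a a π → ∀ y, φ.Free y →
        S.op 100 (upd v x a y) (upd v x a y) (upd v x a y) π := by
      intro a ha y hy
      by_cases hyx : y = x
      · subst hyx
        rw [TH672.upd_same]
        exact ha
      · rw [TH672.upd_ne v a hyx]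
        exact hv y ⟨hyx, hy⟩
    show (∀ a, S.op 100 (upd v x a x) (upd v x a x) (upd v x a x) (upd v x a p) →
      Fm.Sat S (tr p φ) (upd v x a)) ↔ ∀ b, Fm.Sat R φ (upd (fun y => h (v y)) x b)
    constructor
    · intro hs b
      obtain ⟨a, ha, rfl⟩ := H.surj b
      have h1 := hs a (by rw [TH672.upd_same, hp']; exact ha)
      rw [ih (upd v x a) (hp' a) hb' (hf a ha), hup] at h1
      exact h1
    · intro hs a ha
      rw [TH672.upd_same, hp'] at ha
      rw [ih (upd v x a) (hp' a) hb' (hf a ha), hup]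
      exact hs (h a)

theorem congIff : CongIff := by
  intro S p
  constructor
  · intro C
    let s : Setoid {a : S.M // S.op 100 a a a p} :=
      { r := fun a b => S.op 101 a.1 b.1 b.1 p
        iseqv :=
          { refl := fun a => C.refl a.1 a.2
            symm := fun {a b} h => C.symm a.1 b.1 a.2 b.2 h
            trans := fun {a b c} h h' => C.trans a.1 b.1 c.1 a.2 b.2 c.2 h h' } }
    obtain ⟨x0, hx0⟩ := C.ne
    have hE : ∀ a b : {a : S.M // S.op 100 a a a p}, Quotient.mk s a = Quotient.mk s b ↔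
        S.op 101 a.1 b.1 b.1 p := fun a b => Quotient.eq (r := s)
    let R : Str ℕ :=
      { M := Quotient s
        ne := ⟨Quotient.mk s ⟨x0, hx0⟩⟩
        zero := fun b => ∃ a : {a : S.M // S.op 100 a a a p}, Quotient.mk s a = b ∧
          S.op 102 a.1 a.1 a.1 p
        succ := fun b c => ∃ a a' : {a : S.M // S.op 100 a a a p}, Quotient.mk s a = b ∧
          Quotient.mk s a' = c ∧ S.op 103 a.1 a'.1 a'.1 p
        add := fun b c d => ∃ a a' a'' : {a : S.M // S.op 100 a a a p}, Quotient.mk s a = b ∧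
          Quotient.mk s a' = c ∧ Quotient.mk s a'' = d ∧ S.op 104 a.1 a'.1 a''.1 p
        mul := fun b c d => ∃ a a' a'' : {a : S.M // S.op 100 a a a p}, Quotient.mk s a = b ∧
          Quotient.mk s a' = c ∧ Quotient.mk s a'' = d ∧ S.op 105 a.1 a'.1 a''.1 p
        op := fun _ b _ _ _ => ∃ a : {a : S.M // S.op 100 a a a p}, Quotient.mk s a = b ∧
          S.op 106 a.1 a.1 a.1 p }
    classical
    let h : S.M → R.M := fun a =>
      if ha : S.op 100 a a a p then Quotient.mk s ⟨a, ha⟩ else Quotient.mk s ⟨x0, hx0⟩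
    have hh : ∀ (a : S.M) (ha : S.op 100 a a a p), h a = Quotient.mk s ⟨a, ha⟩ := fun a ha =>
      dif_pos ha
    refine ⟨R, h, ?_, ?_, ?_, ?_, ?_, ?_, ?_⟩
    · intro b
      obtain ⟨⟨a, ha⟩, rfl⟩ := Quotient.exists_rep b
      exact ⟨a, ha, hh a ha⟩
    · intro a b ha hb
      rw [hh a ha, hh b hb]
      exact (hE ⟨a, ha⟩ ⟨b, hb⟩).symm
    · intro a ha
      rw [hh a ha]
      constructor
      · intro h1
        exact ⟨⟨a, ha⟩, rfl, h1⟩
      · rintro ⟨a', e, h1⟩
        exact C.zero a'.1 a a'.2 ha ((hE _ _).1 e) h1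
    · intro a b ha hb
      rw [hh a ha, hh b hb]
      constructor
      · intro h1
        exact ⟨⟨a, ha⟩, ⟨b, hb⟩, rfl, rfl, h1⟩
      · rintro ⟨a', b', e, e', h1⟩
        exact C.succ a'.1 b'.1 a b a'.2 b'.2 ha hb ((hE _ _).1 e) ((hE _ _).1 e') h1
    · intro a b c ha hb hc
      rw [hh a ha, hh b hb, hh c hc]
      constructor
      · intro h1
        exact ⟨⟨a, ha⟩, ⟨b, hb⟩, ⟨c, hc⟩, rfl, rfl, rfl, h1⟩
      · rintro ⟨a', b', c', e, e', e'', h1⟩
        exact C.add a'.1 b'.1 c'.1 a b c a'.2 b'.2 c'.2 ha hb hc ((hE _ _).1 e) ((hE _ _).1 e')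
          ((hE _ _).1 e'') h1
    · intro a b c ha hb hc
      rw [hh a ha, hh b hb, hh c hc]
      constructor
      · intro h1
        exact ⟨⟨a, ha⟩, ⟨b, hb⟩, ⟨c, hc⟩, rfl, rfl, rfl, h1⟩
      · rintro ⟨a', b', c', e, e', e'', h1⟩
        exact C.mul a'.1 b'.1 c'.1 a b c a'.2 b'.2 c'.2 ha hb hc ((hE _ _).1 e) ((hE _ _).1 e')
          ((hE _ _).1 e'') h1
    · intro i a b c d ha
      rw [hh a ha]
      constructor
      · intro h1
        exact ⟨⟨a, ha⟩, rfl, h1⟩
      · rintro ⟨a', e, h1⟩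
        exact C.cut a'.1 a a'.2 ha ((hE _ _).1 e) h1
  · rintro ⟨R, h, H⟩
    constructor
    · obtain ⟨b⟩ := R.ne
      obtain ⟨a, ha, -⟩ := H.surj b
      exact ⟨a, ha⟩
    · intro x hx
      exact (H.eq x x hx hx).2 rfl
    · intro x y hx hy e
      exact (H.eq y x hy hx).2 ((H.eq x y hx hy).1 e).symm
    · intro x y z hx hy hz e e'
      exact (H.eq x z hx hz).2 (((H.eq x y hx hy).1 e).trans ((H.eq y z hy hz).1 e'))
    · intro x y hx hy e h1
      have e1 := (H.eq x y hx hy).1 e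
      rw [H.zero y hy, ← e1]
      exact (H.zero x hx).1 h1
    · intro x y x' y' hx hy hx' hy' e e' h1
      have e1 := (H.eq x x' hx hx').1 e
      have e2 := (H.eq y y' hy hy').1 e'
      rw [H.succ x' y' hx' hy', ← e1, ← e2]
      exact (H.succ x y hx hy).1 h1
    · intro x y z x' y' z' hx hy hz hx' hy' hz' e e' e'' h1
      have e1 := (H.eq x x' hx hx').1 e
      have e2 := (H.eq y y' hy hy').1 e'
      have e3 := (H.eq z z' hz hz').1 e''
      rw [H.add x' y' z' hx' hy' hz', ← e1, ← e2, ← e3]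
      exact (H.add x y z hx hy hz).1 h1
    · intro x y z x' y' z' hx hy hz hx' hy' hz' e e' e'' h1
      have e1 := (H.eq x x' hx hx').1 e
      have e2 := (H.eq y y' hy hy').1 e'
      have e3 := (H.eq z z' hz hz').1 e''
      rw [H.mul x' y' z' hx' hy' hz', ← e1, ← e2, ← e3]
      exact (H.mul x y z hx hy hz).1 h1
    · intro x y hx hy e h1
      have e1 := (H.eq x y hx hy).1 e
      have h2 := (H.op 0 x (h x) (h x) (h x) hx).1 h1
      refine (H.op 0 y (h x) (h x) (h x) hy).2 ?_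
      rw [← e1]
      exact h2

end Pool.Agent.Helper364_SP.CongTr
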