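import Pool.Agent.Helper364_SP.Stmts

/-!
The diagonal lemma.
-/

set_option autoImplicit false

namespace Pool.Agent.Helper364_SP.DiagM

open FirstOrder FirstOrder.Language
open Pool.Agent.TH672 (Fm Str upd Pv LogK)
open Pool.Agent.TH636.BC (Fml inst robinson Arith)
open Pool.Agent.TH838.J1549 (Q)
open Pool.Agent.Helper364_SP

theorem diagS (h : RrRE) : DiagS := by
  intro σ0 Γ0 P p0
  have h1 : REPred (fun p : ℕ × ℕ => Rr σ0 Γ0 P p0 p.1 p.2) := h σ0 Γ0 P p0
  have h2 : Partrec (fun q : Nat.Partrec.Code × ℕ =>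
      Part.assert (Rr σ0 Γ0 P p0 (Encodable.encode q.1) q.2) (fun _ => Part.some ())) :=
    Partrec.comp (f := fun p : ℕ × ℕ => Part.assert (Rr σ0 Γ0 P p0 p.1 p.2) (fun _ => Part.some ()))
      (g := fun q : Nat.Partrec.Code × ℕ => (Encodable.encode q.1, q.2)) h1
      (Computable.pair (Computable.encode.comp Computable.fst) Computable.snd)
  have h3 : Partrec₂ (fun (c : Nat.Partrec.Code) (n : ℕ) =>
      (Part.assert (Rr σ0 Γ0 P p0 (Encodable.encode c) n) (fun _ => Part.some ())).map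
        (fun _ => (0 : ℕ))) :=
    Partrec.map h2 (Computable.const 0).to₂
  obtain ⟨e, he⟩ := Nat.Partrec.Code.fixed_point₂ h3
  refine ⟨Encodable.encode e, fun n => ?_⟩
  have h4 : (∃ s, Hal (Encodable.encode e) s n) ↔ (e.eval n).Dom := by
    constructor
    · rintro ⟨s, hs⟩
      unfold Hal at hs
      rw [Denumerable.ofNat_encode] at hs
      obtain ⟨x, hx⟩ := Option.isSome_iff_exists.1 hs
      exact (Nat.Partrec.Code.evaln_sound hx).1
    · intro hd
      obtain ⟨s, hs⟩ := Nat.Partrec.Code.evaln_complete.1 (Part.get_mem hd)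
      refine ⟨s, ?_⟩
      unfold Hal
      rw [Denumerable.ofNat_encode]
      exact Option.isSome_iff_exists.2 ⟨_, hs⟩
  rw [h4, he]
  simp [Part.assert]

end Pool.Agent.Helper364_SP.DiagM
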