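import Pool.Agent.Helper364_SP.Stmts

/-!
# Numbers smaller than `n`, the Ehrenfeucht-Fraisse lemma
-/

set_option autoImplicit false

namespace Pool.Agent.Helper364_SP.Game

open FirstOrder FirstOrder.Language
open Pool.Agent.TH672 (Fm Str upd Pv LogK)
open Pool.Agent.TH636.BC (Fml inst robinson Arith)
open Pool.Agent.TH838.J1549 (Q)
open Pool.Agent.Helper364_SP

theorem lowS : LowS := by
  intro P S q n hS hn k
  induction k with
  | zero =>
    by_cases h0 : n = 0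
    · subst h0
      exact ⟨fun h => absurd h (hS.ln1 _ hn), fun h => absurd h (by omega)⟩
    · refine ⟨fun _ => by omega, fun _ => ?_⟩
      apply hS.ln3
      · exact (q.zero_iff _).2 rfl
      · intro h
        exact h0 (q.nm_inj (hS.ln0 _ _ h hn)).symm
  | succ k ih =>
    have hs : S.succ (q.nm k) (q.nm (k + 1)) := (q.succ_iff _ _).2 rfl
    by_cases h1 : k + 1 = n
    · subst h1
      exact ⟨fun h => absurd h (hS.ln1 _ hn), fun h => absurd h (by omega)⟩
    · by_cases h2 : k < n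
      · refine ⟨fun _ => by omega, fun _ => ?_⟩
        apply hS.ln2 _ _ hs (ih.2 h2)
        intro h
        exact h1 (q.nm_inj (hS.ln0 _ _ h hn))
      · refine ⟨fun h => absurd h (hS.ln4 _ _ hs fun h3 => h2 (ih.1 h3)), fun h => ?_⟩
        omega

section ext

variable {P : Fml} {S : Str ℕ} {C C' : S.M → Prop}

/-- Enlarging the conditions. -/
theorem enlarge (hS : AxSem P S) (hC : Apx S C) (hC' : Apx S C') (hL : LowAgr S C C')
    {k f : S.M} (hf : Fk S k C C' f) (a : S.M) :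
    ∃ p p', Agr S p C ∧ Agr S p' C' ∧ S.op 14 k p p' f ∧ S.op 19 p a a a ∧
      S.op 19 p' a a a := by
  obtain ⟨p, p', hp, hp', hk⟩ := hf
  obtain ⟨p1, h1, h2, h3⟩ := hS.dm1 p p' a
  obtain ⟨p2, h4, h5⟩ := hC p1
  obtain ⟨p2', h6, h7⟩ := hC' p1
  refine ⟨p2, p2', h5, h7, ?_, hS.cov1 _ _ _ h3 fun r hr => (h4 r).1 hr,
    hS.cov1 _ _ _ h3 fun r hr => (h6 r).1 hr⟩
  apply hS.mt1 _ _ _ _ _ _ hk
  · intro r hr
    have : S.op 11 p2 r r r := (h4 r).1 (h1 r hr)
    exact ⟨this, (hp r hr).trans (h5 r this).symm⟩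
  · intro r hr
    have : S.op 11 p2' r r r := (h6 r).1 (h2 r hr)
    exact ⟨this, (hp' r hr).trans (h7 r this).symm⟩
  · intro r
    exact (h4 r).symm.trans (h6 r)
  · intro r hr hlow
    have h8 : S.op 11 p2' r r r := (h6 r).1 ((h4 r).2 hr)
    exact (h5 r hr).trans ((hL r hlow).trans (h7 r h8).symm)

theorem forth (hS : AxSem P S) (hC : Apx S C) (hC' : Apx S C') (hL : LowAgr S C C')
    {k k' f : S.M} (hs : S.succ k k') (h16 : S.op 16 k' k' k' k') (hf : Fk S k' C C' f)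
    (a : S.M) : ∃ f' y, (∀ a b, S.op 13 f a b b → S.op 13 f' a b b) ∧ Fk S k C C' f' ∧
      S.op 13 f' a y y := by
  obtain ⟨p, p', hp, hp', hk, ha, _⟩ := enlarge hS hC hC' hL hf a
  obtain ⟨f', y, h1, h2, h3⟩ := hS.ef1 k k' p p' f a hs h16 hk ha
  exact ⟨f', y, h1, ⟨p, p', hp, hp', h2⟩, h3⟩

theorem back (hS : AxSem P S) (hC : Apx S C) (hC' : Apx S C') (hL : LowAgr S C C')
    {k k' f : S.M} (hs : S.succ k k') (h16 : S.op 16 k' k' k' k') (hf : Fk S k' C C' f)
    (y : S.M) : ∃ f' x, (∀ a b, S.op 13 f a b b → S.op 13 f' a b b) ∧ Fk S k C C' f' ∧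
      S.op 13 f' x y y := by
  obtain ⟨p, p', hp, hp', hk, _, ha⟩ := enlarge hS hC hC' hL hf y
  obtain ⟨f', x, h1, h2, h3⟩ := hS.ef2 k k' p p' f y hs h16 hk ha
  exact ⟨f', x, h1, ⟨p, p', hp, hp', h2⟩, h3⟩

/-- The colour of corresponding elements. -/
theorem col_iff (hS : AxSem P S) {k f x x' : S.M}
    (hf : Fk S k C C' f) (hx : S.op 13 f x x' x') : Col S C x ↔ Col S C' x' := by
  obtain ⟨p, p', hp, hp', hk⟩ := hf
  constructor
  · rintro ⟨r, m, h9, h10, hz, h⟩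
    have h10' := (hS.lf1 _ _ _ _ _ _ _ hk hx hz).1 h10
    obtain ⟨h9', h11, h11', hh⟩ := hS.lf2 _ _ _ _ _ _ _ _ hk hx hz h10 h9
    rw [hp r h11, hp' r h11'] at hh
    exact ⟨r, m, h9', h10', hz, hh.1 h⟩
  · rintro ⟨r', m, h9, h10, hz, h⟩
    have h10' := (hS.lf1 _ _ _ _ _ _ _ hk hx hz).2 h10
    obtain ⟨r, hr⟩ := hS.ro2 _ _ h10'
    obtain ⟨h9', h11, h11', hh⟩ := hS.lf2 _ _ _ _ _ _ _ _ hk hx hz h10' hr
    have : r = r' := hS.ro1 _ _ _ h9' h9
    subst this
    rw [hp r h11, hp' r h11'] at hh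
    exact ⟨r, m, hr, h10', hz, hh.2 h⟩

end ext

theorem term_rel (S : Str ℕ) (C C' : S.M → Prop) (f : S.M) {α : Type} {l : ℕ}
    (t : LU.Term (α ⊕ Fin l)) (v v' : α → S.M) (xs xs' : Fin l → S.M)
    (hv : ∀ a, S.op 13 f (v a) (v' a) (v' a)) (hx : ∀ i, S.op 13 f (xs i) (xs' i) (xs' i)) :
    S.op 13 f (t.realize (M := MU S C) (Sum.elim v xs)) (t.realize (M := MU S C') (Sum.elim v' xs'))
      (t.realize (M := MU S C') (Sum.elim v' xs')) := by
  cases t with
  | var i =>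
    cases i with
    | inl a => exact hv a
    | inr i => exact hx i
  | func F ts => exact isEmptyElim F

theorem efs : EFS := by
  intro P S q n C C' hS hn hC hC' hL α l φ
  have hlow := lowS P S q n hS hn
  induction φ with
  | falsum =>
    intro k _ _ f _ v v' xs xs' _ _
    exact Iff.rfl
  | equal t₁ t₂ =>
    intro k _ _ f hf v v' xs xs' hv hx
    obtain ⟨p, p', hp, hp', hk⟩ := hf
    exact (hS.at2 _ _ _ _ _ _ _ _ hk (term_rel S C C' f t₁ v v' xs xs' hv hx)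
      (term_rel S C C' f t₂ v v' xs xs' hv hx)).1
  | rel R ts =>
    intro k _ _ f hf v v' xs xs' hv hx
    have hf0 := hf
    obtain ⟨p, p', hp, hp', hk⟩ := hf
    have ht := fun i => term_rel S C C' f (ts i) v v' xs xs' hv hx
    cases R with
    | mem => exact (hS.at2 _ _ _ _ _ _ _ _ hk (ht 0) (ht 1)).2.1
    | ch => exact (hS.at2 _ _ _ _ _ _ _ _ hk (ht 0) (ht 1)).2.2.1
    | col => exact col_iff hS hf0 (ht 0)
    | rt => exact hS.at4 _ _ _ _ _ _ _ _ _ _ _ _ hk (ht 0) (ht 1) (ht 2) (ht 3)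
    | zero => exact (hS.at2 _ _ _ _ _ _ _ _ hk (ht 0) (ht 0)).2.2.2.2
    | succ => exact (hS.at2 _ _ _ _ _ _ _ _ hk (ht 0) (ht 1)).2.2.2.1
    | add => exact (hS.at3 _ _ _ _ _ _ _ _ _ _ hk (ht 0) (ht 1) (ht 2)).1
    | mul => exact (hS.at3 _ _ _ _ _ _ _ _ _ _ hk (ht 0) (ht 1) (ht 2)).2
  | imp φ ψ ih1 ih2 =>
    intro k hk hkn f hf v v' xs xs' hv hx
    have h1 : qr φ ≤ k := le_trans (le_max_left _ _) hk
    have h2 : qr ψ ≤ k := le_trans (le_max_right _ _) hk
    have e1 := ih1 k h1 hkn f hf v v' xs xs' hv hx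
    have e2 := ih2 k h2 hkn f hf v v' xs xs' hv hx
    exact imp_congr e1 e2
  | @all l φ ih =>
    intro k hk hkn f hf v v' xs xs' hv hx
    have hk' : qr φ + 1 ≤ k := hk
    obtain ⟨k, rfl⟩ : ∃ m, k = m + 1 := ⟨k - 1, by omega⟩
    have hs : S.succ (q.nm k) (q.nm (k + 1)) := (q.succ_iff _ _).2 rfl
    have h16 := (hlow (k + 1)).2 hkn
    change (∀ a : S.M, φ.Realize (M := MU S C) v (Fin.snoc (α := fun _ => MU S C) xs a)) ↔
      (∀ y : S.M, φ.Realize (M := MU S C') v' (Fin.snoc (α := fun _ => MU S C') xs' y))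
    have key : ∀ (f' : S.M) (a y : S.M), (∀ a b, S.op 13 f a b b → S.op 13 f' a b b) →
        Fk S (q.nm k) C C' f' → S.op 13 f' a y y →
        (φ.Realize (M := MU S C) v (Fin.snoc (α := fun _ => MU S C) xs a) ↔
          φ.Realize (M := MU S C') v' (Fin.snoc (α := fun _ => MU S C') xs' y)) := by
      intro f' a y h1 h2 h3
      apply ih k (by omega) (by omega) f' h2 v v' (Fin.snoc (α := fun _ => S.M) xs a)
        (Fin.snoc (α := fun _ => S.M) xs' y) (fun a => h1 _ _ (hv a))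
      intro i
      induction i using Fin.lastCases with
      | last =>
        rw [Fin.snoc_last, Fin.snoc_last]
        exact h3
      | cast j =>
        rw [Fin.snoc_castSucc, Fin.snoc_castSucc]
        exact h1 _ _ (hx j)
    constructor
    · intro h y
      obtain ⟨f', a, h1, h2, h3⟩ := back hS hC hC' hL hs h16 hf y
      exact (key f' a y h1 h2 h3).1 (h a)
    · intro h a
      obtain ⟨f', y, h1, h2, h3⟩ := forth hS hC hC' hL hs h16 hf a
      exact (key f' a y h1 h2 h3).2 (h y)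

end Pool.Agent.Helper364_SP.Game
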