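import Pool.Agent.Helper364_SP.Stmts

/-!
# The standard structure is a nice structure
-/

set_option autoImplicit false

namespace Pool.Agent.Helper364_SP.StdMain

open FirstOrder FirstOrder.Language
open Pool.Agent.TH672 (Fm Str upd Pv LogK)
open Pool.Agent.TH636.BC (Fml inst robinson Arith)
open Pool.Agent.TH838.J1549 (Q)
open Pool.Agent.Helper364_SP

section

variable (n c : ℕ) (X : ℕ → Ob → Ob → Ob → Ob → Prop)

theorem ty_iff {b b' : Prop} (h : b ↔ b') (p : List (ℕ × Bool)) : ty b p ↔ ty b' p := by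
  rw [propext h]

theorem sc_num {k : Ob} {m : ℕ} (h : Ob.num m = k.sc) : ∃ l, k = Ob.num l ∧ m = l + 1 := by
  cases k with
  | num l => exact ⟨l, rfl, by simpa [Ob.sc] using h⟩
  | node a => simp [Ob.sc] at h
  | nil => simp [Ob.sc] at h
  | cons x y => simp [Ob.sc] at h
  | rho X V => simp [Ob.sc] at h
  | pi s => simp [Ob.sc] at h

theorem rt4 (r i j d : Ob) (h : stdOp n c X 3 r i j d) :
    stdOp n c X 9 r r r r ∧ stdOp n c X 10 r i i i ∧ stdOp n c X 8 r r r r ∧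
      ¬ stdOp n c X 7 r r r r := by
  simp only [stdOp] at *
  obtain ⟨i, j, d, rfl, rfl, rfl, rfl⟩ := h
  refine ⟨⟨i, j, d, [], rfl, rfl⟩, ⟨i, j, d, [], rfl, rfl⟩, ⟨i, j, d, [], rfl, trivial⟩, ?_⟩
  rintro ⟨k, j', d', p, h, h'⟩
  injection h with h
  injection h with h1 h
  injection h with h2 h
  injection h with h3 h
  subst h
  exact h'

theorem ch1 (v r k' z : Ob) (h1 : stdOp n c X 9 v r r r) (h2 : stdOp n c X 10 v k' k' k')
    (h3 : stdOp n c X 2 v z z z) :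
    stdOp n c X 9 z r r r ∧ ∃ k : Ob, k' = k.sc ∧ stdOp n c X 10 z k k k := by
  simp only [stdOp] at *
  obtain ⟨k, j, d, a, p, rfl, rfl⟩ := h3
  obtain ⟨k1, j1, d1, p1, e1, rfl⟩ := h1
  obtain ⟨k2, j2, d2, p2, e2, rfl⟩ := h2
  simp only [Ob.node.injEq, Prod.mk.injEq] at e1 e2
  obtain ⟨rfl, rfl, rfl, rfl⟩ := e1
  obtain ⟨rfl, -, -, -⟩ := e2
  refine ⟨⟨k, j, d, a :: p, rfl, ?_⟩, ⟨Ob.num k, rfl, ⟨k, j, d, a :: p, rfl, rfl⟩⟩⟩
  simp only [List.length_cons, Ob.node.injEq, Prod.mk.injEq, and_true]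
  omega

theorem ch2 (v r k k' : Ob) (h1 : stdOp n c X 9 v r r r) (h2 : stdOp n c X 10 v k' k' k')
    (h3 : k' = k.sc) :
    (stdOp n c X 8 v v v v ↔ ∃ z : Ob, stdOp n c X 2 v z z z ∧ ¬ stdOp n c X 8 z z z z) ∧
    (stdOp n c X 7 v v v v ↔ ∃ z : Ob, stdOp n c X 2 v z z z ∧ ¬ stdOp n c X 7 z z z z) := by
  simp only [stdOp] at *
  obtain ⟨k2, j, d, p, rfl, rfl⟩ := h2
  obtain ⟨m, rfl, rfl⟩ := sc_num h3
  have key : ∀ b : Prop, (∃ k j' d' p', Ob.node (m + 1, j, d, p) = Ob.node (k, j', d', p') ∧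
      ty b p') ↔ ∃ z : Ob, (∃ k j' d' a p', Ob.node (m + 1, j, d, p) = Ob.node (k + 1, j', d', p') ∧
      z = Ob.node (k, j', d', a :: p')) ∧ ¬ ∃ k j' d' p', z = Ob.node (k, j', d', p') ∧
        ty b p' := by
    intro b
    constructor
    · rintro ⟨k, j', d', p', h, h'⟩
      simp only [Ob.node.injEq, Prod.mk.injEq] at h
      obtain ⟨rfl, rfl, rfl, rfl⟩ := h
      refine ⟨Ob.node (m, j, d, (0, false) :: p), ⟨m, j, d, (0, false), p, rfl, rfl⟩, ?_⟩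
      rintro ⟨k, j', d', p', h, h''⟩
      simp only [Ob.node.injEq, Prod.mk.injEq] at h
      obtain ⟨rfl, rfl, rfl, rfl⟩ := h
      simp only [ty, Bool.false_eq_true, false_or] at h''
      exact h'' h'
    · rintro ⟨z, ⟨k, j', d', a, p', h, rfl⟩, h'⟩
      simp only [Ob.node.injEq, Prod.mk.injEq] at h
      obtain ⟨h, rfl, rfl, rfl⟩ := h
      refine ⟨m + 1, j, d, p, rfl, ?_⟩
      by_contra hc
      exact h' ⟨k, j, d, a :: p, rfl, Or.inr hc⟩
  exact ⟨key True, key False⟩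

theorem pt (v : Ob) : stdOp n c X 4 v v v v ↔ ∃ r k : Ob, stdOp n c X 9 v r r r ∧
    stdOp n c X 10 v k k k ∧ k = Ob.num 0 ∧ ((stdOp n c X 6 r r r r ∧ stdOp n c X 8 v v v v) ∨
      (¬ stdOp n c X 6 r r r r ∧ stdOp n c X 7 v v v v)) := by
  simp only [stdOp]
  constructor
  · rintro ⟨j, d, p, rfl, h⟩
    refine ⟨Ob.node (0 + p.length, j, d, []), Ob.num 0, ⟨0, j, d, p, rfl, rfl⟩,
      ⟨0, j, d, p, rfl, rfl⟩, rfl, ?_⟩
    by_cases hn : p.length < n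
    · left
      refine ⟨⟨_, _, _, rfl, by omega⟩, ⟨0, j, d, p, rfl, ?_⟩⟩
      exact (ty_iff (iff_true_intro hn) p).1 h
    · right
      refine ⟨?_, ⟨0, j, d, p, rfl, ?_⟩⟩
      · rintro ⟨i, j', d', he, hi⟩
        simp only [Ob.node.injEq, Prod.mk.injEq] at he
        omega
      · exact (ty_iff (iff_false_intro hn) p).1 h
  · rintro ⟨r, k, ⟨k1, j, d, p, rfl, rfl⟩, ⟨k2, j2, d2, p2, h2, rfl⟩, hk, h⟩
    simp only [Ob.node.injEq, Prod.mk.injEq, Ob.num.injEq] at h2 hk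
    obtain ⟨rfl, rfl, rfl, rfl⟩ := h2
    subst hk
    refine ⟨j, d, p, rfl, ?_⟩
    rcases h with ⟨⟨i, j', d', he, hi⟩, ⟨k3, j3, d3, p3, h3, h4⟩⟩ | ⟨hn, ⟨k3, j3, d3, p3, h3, h4⟩⟩
    · simp only [Ob.node.injEq, Prod.mk.injEq] at he h3
      obtain ⟨rfl, rfl, rfl, rfl⟩ := h3
      refine (ty_iff (iff_true_intro ?_) p).2 h4
      omega
    · simp only [Ob.node.injEq, Prod.mk.injEq] at h3
      obtain ⟨rfl, rfl, rfl, rfl⟩ := h3
      refine (ty_iff (iff_false_intro ?_) p).2 h4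
      intro hlt
      exact hn ⟨_, _, _, rfl, by omega⟩

end

/-! ### coverings -/

theorem cov_mono {Y Y' : Finset Rc} (h : Y ⊆ Y') : ∀ x : Ob, Ob.cov Y x → Ob.cov Y' x
  | .node (_, _, _, _), hx => h hx
  | .cons x y, hx => ⟨cov_mono h x hx.1, cov_mono h y hx.2⟩
  | .num _, _ => trivial
  | .nil, _ => trivial
  | .rho _ _, _ => trivial
  | .pi _, _ => trivial

theorem exists_cov : ∀ x : Ob, ∃ Y : Finset Rc, Ob.cov Y x
  | .node (k, j, d, p) => ⟨{(k + p.length, j, d)}, Finset.mem_singleton_self _⟩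
  | .cons x y => by
    classical
    obtain ⟨Y, hY⟩ := exists_cov x
    obtain ⟨Y', hY'⟩ := exists_cov y
    exact ⟨Y ∪ Y', cov_mono Finset.subset_union_left x hY, cov_mono Finset.subset_union_right y hY'⟩
  | .num _ => ⟨∅, trivial⟩
  | .nil => ⟨∅, trivial⟩
  | .rho _ _ => ⟨∅, trivial⟩
  | .pi _ => ⟨∅, trivial⟩

/-- the nodes that occur in an object -/
def nodes : Ob → List Nd
  | .node a => [a]
  | .cons x y => nodes x ++ nodes y
  | _ => []

theorem nodes_cov {Y : Finset Rc} : ∀ x : Ob, Ob.cov Y x → ∀ a ∈ nodes x, rtc a ∈ Y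
  | .node (k, j, d, p), hx, a, ha => by
    rw [List.mem_singleton.1 ha]; exact hx
  | .cons x y, hx, a, ha => by
    rcases List.mem_append.1 ha with h | h
    · exact nodes_cov x hx.1 a h
    · exact nodes_cov y hx.2 a h
  | .num _, _, a, ha => absurd ha (by simp [nodes])
  | .nil, _, a, ha => absurd ha (by simp [nodes])
  | .rho _ _, _, a, ha => absurd ha (by simp [nodes])
  | .pi _, _, a, ha => absurd ha (by simp [nodes])

theorem exists_app {s : Finset (Nd × Nd)} : ∀ x : Ob, (∀ a ∈ nodes x, ∃ b, (a, b) ∈ s) →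
    ∃ y, Ob.app s x y
  | .node a, h => by
    obtain ⟨b, hb⟩ := h a (List.mem_singleton_self a)
    exact ⟨.node b, b, rfl, hb⟩
  | .cons x y, h => by
    obtain ⟨x', hx⟩ := exists_app x fun a ha => h a (List.mem_append.2 (Or.inl ha))
    obtain ⟨y', hy⟩ := exists_app y fun a ha => h a (List.mem_append.2 (Or.inr ha))
    exact ⟨.cons x' y', x', y', rfl, hx, hy⟩
  | .num m, _ => ⟨.num m, rfl⟩
  | .nil, _ => ⟨.nil, rfl⟩
  | .rho U V, _ => ⟨.rho U V, rfl⟩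
  | .pi s, _ => ⟨.pi s, rfl⟩

theorem app_mono {s s' : Finset (Nd × Nd)} (h : s ⊆ s') : ∀ x y : Ob, Ob.app s x y → Ob.app s' x y
  | .node _, _, ⟨b, hb, hb'⟩ => ⟨b, hb, h hb'⟩
  | .cons x y, _, ⟨z, z', e, h1, h2⟩ => ⟨z, z', e, app_mono h x z h1, app_mono h y z' h2⟩
  | .num _, _, e => e
  | .nil, _, e => e
  | .rho _ _, _, e => e
  | .pi _, _, e => e

theorem app_inv {s s' : Finset (Nd × Nd)} (h : ∀ a b, (a, b) ∈ s → (b, a) ∈ s') :
    ∀ x y : Ob, Ob.app s x y → Ob.app s' y x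
  | .node a, _, ⟨b, hb, hb'⟩ => by subst hb; exact ⟨a, rfl, h _ _ hb'⟩
  | .cons x y, _, ⟨z, z', e, h1, h2⟩ => by
    subst e
    exact ⟨x, y, rfl, app_inv h x z h1, app_inv h y z' h2⟩
  | .num _, _, e => by cases e; rfl
  | .nil, _, e => by cases e; rfl
  | .rho _ _, _, e => by cases e; rfl
  | .pi _, _, e => by cases e; rfl

section

variable {s : Finset (Nd × Nd)} (hs : ∀ x ∈ s, ∀ y ∈ s, (x.1 = y.1 ↔ x.2 = y.2))
include hs

theorem app_fun : ∀ x y y' : Ob, Ob.app s x y → Ob.app s x y' → y = y'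
  | .node a, _, _, ⟨b, hb, hb'⟩, ⟨b2, hb2, hb2'⟩ => by
    subst hb; subst hb2
    have := (hs _ hb' _ hb2').1 rfl
    simp only at this
    rw [this]
  | .cons x y, _, _, ⟨z, z', e, h1, h2⟩, ⟨w, w', e', g1, g2⟩ => by
    subst e; subst e'
    rw [app_fun x z w h1 g1, app_fun y z' w' h2 g2]
  | .num _, _, _, e, e' => by cases e; cases e'; rfl
  | .nil, _, _, e, e' => by cases e; cases e'; rfl
  | .rho _ _, _, _, e, e' => by cases e; cases e'; rfl
  | .pi _, _, _, e, e' => by cases e; cases e'; rfl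

theorem app_inj {x x' y : Ob} (h : Ob.app s x y) (h' : Ob.app s x' y) : x = x' := by
  classical
  have hs' : ∀ a b, (a, b) ∈ s → (b, a) ∈ s.image Prod.swap := fun a b hab =>
    Finset.mem_image.2 ⟨(a, b), hab, rfl⟩
  refine app_fun (s := s.image Prod.swap) ?_ y x x' (app_inv hs' x y h) (app_inv hs' x' y h')
  intro u hu v hv
  obtain ⟨u', hu', rfl⟩ := Finset.mem_image.1 hu
  obtain ⟨v', hv', rfl⟩ := Finset.mem_image.1 hv
  exact (hs u' hu' v' hv').symm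

theorem app_eq {x y x' y' : Ob} (hx : Ob.app s x x') (hy : Ob.app s y y') : x = y ↔ x' = y' := by
  constructor
  · rintro rfl; exact app_fun hs x x' y' hx hy
  · rintro rfl; exact app_inj hs hx hy

theorem app_mem {x x' : Ob} (hx : Ob.app s x x') : ∀ y y' : Ob, Ob.app s y y' →
    (Ob.mem x y ↔ Ob.mem x' y')
  | .node _, _, ⟨b, hb, hb'⟩ => by subst hb; exact Iff.rfl
  | .cons u v, _, ⟨z, z', e, h1, h2⟩ => by
    subst e
    exact or_congr (app_eq hs hx h1) (app_mem hx v z' h2)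
  | .num _, _, e => by cases e; exact Iff.rfl
  | .nil, _, e => by cases e; exact Iff.rfl
  | .rho _ _, _, e => by cases e; exact Iff.rfl
  | .pi _, _, e => by cases e; exact Iff.rfl

end

theorem app_sc {s : Finset (Nd × Nd)} : ∀ x x' : Ob, Ob.app s x x' → Ob.app s x.sc x'.sc
  | .node a, _, ⟨b, hb, hb'⟩ => by subst hb; exact ⟨b, rfl, hb'⟩
  | .cons u v, _, ⟨z, z', e, h1, h2⟩ => by subst e; exact ⟨z, z', rfl, h1, h2⟩
  | .num _, _, e => by cases e; rfl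
  | .nil, _, e => by cases e; rfl
  | .rho _ _, _, e => by cases e; rfl
  | .pi _, _, e => by cases e; rfl

theorem app_sc_iter {s : Finset (Nd × Nd)} {x x' : Ob} (h : Ob.app s x x') (m : ℕ) :
    Ob.app s (Ob.sc^[m] x) (Ob.sc^[m] x') := by
  induction m with
  | zero => exact h
  | succ m ih =>
    rw [Function.iterate_succ_apply', Function.iterate_succ_apply']
    exact app_sc _ _ ih

theorem app_ad {s : Finset (Nd × Nd)} {x x' : Ob} (hx : Ob.app s x x') :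
    ∀ y y' : Ob, Ob.app s y y' → Ob.app s (x.ad y) (x'.ad y')
  | .node a, _, ⟨b, hb, hb'⟩ => by subst hb; exact ⟨b, rfl, hb'⟩
  | .cons u v, _, ⟨z, z', e, h1, h2⟩ => by subst e; exact ⟨z, z', rfl, h1, h2⟩
  | .num m, _, e => by cases e; exact app_sc_iter hx m
  | .nil, _, e => by cases e; rfl
  | .rho _ _, _, e => by cases e; rfl
  | .pi _, _, e => by cases e; rfl

theorem app_mlN {s : Finset (Nd × Nd)} {x x' : Ob} (hx : Ob.app s x x') (m : ℕ) :
    Ob.app s (x.mlN m) (x'.mlN m) := by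
  induction m with
  | zero => rfl
  | succ m ih => exact app_ad ih x x' hx

/-- a multiplication by an object that is not a number -/
def mlo (x y : Ob) : Ob :=
  match x with
  | .num _ => y
  | _ => x

theorem app_mlo {s : Finset (Nd × Nd)} {y y' : Ob} (hy : Ob.app s y y') :
    ∀ x x' : Ob, Ob.app s x x' → Ob.app s (mlo x y) (mlo x' y')
  | .node a, _, ⟨b, hb, hb'⟩ => by subst hb; exact ⟨b, rfl, hb'⟩
  | .cons u v, _, ⟨z, z', e, h1, h2⟩ => by subst e; exact ⟨z, z', rfl, h1, h2⟩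
  | .num m, _, e => by cases e; exact hy
  | .nil, _, e => by cases e; rfl
  | .rho _ _, _, e => by cases e; rfl
  | .pi _, _, e => by cases e; rfl

theorem app_ml {s : Finset (Nd × Nd)} {x x' : Ob} (hx : Ob.app s x x') :
    ∀ y y' : Ob, Ob.app s y y' → Ob.app s (x.ml y) (x'.ml y')
  | .node a, _, ⟨b, hb, hb'⟩ => by
    subst hb
    exact app_mlo (y := .node a) (y' := .node b) ⟨b, rfl, hb'⟩ x x' hx
  | .cons u v, _, ⟨z, z', e, h1, h2⟩ => by
    subst e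
    exact app_mlo (y := .cons u v) (y' := .cons z z') ⟨z, z', rfl, h1, h2⟩ x x' hx
  | .num m, _, e => by cases e; exact app_mlN hx m
  | .nil, _, e => by cases e; exact app_mlo (y := .nil) (y' := .nil) rfl x x' hx
  | .rho U V, _, e => by cases e; exact app_mlo (y := .rho U V) (y' := .rho U V) rfl x x' hx
  | .pi t, _, e => by cases e; exact app_mlo (y := .pi t) (y' := .pi t) rfl x x' hx

theorem app_num {s : Finset (Nd × Nd)} {m : ℕ} : ∀ x x' : Ob, Ob.app s x x' →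
    (x = .num m ↔ x' = .num m)
  | .node a, _, ⟨b, hb, hb'⟩ => by subst hb; simp
  | .cons u v, _, ⟨z, z', e, h1, h2⟩ => by subst e; simp
  | .num m, _, e => by cases e; exact Iff.rfl
  | .nil, _, e => by cases e; exact Iff.rfl
  | .rho _ _, _, e => by cases e; exact Iff.rfl
  | .pi _, _, e => by cases e; exact Iff.rfl

theorem app_node {s : Finset (Nd × Nd)} {b : Nd} : ∀ x : Ob, Ob.app s x (.node b) →
    ∃ a, x = .node a ∧ (a, b) ∈ s
  | .node a, ⟨b', hb, hb'⟩ => by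
    cases hb; exact ⟨a, rfl, hb'⟩
  | .cons u v, ⟨z, z', e, h1, h2⟩ => by cases e
  | .num m, e => by cases e
  | .nil, e => by cases e
  | .rho _ _, e => by cases e
  | .pi _, e => by cases e

theorem nd_eq_of_root {a : Nd} {i j d : ℕ} (h1 : rtc a = (i, j, d)) (h2 : a.1 = i) :
    a = (i, j, d, []) := by
  obtain ⟨k, j', d', p⟩ := a
  simp only [rtc, Prod.mk.injEq] at h1 h2
  obtain ⟨h3, h4, h5⟩ := h1
  have : p.length = 0 := by omega
  rw [List.length_eq_zero_iff.1 this, h2, h4, h5]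

theorem sym_app {s t e e' : Finset (Nd × Nd)}
    (h : ∀ x x1 x2, (x, x1) ∈ s → (x, x2) ∈ t →
      ∃ y, (x1, y) ∈ e ∧ (y, x1) ∈ e ∧ (y, x2) ∈ e' ∧ (x2, y) ∈ e') :
    ∀ x x1 x2 : Ob, Ob.app s x x1 → Ob.app t x x2 →
      ∃ y, Ob.app e x1 y ∧ Ob.app e y x1 ∧ Ob.app e' y x2 ∧ Ob.app e' x2 y
  | .node a, _, _, ⟨b, hb, hb'⟩, ⟨b2, hb2, hb2'⟩ => by
    subst hb; subst hb2
    obtain ⟨y, h1, h2, h3, h4⟩ := h a b b2 hb' hb2'
    exact ⟨.node y, ⟨y, rfl, h1⟩, ⟨b, rfl, h2⟩, ⟨b2, rfl, h3⟩, ⟨y, rfl, h4⟩⟩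
  | .cons x y, _, _, ⟨z, z', e, h1, h2⟩, ⟨w, w', e', g1, g2⟩ => by
    subst e; subst e'
    obtain ⟨u, a1, a2, a3, a4⟩ := sym_app h x z w h1 g1
    obtain ⟨u', b1, b2, b3, b4⟩ := sym_app h y z' w' h2 g2
    exact ⟨.cons u u', ⟨u, u', rfl, a1, b1⟩, ⟨z, z', rfl, a2, b2⟩, ⟨w, w', rfl, a3, b3⟩,
      ⟨u, u', rfl, a4, b4⟩⟩
  | .num m, _, _, e, e' => by cases e; cases e'; exact ⟨.num m, rfl, rfl, rfl, rfl⟩
  | .nil, _, _, e, e' => by cases e; cases e'; exact ⟨.nil, rfl, rfl, rfl, rfl⟩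
  | .rho U V, _, _, e, e' => by cases e; cases e'; exact ⟨.rho U V, rfl, rfl, rfl, rfl⟩
  | .pi t, _, _, e, e' => by cases e; cases e'; exact ⟨.pi t, rfl, rfl, rfl, rfl⟩

theorem fix_app {s t e e' : Finset (Nd × Nd)}
    (h : ∀ u u', (u, u') ∈ s → (u, u') ∈ t → (u', u') ∈ e ∧ (u', u') ∈ e') :
    ∀ u u' : Ob, Ob.app s u u' → Ob.app t u u' → Ob.app e u' u' ∧ Ob.app e' u' u'
  | .node a, _, ⟨b, hb, hb'⟩, ⟨b2, hb2, hb2'⟩ => by
    subst hb
    cases hb2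
    obtain ⟨h1, h2⟩ := h a b hb' hb2'
    exact ⟨⟨b, rfl, h1⟩, ⟨b, rfl, h2⟩⟩
  | .cons x y, _, ⟨z, z', e, h1, h2⟩, ⟨w, w', e', g1, g2⟩ => by
    subst e
    cases e'
    obtain ⟨a1, a2⟩ := fix_app h x z h1 g1
    obtain ⟨b1, b2⟩ := fix_app h y z' h2 g2
    exact ⟨⟨z, z', rfl, a1, b1⟩, ⟨z, z', rfl, a2, b2⟩⟩
  | .num m, _, e, e' => by cases e; exact ⟨rfl, rfl⟩
  | .nil, _, e, e' => by cases e; exact ⟨rfl, rfl⟩
  | .rho U V, _, e, e' => by cases e; exact ⟨rfl, rfl⟩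
  | .pi t, _, e, e' => by cases e; exact ⟨rfl, rfl⟩

/-! ### conditions -/

section

variable (n c : ℕ) (X : ℕ → Ob → Ob → Ob → Ob → Prop)

theorem dom_iff {p q : Ob} (h : ∀ r : Ob, stdOp n c X 11 p r r r ↔ stdOp n c X 11 q r r r) :
    p.dm = q.dm := by
  ext ⟨i, j, d⟩
  have := h (.node (i, j, d, []))
  simp only [stdOp] at this
  constructor
  · intro hm
    obtain ⟨i', j', d', he, hm'⟩ := this.1 ⟨i, j, d, rfl, hm⟩
    simp only [Ob.node.injEq, Prod.mk.injEq] at he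
    obtain ⟨rfl, rfl, rfl, -⟩ := he
    exact hm'
  · intro hm
    obtain ⟨i', j', d', he, hm'⟩ := this.2 ⟨i, j, d, rfl, hm⟩
    simp only [Ob.node.injEq, Prod.mk.injEq] at he
    obtain ⟨rfl, rfl, rfl, -⟩ := he
    exact hm'

theorem op11 {p : Ob} {i j d : ℕ} :
    stdOp n c X 11 p (.node (i, j, d, [])) (.node (i, j, d, [])) (.node (i, j, d, [])) ↔
      (i, j, d) ∈ p.dm := by
  simp only [stdOp]
  constructor
  · rintro ⟨i', j', d', he, hm'⟩
    simp only [Ob.node.injEq, Prod.mk.injEq] at he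
    obtain ⟨rfl, rfl, rfl, -⟩ := he
    exact hm'
  · intro hm
    exact ⟨i, j, d, rfl, hm⟩

theorem op12 {p : Ob} {i j d : ℕ} :
    stdOp n c X 12 p (.node (i, j, d, [])) (.node (i, j, d, [])) (.node (i, j, d, [])) ↔
      (i, j, d) ∈ p.vl := by
  simp only [stdOp]
  constructor
  · rintro ⟨i', j', d', he, hm'⟩
    simp only [Ob.node.injEq, Prod.mk.injEq] at he
    obtain ⟨rfl, rfl, rfl, -⟩ := he
    exact hm'
  · intro hm
    exact ⟨i, j, d, rfl, hm⟩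

theorem op20 {i j d : ℕ} :
    stdOp n c X 20 (.node (i, j, d, [])) (.node (i, j, d, [])) (.node (i, j, d, []))
      (.node (i, j, d, [])) ↔ i < n := by
  simp only [stdOp]
  constructor
  · rintro ⟨i', j', d', he, hm'⟩
    simp only [Ob.node.injEq, Prod.mk.injEq] at he
    obtain ⟨rfl, rfl, rfl, -⟩ := he
    exact hm'
  · intro hm
    exact ⟨i, j, d, rfl, hm⟩

theorem low_iff {p q : Ob} (h : ∀ r : Ob, stdOp n c X 11 p r r r → stdOp n c X 20 r r r r →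
    (stdOp n c X 12 p r r r ↔ stdOp n c X 12 q r r r)) :
    ∀ r ∈ p.dm, r.1 < n → (r ∈ p.vl ↔ r ∈ q.vl) := by
  rintro ⟨i, j, d⟩ hr hn
  have := h (.node (i, j, d, [])) ((op11 n c X).2 hr) ((op20 n c X).2 hn)
  rw [op12, op12] at this
  exact this

theorem dm1 (p q x : Ob) : ∃ p' : Ob, (∀ r : Ob, stdOp n c X 11 p r r r →
    stdOp n c X 11 p' r r r) ∧ (∀ r : Ob, stdOp n c X 11 q r r r → stdOp n c X 11 p' r r r) ∧
    stdOp n c X 19 p' x x x := by
  classical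
  obtain ⟨Y, hY⟩ := exists_cov x
  refine ⟨.rho (p.dm ∪ q.dm ∪ Y) ∅, ?_, ?_, ?_⟩
  · rintro _ ⟨i, j, d, rfl, hr⟩
    exact ⟨i, j, d, rfl, Finset.mem_union_left _ (Finset.mem_union_left _ hr)⟩
  · rintro _ ⟨i, j, d, rfl, hr⟩
    exact ⟨i, j, d, rfl, Finset.mem_union_left _ (Finset.mem_union_right _ hr)⟩
  · exact cov_mono Finset.subset_union_right x hY

theorem dm2 (p : Ob) : ∃ p' : Ob, (∀ r : Ob, stdOp n c X 11 p r r r ↔ stdOp n c X 11 p' r r r) ∧
    ∀ r : Ob, stdOp n c X 11 p' r r r → (stdOp n c X 12 p' r r r ↔ stdOp n c X 6 r r r r) := by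
  refine ⟨.rho p.dm {r | r.1 < n}, fun r => Iff.rfl, ?_⟩
  rintro _ ⟨i, j, d, rfl, hr⟩
  rw [op12]
  exact (op20 n c X).symm

theorem dm3 (p r' : Ob) : ∃ p' : Ob, (∀ r : Ob, stdOp n c X 11 p r r r ↔
    stdOp n c X 11 p' r r r) ∧ ∀ r : Ob, stdOp n c X 11 p' r r r →
    (stdOp n c X 12 p' r r r ↔ (stdOp n c X 12 p r r r ∨ r = r')) := by
  refine ⟨.rho p.dm (p.vl ∪ {r | Ob.node (r.1, r.2.1, r.2.2, []) = r'}), fun r => Iff.rfl, ?_⟩
  rintro _ ⟨i, j, d, rfl, hr⟩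
  rw [op12, op12]
  exact Iff.rfl

theorem dm4 (p : Ob) : ∃ d : Ob, stdOp n c X 5 d d d d ∧
    ∀ r i j : Ob, stdOp n c X 3 r i j d → ¬ stdOp n c X 11 p r r r := by
  refine ⟨.num ((p.dm.sup fun r => r.2.2) + 1), ⟨_, rfl⟩, ?_⟩
  rintro r i j ⟨i', j', d', rfl, rfl, rfl, hd⟩ h
  rw [op11] at h
  have h1 : d' ≤ p.dm.sup fun r => r.2.2 := Finset.le_sup (f := fun r : Rc => r.2.2) h
  have h2 := Ob.num.inj hd
  omega

theorem mt1 (k p q f p' q' : Ob) (h : stdOp n c X 14 k p q f)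
    (h1 : ∀ r : Ob, stdOp n c X 11 p r r r → stdOp n c X 11 p' r r r ∧
      (stdOp n c X 12 p r r r ↔ stdOp n c X 12 p' r r r))
    (h2 : ∀ r : Ob, stdOp n c X 11 q r r r → stdOp n c X 11 q' r r r ∧
      (stdOp n c X 12 q r r r ↔ stdOp n c X 12 q' r r r))
    (h3 : ∀ r : Ob, stdOp n c X 11 p' r r r ↔ stdOp n c X 11 q' r r r)
    (h4 : ∀ r : Ob, stdOp n c X 11 p' r r r → stdOp n c X 20 r r r r →
      (stdOp n c X 12 p' r r r ↔ stdOp n c X 12 q' r r r)) :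
    stdOp n c X 14 k p' q' f := by
  obtain ⟨m, rfl, hM⟩ := h
  refine ⟨m, rfl, dom_iff n c X h3, low_iff n c X h4, hM.inj, ?_, hM.par, hM.fix, ?_⟩
  · intro x hx
    obtain ⟨g1, g2, g3⟩ := hM.root x hx
    refine ⟨g1, ?_, g3⟩
    have := (h1 (.node ((rtc x.1).1, (rtc x.1).2.1, (rtc x.1).2.2, [])) ((op11 n c X).2 g2)).1
    exact (op11 n c X).1 this
  · intro x hx hk
    obtain ⟨g1, g2, g3⟩ := hM.root x hx
    have e1 := (h1 (.node ((rtc x.1).1, (rtc x.1).2.1, (rtc x.1).2.2, [])) ((op11 n c X).2 g2)).2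
    rw [op12, op12] at e1
    have g2' : rtc x.2 ∈ q.dm := by rw [← g1, ← hM.dom]; exact g2
    have e2 := (h2 (.node ((rtc x.2).1, (rtc x.2).2.1, (rtc x.2).2.2, []))
      ((op11 n c X).2 g2')).2
    rw [op12, op12] at e2
    have e3 := hM.type x hx hk
    rw [← ty_iff e1, ← ty_iff e2]
    exact e3

theorem mt2 (k p q : Ob) (hk : stdOp n c X 16 k k k k)
    (h1 : ∀ r : Ob, stdOp n c X 11 p r r r ↔ stdOp n c X 11 q r r r)
    (h2 : ∀ r : Ob, stdOp n c X 11 p r r r → stdOp n c X 20 r r r r →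
      (stdOp n c X 12 p r r r ↔ stdOp n c X 12 q r r r)) :
    ∃ f : Ob, stdOp n c X 14 k p q f := by
  obtain ⟨m, rfl, -⟩ := hk
  refine ⟨.pi ∅, m, rfl, dom_iff n c X h1, low_iff n c X h2, ?_, ?_, ?_, ?_, ?_⟩
  · intro x hx; exact absurd hx (Finset.notMem_empty _)
  · intro x hx; exact absurd hx (Finset.notMem_empty _)
  · intro k j d a p b hx; exact absurd hx (Finset.notMem_empty _)
  · intro x hx; exact absurd hx (Finset.notMem_empty _)
  · intro x hx; exact absurd hx (Finset.notMem_empty _)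

theorem qual {k k' p q f : Ob} (h1 : k' = k.sc) (h2 : stdOp n c X 16 k' k' k' k')
    (h3 : stdOp n c X 14 k' p q f) : ∃ m, k = .num m ∧ m + 1 < n ∧
      Mat n (m + 1) p.dm q.dm p.vl q.vl f.pr := by
  obtain ⟨m', rfl, hm'⟩ := h2
  obtain ⟨m, rfl, rfl⟩ := sc_num h1
  obtain ⟨m2, e, hM⟩ := h3
  cases e
  exact ⟨m, rfl, hm', hM⟩

theorem ef1 (hE : MatExt) (k k' p q f x : Ob) (h1 : k' = k.sc) (h2 : stdOp n c X 16 k' k' k' k')
    (h3 : stdOp n c X 14 k' p q f) (h4 : stdOp n c X 19 p x x x) :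
    ∃ f' y : Ob, (∀ a b : Ob, stdOp n c X 13 f a b b → stdOp n c X 13 f' a b b) ∧
      stdOp n c X 14 k p q f' ∧ stdOp n c X 13 f' x y y := by
  obtain ⟨m, rfl, hm, hM⟩ := qual n c X h1 h2 h3
  have hd := hM.dom
  rw [← hd] at hM
  obtain ⟨s', hs, hM', hl⟩ := hE n m p.dm p.vl q.vl f.pr (nodes x) hm hM (nodes_cov x h4)
  obtain ⟨y, hy⟩ := exists_app x hl
  refine ⟨.pi s', y, fun a b hab => app_mono hs a b hab, ⟨m, rfl, ?_⟩, hy⟩
  rw [← hd]
  exact hM'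

theorem ef2 (hE : MatExt) (hI : MatInv) (k k' p q f y : Ob) (h1 : k' = k.sc)
    (h2 : stdOp n c X 16 k' k' k' k')
    (h3 : stdOp n c X 14 k' p q f) (h4 : stdOp n c X 19 q y y y) :
    ∃ f' x : Ob, (∀ a b : Ob, stdOp n c X 13 f a b b → stdOp n c X 13 f' a b b) ∧
      stdOp n c X 14 k p q f' ∧ stdOp n c X 13 f' x y y := by
  obtain ⟨m, rfl, hm, hM⟩ := qual n c X h1 h2 h3
  have hd := hM.dom
  obtain ⟨t, hMt, ht⟩ := hI _ _ _ _ _ _ _ hM
  rw [hd] at hMt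
  obtain ⟨t', hs, hM', hl⟩ := hE n m q.dm q.vl p.vl t (nodes y) hm hMt (nodes_cov y h4)
  obtain ⟨x, hx⟩ := exists_app y hl
  obtain ⟨s', hMs, hs'⟩ := hI _ _ _ _ _ _ _ hM'
  refine ⟨.pi s', x, fun a b hab => ?_, ⟨m, rfl, ?_⟩, app_inv (fun a b h => (hs' a b).2 h) y x hx⟩
  · refine app_mono ?_ a b hab
    rintro ⟨u, v⟩ huv
    exact (hs' v u).2 (hs ((ht u v).2 huv))
  · rw [hd]
    exact hMs

theorem sym (hS : MatSym) (k k' p q f g : Ob) (h1 : k' = k.sc) (h2 : stdOp n c X 16 k' k' k' k')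
    (h3 : stdOp n c X 14 k' p q f) (h4 : stdOp n c X 14 k' p q g) :
    ∃ e e' : Ob, stdOp n c X 14 k q q e ∧ stdOp n c X 14 k q q e' ∧
      (∀ u u' : Ob, stdOp n c X 13 f u u' u' → stdOp n c X 13 g u u' u' →
        stdOp n c X 13 e u' u' u' ∧ stdOp n c X 13 e' u' u' u') ∧
      ∀ x x1 x2 : Ob, stdOp n c X 13 f x x1 x1 → stdOp n c X 13 g x x2 x2 →
        ∃ y : Ob, stdOp n c X 13 e x1 y y ∧ stdOp n c X 13 e y x1 x1 ∧
          stdOp n c X 13 e' y x2 x2 ∧ stdOp n c X 13 e' x2 y y := by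
  obtain ⟨m', rfl, hm'⟩ := h2
  obtain ⟨m, rfl, rfl⟩ := sc_num h1
  obtain ⟨m2, e2, hM⟩ := h3
  obtain ⟨m3, e3, hM3⟩ := h4
  cases e2
  cases e3
  have hd := hM.dom
  rw [← hd] at hM hM3
  obtain ⟨e, e', he, he', hfx, hee⟩ := hS n m p.dm p.vl q.vl f.pr g.pr hm' hM hM3
  rw [hd] at he he'
  exact ⟨.pi e, .pi e', ⟨m, rfl, he⟩, ⟨m, rfl, he'⟩,
    fun u u' hu hu' => fix_app hfx u u' hu hu',
    fun x x1 x2 hx hx' => sym_app hee x x1 x2 hx hx'⟩

theorem child {m : ℕ} {U U' : Finset Rc} {V V' : Set Rc} {s : Finset (Nd × Nd)}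
    (hM : Mat n m U U' V V' s) {x y x' y' : Ob} (hx : Ob.app s x x') (hy : Ob.app s y y') :
    stdOp n c X 2 x y y y ↔ stdOp n c X 2 x' y' y' y' := by
  simp only [stdOp]
  constructor
  · rintro ⟨k, j, d, a, p, rfl, rfl⟩
    obtain ⟨b, rfl, hb⟩ := hx
    obtain ⟨b', rfl, hb'⟩ := hy
    obtain ⟨a', p', rfl, hpar⟩ := hM.par k j d a p b' hb'
    have := (hM.inj _ hb _ hpar).1 rfl
    simp only at this
    subst this
    exact ⟨k, j, d, a', p', rfl, rfl⟩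
  · rintro ⟨k, j, d, a', p', rfl, rfl⟩
    obtain ⟨α, rfl, hα⟩ := app_node x hx
    obtain ⟨β, rfl, hβ⟩ := app_node y hy
    obtain ⟨g1, -, g3⟩ := hM.root _ hβ
    obtain ⟨k2, j2, d2, p2⟩ := β
    simp only [rtc, Prod.mk.injEq, List.length_cons] at g1 g3
    subst g3
    obtain ⟨g1, rfl, rfl⟩ := g1
    cases p2 with
    | nil => simp at g1
    | cons a p =>
      obtain ⟨a'', p'', e, hpar⟩ := hM.par _ _ _ _ _ _ hβ
      simp only [Prod.mk.injEq, List.cons.injEq, true_and] at e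
      obtain ⟨rfl, rfl⟩ := e
      have := (hM.inj _ hα _ hpar).2 rfl
      simp only at this
      subst this
      exact ⟨k2, j2, d2, a, p, rfl, rfl⟩

theorem root3 {m : ℕ} {U U' : Finset Rc} {V V' : Set Rc} {s : Finset (Nd × Nd)}
    (hM : Mat n m U U' V V' s) {x y z w x' y' z' w' : Ob} (hx : Ob.app s x x')
    (hy : Ob.app s y y') (hz : Ob.app s z z') (hw : Ob.app s w w') :
    stdOp n c X 3 x y z w ↔ stdOp n c X 3 x' y' z' w' := by
  simp only [stdOp]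
  constructor
  · rintro ⟨i, j, d, rfl, rfl, rfl, rfl⟩
    obtain ⟨b, rfl, hb⟩ := hx
    obtain ⟨g1, -, g3⟩ := hM.root _ hb
    have hb' : b = (i, j, d, []) := nd_eq_of_root (g1.symm.trans rfl) g3.symm
    subst hb'
    exact ⟨i, j, d, rfl, (app_num _ _ hy).1 rfl, (app_num _ _ hz).1 rfl, (app_num _ _ hw).1 rfl⟩
  · rintro ⟨i, j, d, rfl, rfl, rfl, rfl⟩
    obtain ⟨a, rfl, ha⟩ := app_node x hx
    obtain ⟨g1, -, g3⟩ := hM.root _ ha
    have ha' : a = (i, j, d, []) := nd_eq_of_root (g1.trans rfl) g3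
    subst ha'
    exact ⟨i, j, d, rfl, (app_num _ _ hy).2 rfl, (app_num _ _ hz).2 rfl, (app_num _ _ hw).2 rfl⟩

theorem leaf1 {m : ℕ} {U U' : Finset Rc} {V V' : Set Rc} {s : Finset (Nd × Nd)}
    (hM : Mat n m U U' V V' s) {x x' : Ob} (hx : Ob.app s x x') :
    stdOp n c X 10 x (.num 0) (.num 0) (.num 0) ↔
      stdOp n c X 10 x' (.num 0) (.num 0) (.num 0) := by
  simp only [stdOp]
  constructor
  · rintro ⟨k, j, d, p, rfl, h⟩
    cases h
    obtain ⟨b, rfl, hb⟩ := hx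
    obtain ⟨-, -, g3⟩ := hM.root _ hb
    obtain ⟨k', j', d', p'⟩ := b
    simp only at g3
    subst g3
    exact ⟨0, j', d', p', rfl, rfl⟩
  · rintro ⟨k, j, d, p, rfl, h⟩
    cases h
    obtain ⟨a, rfl, ha⟩ := app_node x hx
    obtain ⟨-, -, g3⟩ := hM.root _ ha
    obtain ⟨k', j', d', p'⟩ := a
    simp only at g3
    subst g3
    exact ⟨0, j', d', p', rfl, rfl⟩

theorem op8 {k j d : ℕ} {p : List (ℕ × Bool)} : stdOp n c X 8 (.node (k, j, d, p))
    (.node (k, j, d, p)) (.node (k, j, d, p)) (.node (k, j, d, p)) ↔ ty True p := by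
  simp only [stdOp]
  constructor
  · rintro ⟨k', j', d', p', he, h⟩
    simp only [Ob.node.injEq, Prod.mk.injEq] at he
    obtain ⟨rfl, rfl, rfl, rfl⟩ := he
    exact h
  · intro h
    exact ⟨k, j, d, p, rfl, h⟩

theorem op7 {k j d : ℕ} {p : List (ℕ × Bool)} : stdOp n c X 7 (.node (k, j, d, p))
    (.node (k, j, d, p)) (.node (k, j, d, p)) (.node (k, j, d, p)) ↔ ty False p := by
  simp only [stdOp]
  constructor
  · rintro ⟨k', j', d', p', he, h⟩
    simp only [Ob.node.injEq, Prod.mk.injEq] at he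
    obtain ⟨rfl, rfl, rfl, rfl⟩ := he
    exact h
  · intro h
    exact ⟨k, j, d, p, rfl, h⟩

theorem ty_cases (b : Prop) (p : List (ℕ × Bool)) :
    ((b ∧ ty True p) ∨ (¬ b ∧ ty False p)) ↔ ty b p := by
  by_cases hb : b
  · rw [ty_iff (iff_true_intro hb) p]
    tauto
  · rw [ty_iff (iff_false_intro hb) p]
    tauto

theorem leaf2 {m : ℕ} {p q : Ob} {s : Finset (Nd × Nd)}
    (hM : Mat n m p.dm q.dm p.vl q.vl s) {x x' r : Ob} (hx : Ob.app s x x')
    (h10 : stdOp n c X 10 x (.num 0) (.num 0) (.num 0)) (h9 : stdOp n c X 9 x r r r) :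
    stdOp n c X 9 x' r r r ∧ stdOp n c X 11 p r r r ∧ stdOp n c X 11 q r r r ∧
    (((stdOp n c X 12 p r r r ∧ stdOp n c X 8 x x x x) ∨
      (¬ stdOp n c X 12 p r r r ∧ stdOp n c X 7 x x x x)) ↔
      ((stdOp n c X 12 q r r r ∧ stdOp n c X 8 x' x' x' x') ∨
      (¬ stdOp n c X 12 q r r r ∧ stdOp n c X 7 x' x' x' x'))) := by
  obtain ⟨k, j, d, path, rfl, h⟩ := h10
  cases h
  obtain ⟨k2, j2, d2, p2, he, rfl⟩ := h9
  simp only [Ob.node.injEq, Prod.mk.injEq] at he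
  obtain ⟨rfl, rfl, rfl, rfl⟩ := he
  obtain ⟨b, rfl, hb⟩ := hx
  obtain ⟨g1, g2, g3⟩ := hM.root _ hb
  have gt := hM.type _ hb (Nat.zero_le _)
  obtain ⟨k', j', d', path'⟩ := b
  simp only [rtc] at g1 g2 g3 gt
  subst g3
  simp only [Prod.mk.injEq] at g1
  obtain ⟨g1, rfl, rfl⟩ := g1
  rw [op11, op11, op12, op12, op8, op7, op8, op7, ty_cases, ty_cases]
  refine ⟨⟨0, j, d, path', rfl, ?_⟩, g2, ?_, ?_⟩
  · rw [g1]
  · rw [← hM.dom]; exact g2
  · rw [gt, ← g1]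

end

theorem stdAx (h1 : MatExt) (h2 : MatInv) (h3 : MatSym) : StdAx := by
  intro n c X P hP
  exact {
    as1 := ⟨Ob.nil, fun y h => h⟩
    as2 := fun x y => ⟨Ob.cons y x, fun w => or_comm⟩
    cons1 := fun x y => ⟨Ob.cons x y, rfl⟩
    cons2 := fun x y x' y' z h h' => by
      have h4 : Ob.cons x y = Ob.cons x' y' := Eq.trans (Eq.symm h) h'
      exact ⟨(Ob.cons.inj h4).1, (Ob.cons.inj h4).2⟩
    n1 := fun x h => ⟨0, h⟩
    n2 := by
      rintro x y ⟨m, rfl⟩ h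
      exact ⟨m + 1, h⟩
    rt1 := by
      rintro i j d ⟨i, rfl⟩ ⟨j, rfl⟩ ⟨d, rfl⟩
      exact ⟨Ob.node (i, j, d, []), i, j, d, rfl, rfl, rfl, rfl⟩
    rt2 := by
      rintro r i j d i' j' d' ⟨a1, a2, a3, rfl, rfl, rfl, rfl⟩ ⟨b1, b2, b3, he, rfl, rfl, rfl⟩
      have he' := Ob.node.inj he
      simp only [Prod.mk.injEq] at he'
      obtain ⟨rfl, rfl, rfl, -⟩ := he'
      exact ⟨rfl, rfl, rfl⟩
    rt3 := by
      rintro r r' i j d ⟨a1, a2, a3, rfl, rfl, rfl, rfl⟩ ⟨b1, b2, b3, rfl, e1, e2, e3⟩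
      rw [Ob.num.inj e1, Ob.num.inj e2, Ob.num.inj e3]
    rt4 := rt4 n c X
    ro1 := by
      rintro v r r' ⟨k, j, d, p, rfl, rfl⟩ ⟨k', j', d', p', he, rfl⟩
      have he' := Ob.node.inj he
      simp only [Prod.mk.injEq] at he'
      obtain ⟨rfl, rfl, rfl, rfl⟩ := he'
      rfl
    ro2 := by
      rintro v k ⟨k, j, d, p, rfl, rfl⟩
      exact ⟨Ob.node (k + p.length, j, d, []), k, j, d, p, rfl, rfl⟩
    cd1 := by
      rintro v k k' ⟨k, j, d, p, rfl, rfl⟩ ⟨k', j', d', p', he, rfl⟩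
      have he' := Ob.node.inj he
      simp only [Prod.mk.injEq] at he'
      rw [he'.1]
    ch1 := ch1 n c X
    ch2 := ch2 n c X
    pt := pt n c X
    ln0 := fun x y h h' => Eq.trans h (Eq.symm h')
    ln1 := by
      rintro x h ⟨m, hm, hmn⟩
      have : Ob.num n = Ob.num m := Eq.trans (Eq.symm h) hm
      rw [Ob.num.inj this] at hmn
      exact lt_irrefl _ hmn
    ln2 := by
      rintro x y h ⟨m, rfl, hm⟩ hy
      have h' : y = Ob.num (m + 1) := h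
      refine ⟨m + 1, h', ?_⟩
      rcases Nat.lt_or_ge (m + 1) n with hlt | hge
      · exact hlt
      · exfalso
        apply hy
        have : m + 1 = n := by omega
        rw [← this]
        exact h'
    ln3 := by
      rintro x h hx
      have h' : x = Ob.num 0 := h
      refine ⟨0, h', ?_⟩
      rcases Nat.eq_zero_or_pos n with h0 | h0
      · exfalso
        apply hx
        rw [h0]
        exact h'
      · exact h0
    ln4 := by
      rintro x y h hx ⟨m, hm, hmn⟩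
      have h' : y = Ob.sc x := h
      obtain ⟨l, hl, hml⟩ := sc_num (k := x) (m := m) (Eq.trans (Eq.symm hm) h')
      exact hx ⟨l, hl, by omega⟩
    lw := by
      rintro r i j d ⟨i, j, d, rfl, rfl, rfl, rfl⟩
      refine (op20 n c X).trans ⟨fun h => ⟨i, rfl, h⟩, ?_⟩
      rintro ⟨m, hm, hmn⟩
      rw [Ob.num.inj hm]; exact hmn
    ct1 := fun r h => h
    cut1 := by
      rintro i ⟨m, rfl, hm⟩
      exact ⟨Ob.num 0, Ob.num 0, Ob.node (m, 0, 0, []), rfl, ⟨m, 0, 0, rfl, rfl, rfl, rfl⟩,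
        ⟨m, 0, 0, rfl, hm⟩⟩
    cut2 := by
      rintro i j d r ⟨m, rfl, hm⟩ ⟨i', j', d', rfl, he, rfl, rfl⟩ _
      exact ⟨Ob.num (j' + 1), Ob.num d', Ob.node (m, j' + 1, d', []), rfl,
        ⟨m, j' + 1, d', rfl, rfl, rfl, rfl⟩, ⟨m, j' + 1, d', rfl, hm⟩⟩
    nh := by
      rintro i j d r c' ⟨m, rfl, hm⟩ ⟨i', j', d', rfl, he, rfl, rfl⟩ _ hc
      have hc' : c' = Ob.num c := hc
      subst hc'
      exact hP m j' hm
    dm1 := dm1 n c X
    dm2 := dm2 n c X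
    dm3 := dm3 n c X
    dm4 := dm4 n c X
    cov1 := by
      intro p p' x hx h
      refine cov_mono ?_ x hx
      rintro ⟨i, j, d⟩ hr
      exact (op11 n c X).1 (h (Ob.node (i, j, d, [])) ((op11 n c X).2 hr))
    mt1 := mt1 n c X
    mt2 := mt2 n c X
    ef1 := ef1 n c X h1
    ef2 := ef2 n c X h1 h2
    sym := sym n c X h3
    at2 := by
      rintro k p q f x y x' y' ⟨m, -, hM⟩ hx hy
      refine ⟨app_eq hM.inj hx hy, app_mem hM.inj hx y y' hy, child n c X hM hx hy, ?_, ?_⟩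
      · exact app_eq hM.inj hy (app_sc x x' hx)
      · exact app_num x x' hx
    at3 := by
      rintro k p q f x y z x' y' z' ⟨m, -, hM⟩ hx hy hz
      exact ⟨app_eq hM.inj hz (app_ad hx y y' hy), app_eq hM.inj hz (app_ml hx y y' hy)⟩
    at4 := by
      rintro k p q f x y z w x' y' z' w' ⟨m, -, hM⟩ hx hy hz hw
      exact root3 n c X hM hx hy hz hw
    lf1 := by
      rintro k p q f x x' m ⟨m', -, hM⟩ hx hm
      have hm' : m = Ob.num 0 := hm
      subst hm'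
      exact leaf1 n c X hM hx
    lf2 := by
      rintro k p q f x x' m r ⟨m', -, hM⟩ hx hm h10 h9
      have hm' : m = Ob.num 0 := hm
      subst hm'
      exact leaf2 n c X hM hx h10 h9 }

end Pool.Agent.Helper364_SP.StdMain
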