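import Pool.Agent.Helper364_SP.Stmts

/-!
# Uniform definability of formulas, codes of tuples (proofs by helper761)
-/

set_option autoImplicit false

namespace Pool.Agent.Helper364_SP.UDefs

open FirstOrder FirstOrder.Language
open Pool.Agent.TH672 (Fm Str upd Pv LogK)
open Pool.Agent.TH636.BC (Fml inst robinson Arith)
open Pool.Agent.TH838.J1549 (Q)
open Pool.Agent.Helper364_SP

/-! ### Closure properties -/

theorem map {β β' : Type} {R : ∀ S : Str ℕ, (β → S.M) → Prop} (h : UD R) (g : β → β') :
    UD (β := β') (fun S w => R S (fun b => w (g b))) := by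
  intro e
  obtain ⟨φ, h1, h2, h3⟩ := h (fun b => e (g b))
  refine ⟨φ, h1, fun x hx => ?_, fun S v => h3 S v⟩
  obtain ⟨b, hb⟩ := h2 x hx
  exact ⟨g b, hb⟩

theorem true' {β : Type} : UD (fun S (_ : β → S.M) => True) :=
  (UD.false' (β := β)).not.of_iff fun _ _ => by simp

/-- finite conjunctions -/
theorem allFin {β : Type} : ∀ (m : ℕ) (R : Fin m → ∀ S : Str ℕ, (β → S.M) → Prop),
    (∀ i, UD (R i)) → UD (fun S w => ∀ i, R i S w)
  | 0, _, _ => (true' (β := β)).of_iff fun _ _ => by simp
  | m + 1, R, h => ((h 0).and (allFin m (fun i => R i.succ) fun i => h i.succ)).of_iff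
      fun S w => (Fin.forall_fin_succ (P := fun i => R i S w)).symm

/-- quantification over finite tuples -/
theorem exTuple (γ : Type) [Finite γ] : ∀ (β : Type) [Finite β]
    (R : ∀ S : Str ℕ, (β → S.M) → (γ → S.M) → Prop),
    UD (β := β ⊕ γ) (fun S w => R S (fun b => w (Sum.inl b)) (fun c => w (Sum.inr c))) →
    UD (fun S w => ∃ u, R S w u) := by
  induction γ using Finite.induction_empty_option with
  | of_equiv e ih =>
    intro β _ R h
    have h1 := map h (Sum.map id e.symm)
    refine (ih β (fun S w u => R S w (fun c => u (e.symm c))) h1).of_iff fun S w => ?_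
    constructor
    · rintro ⟨u, hu⟩
      exact ⟨_, hu⟩
    · rintro ⟨u, hu⟩
      refine ⟨fun c => u (e c), ?_⟩
      have : (fun c => (fun c => u (e c)) (e.symm c)) = u := by
        funext c
        simp
      rw [this]
      exact hu
  | h_empty =>
    intro β _ R h
    have h1 := map h (Sum.elim id PEmpty.elim)
    refine h1.of_iff fun S w => ?_
    constructor
    · intro h2
      exact ⟨_, h2⟩
    · rintro ⟨u, hu⟩
      have : (fun c : PEmpty => w (Sum.elim id PEmpty.elim (Sum.inr c : β ⊕ PEmpty))) = u := by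
        funext c
        exact c.elim
      rw [this]
      exact hu
  | h_option ih =>
    rename_i γ _
    intro β _ R h
    let g : β ⊕ Option γ → Option β ⊕ γ :=
      Sum.elim (fun b => Sum.inl (some b)) (fun o => o.elim (Sum.inl none) Sum.inr)
    have h1 := map h g
    have h2 := ih (Option β) (fun S w u => R S (fun b => w (some b))
      (fun o => o.elim (w none) u)) (h1.of_iff fun S w => by
        have : (fun o : Option γ => w (g (Sum.inr o))) =
            fun o : Option γ => o.elim (w (Sum.inl none)) (fun c => w (Sum.inr c)) := by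
          funext o
          cases o <;> rfl
        rw [this]
        exact Iff.rfl)
    refine (UD.ex (R := fun S w a => ∃ u : γ → S.M, R S w (fun o => o.elim a u)) h2).of_iff
      fun S w => ?_
    constructor
    · rintro ⟨a, u, hu⟩
      exact ⟨_, hu⟩
    · rintro ⟨u, hu⟩
      refine ⟨u none, fun c => u (some c), ?_⟩
      have : (fun o : Option γ => o.elim (u none) (fun c => u (some c))) = u := by
        funext o
        cases o <;> rfl
      rw [this]
      exact hu

/-! ### Formulas -/

theorem term_var {α : Type} {m : ℕ} (t : LU.Term (α ⊕ Fin m)) :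
    ∃ x : α ⊕ Fin m, ∀ (S : Str ℕ) (w : α ⊕ Fin m → S.M),
      t.realize (M := MU S (CtS S)) (Sum.elim (fun a => w (Sum.inl a))
        (fun i => w (Sum.inr i))) = w x := by
  cases t with
  | var x =>
    refine ⟨x, fun S w => ?_⟩
    rw [Term.realize_var]
    cases x <;> rfl
  | func f _ => exact f.elim

/-- The colour. -/
theorem udCol {β : Type} [Finite β] (x : β) :
    UD (fun S (w : β → S.M) => Col S (CtS S) (w x)) := by
  unfold Col CtS
  refine UD.ex (R := fun S w r => ∃ k, S.op 9 (w x) r r r ∧ S.op 10 (w x) k k k ∧ S.zero k ∧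
    ((S.op 6 r r r r ∧ S.op 8 (w x) (w x) (w x) (w x)) ∨
      (¬ S.op 6 r r r r ∧ S.op 7 (w x) (w x) (w x) (w x)))) ?_
  refine UD.ex (R := fun S w k => S.op 9 (w (some x)) (w none) (w none) (w none) ∧
    S.op 10 (w (some x)) k k k ∧ S.zero k ∧
    ((S.op 6 (w none) (w none) (w none) (w none) ∧
      S.op 8 (w (some x)) (w (some x)) (w (some x)) (w (some x))) ∨
      (¬ S.op 6 (w none) (w none) (w none) (w none) ∧
        S.op 7 (w (some x)) (w (some x)) (w (some x)) (w (some x))))) ?_
  exact (UD.op 9 _ _ _ _ (by norm_num)).and ((UD.op 10 _ _ _ _ (by norm_num)).and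
    ((UD.zero _).and (((UD.op 6 _ _ _ _ (by norm_num)).and (UD.op 8 _ _ _ _ (by norm_num))).or
      ((UD.op 6 _ _ _ _ (by norm_num)).not.and (UD.op 7 _ _ _ _ (by norm_num))))))

theorem udRel {β : Type} [Finite β] {n : ℕ} (R : URel n) (x : Fin n → β) :
    UD (fun S (w : β → S.M) => muRel S (CtS S) R (fun i => w (x i))) := by
  cases R with
  | mem => exact UD.op 1 _ _ _ _ (by norm_num)
  | ch => exact UD.op 2 _ _ _ _ (by norm_num)
  | col => exact udCol (x 0)
  | rt => exact UD.op 3 _ _ _ _ (by norm_num)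
  | zero => exact UD.zero _
  | succ => exact UD.succ _ _
  | add => exact UD.add _ _ _
  | mul => exact UD.mul _ _ _

theorem udForm : UDForm := by
  intro α _ m φ
  induction φ with
  | falsum => exact UD.false'
  | equal t₁ t₂ =>
    obtain ⟨x, hx⟩ := term_var t₁
    obtain ⟨y, hy⟩ := term_var t₂
    refine (UD.eq x y).of_iff fun S w => ?_
    show w x = w y ↔ t₁.realize (M := MU S (CtS S)) _ = t₂.realize (M := MU S (CtS S)) _
    rw [hx, hy]
    exact Iff.rfl
  | rel R ts =>
    choose x hx using fun i => term_var (ts i)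
    refine (udRel R x).of_iff fun S w => ?_
    have : (fun i => w (x i)) = fun i => (ts i).realize (M := MU S (CtS S))
        (Sum.elim (fun a => w (Sum.inl a)) (fun i => w (Sum.inr i))) := by
      funext i
      exact (hx i S w).symm
    rw [this]
    exact Iff.rfl
  | imp φ ψ ih₁ ih₂ => exact ih₁.imp ih₂
  | all φ ih =>
    rename_i m
    let g : α ⊕ Fin (m + 1) → Option (α ⊕ Fin m) :=
      Sum.elim (fun a => some (Sum.inl a))
        (fun i => Fin.lastCases (motive := fun _ => Option (α ⊕ Fin m)) none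
          (fun j => some (Sum.inr j)) i)
    have h1 := map ih g
    refine UD.all (R := fun S w a => φ.Realize (M := MU S (CtS S)) (fun a => w (Sum.inl a))
      (Fin.snoc (α := fun _ => S.M) (fun i => w (Sum.inr i)) a)) (h1.of_iff fun S w => ?_)
    have : (fun i => w (g (Sum.inr i))) =
        Fin.snoc (α := fun _ => S.M) (fun i => w (some (Sum.inr i))) (w none) := by
      funext i
      refine Fin.lastCases ?_ (fun j => ?_) i
      · simp [g]
      · simp [g]
    rw [this]
    exact Iff.rfl

/-! ### Codes of tuples -/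

theorem cdtS : CdtS := by
  intro P S hS D
  induction D with
  | zero =>
    refine ⟨fun w => ?_, fun x w w' _ _ => funext fun i => i.elim0⟩
    obtain ⟨x⟩ := S.ne
    exact ⟨x, trivial⟩
  | succ D ih =>
    refine ⟨fun w => ?_, fun x w w' h h' => ?_⟩
    · obtain ⟨y, hy⟩ := ih.1 (fun i => w i.succ)
      obtain ⟨z, hz⟩ := hS.cons1 (w 0) y
      exact ⟨z, y, hz, hy⟩
    · obtain ⟨y, hy, hc⟩ := h
      obtain ⟨y', hy', hc'⟩ := h'
      obtain ⟨e1, e2⟩ := hS.cons2 _ _ _ _ _ hy hy'
      subst e2
      have e3 := ih.2 _ _ _ hc hc'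
      funext i
      refine Fin.cases e1 (fun j => ?_) i
      exact congrFun e3 j

theorem udCdt : ∀ D : ℕ, UD (β := Option (Fin D))
    (fun S w => Cdt S D (w none) (fun i => w (some i)))
  | 0 => true'
  | D + 1 => by
    have ih := udCdt D
    let g : Option (Fin D) → Option (Option (Fin (D + 1))) :=
      fun o => o.elim none (fun i => some (some i.succ))
    have h1 := map ih g
    have h2 : UD (β := Option (Option (Fin (D + 1)))) (fun S w =>
        S.op 15 (w (some (some 0))) (w none) (w (some none)) (w (some none)) ∧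
          Cdt S D (w none) (fun i => w (some (some i.succ)))) :=
      (UD.op 15 _ _ _ _ (by norm_num)).and h1
    exact UD.ex (R := fun S w y => S.op 15 (w (some 0)) y (w none) (w none) ∧
      Cdt S D y (fun i => w (some i.succ))) h2

/-- Formulas without free bound variables. -/
theorem udFormula (h : UDForm) (α : Type) [Finite α] (φ : LU.Formula α) :
    UD (β := α) (fun S w => φ.Realize (M := MU S (CtS S)) w) := by
  have h1 := map (h α 0 φ) (Sum.elim id (fun i : Fin 0 => i.elim0))
  refine h1.of_iff fun S w => ?_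
  have : (fun i : Fin 0 => w (Sum.elim id (fun i : Fin 0 => i.elim0) (Sum.inr i : α ⊕ Fin 0))) =
      (default : Fin 0 → S.M) := Subsingleton.elim _ _
  rw [this]
  exact Iff.rfl

theorem udInt (h : UDForm) : UDInt := by
  intro N m χ
  have key := exTuple (Fin N.par ⊕ Fin m × Fin N.dim) (Option (Fin m))
    (fun S x v => Cdt S N.par (x none) (fun i => v (Sum.inl i)) ∧
      (∀ i, Cdt S N.dim (x (some i)) (fun j => v (Sum.inr (i, j))) ∧
      N.dom.Realize (M := MU S (CtS S)) (Sum.elim (fun i => v (Sum.inl i))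
        fun j => v (Sum.inr (i, j)))) ∧
      χ.Realize (M := MU S (CtS S)) v) (by
    refine UD.and (R := fun S (w : Option (Fin m) ⊕ (Fin N.par ⊕ Fin m × Fin N.dim) → S.M) =>
        Cdt S N.par (w (Sum.inl none)) (fun i => w (Sum.inr (Sum.inl i))))
      (R' := fun S (w : Option (Fin m) ⊕ (Fin N.par ⊕ Fin m × Fin N.dim) → S.M) =>
        (∀ i, Cdt S N.dim (w (Sum.inl (some i))) (fun j => w (Sum.inr (Sum.inr (i, j)))) ∧
        N.dom.Realize (M := MU S (CtS S)) (Sum.elim (fun i => w (Sum.inr (Sum.inl i)))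
          fun j => w (Sum.inr (Sum.inr (i, j))))) ∧
        χ.Realize (M := MU S (CtS S)) (fun p => w (Sum.inr p))) ?_ ?_
    · exact map (udCdt N.par) (fun o : Option (Fin N.par) =>
        (o.elim (Sum.inl none) (fun j => Sum.inr (Sum.inl j)) :
          Option (Fin m) ⊕ (Fin N.par ⊕ Fin m × Fin N.dim)))
    refine UD.and (R := fun S (w : Option (Fin m) ⊕ (Fin N.par ⊕ Fin m × Fin N.dim) → S.M) =>
        ∀ i, Cdt S N.dim (w (Sum.inl (some i))) (fun j => w (Sum.inr (Sum.inr (i, j)))) ∧
        N.dom.Realize (M := MU S (CtS S)) (Sum.elim (fun i => w (Sum.inr (Sum.inl i)))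
          fun j => w (Sum.inr (Sum.inr (i, j)))))
      (R' := fun S (w : Option (Fin m) ⊕ (Fin N.par ⊕ Fin m × Fin N.dim) → S.M) =>
        χ.Realize (M := MU S (CtS S)) (fun p => w (Sum.inr p))) ?_ ?_
    · refine allFin m (fun i S (w : Option (Fin m) ⊕ (Fin N.par ⊕ Fin m × Fin N.dim) → S.M) =>
        Cdt S N.dim (w (Sum.inl (some i))) (fun j => w (Sum.inr (Sum.inr (i, j)))) ∧
        N.dom.Realize (M := MU S (CtS S)) (Sum.elim (fun i => w (Sum.inr (Sum.inl i)))
          fun j => w (Sum.inr (Sum.inr (i, j))))) fun i => ?_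
      refine UD.and (R := fun S (w : Option (Fin m) ⊕ (Fin N.par ⊕ Fin m × Fin N.dim) → S.M) =>
          Cdt S N.dim (w (Sum.inl (some i))) (fun j => w (Sum.inr (Sum.inr (i, j)))))
        (R' := fun S (w : Option (Fin m) ⊕ (Fin N.par ⊕ Fin m × Fin N.dim) → S.M) =>
          N.dom.Realize (M := MU S (CtS S)) (Sum.elim (fun i => w (Sum.inr (Sum.inl i)))
            fun j => w (Sum.inr (Sum.inr (i, j))))) ?_ ?_
      · exact map (udCdt N.dim) (fun o : Option (Fin N.dim) =>
          (o.elim (Sum.inl (some i)) (fun j => Sum.inr (Sum.inr (i, j))) :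
            Option (Fin m) ⊕ (Fin N.par ⊕ Fin m × Fin N.dim)))
      · refine (map (udFormula h (Fin N.par ⊕ Fin N.dim) N.dom)
          (Sum.elim (fun j => Sum.inr (Sum.inl j)) (fun j => Sum.inr (Sum.inr (i, j))) :
            Fin N.par ⊕ Fin N.dim →
              Option (Fin m) ⊕ (Fin N.par ⊕ Fin m × Fin N.dim))).of_iff fun S w => ?_
        have : (fun b => w ((Sum.elim (fun j => Sum.inr (Sum.inl j))
            (fun j => Sum.inr (Sum.inr (i, j))) : Fin N.par ⊕ Fin N.dim →
              Option (Fin m) ⊕ (Fin N.par ⊕ Fin m × Fin N.dim)) b)) =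
            Sum.elim (fun i => w (Sum.inr (Sum.inl i)))
              fun j => w (Sum.inr (Sum.inr (i, j))) := by
          funext b
          rcases b with b | b <;> rfl
        rw [this]
        exact Iff.rfl
    · exact map (udFormula h (Fin N.par ⊕ Fin m × Fin N.dim) χ) (fun p =>
        (Sum.inr p : Option (Fin m) ⊕ (Fin N.par ⊕ Fin m × Fin N.dim))))
  refine key.of_iff fun S x => ?_
  constructor
  · rintro ⟨v, h0, h1, h2⟩
    refine ⟨fun i => v (Sum.inl i), h0, fun i j => v (Sum.inr (i, j)), h1, ?_⟩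
    have e : ∀ g : Fin N.par ⊕ Fin m × Fin N.dim → MU S (CtS S), g = v →
        χ.Realize (M := MU S (CtS S)) g := fun g hg => hg ▸ h2
    exact e _ (by
      funext b
      rcases b with b | b <;> rfl)
  · rintro ⟨u, h0, w, h1, h2⟩
    exact ⟨Sum.elim u fun p => w p.1 p.2, h0, h1, h2⟩

end Pool.Agent.Helper364_SP.UDefs
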