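import Pool.Agent.Helper364_SP.Stmts

/-!
# The theory `UT P` is recursively enumerable
-/

set_option autoImplicit false

namespace Pool.Agent.Helper364_SP.UTRec

open FirstOrder FirstOrder.Language
open Pool.Agent.TH672 (Fm Str upd Pv LogK)
open Pool.Agent.TH636.BC (Fml inst robinson Arith)
open Pool.Agent.TH838.J1549 (Q)
open Pool.Agent.Helper364_SP

/-! ### Numbering of the symbols -/

/-- numbers of the function symbols -/
def eF : (Σ n, LU.Functions n) → ℕ := fun p => (Empty.elim p.2 : ℕ)

/-- numbers of the relation symbols -/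
def eRr : ∀ {n : ℕ}, URel n → ℕ
  | _, .mem => 0
  | _, .ch => 1
  | _, .col => 2
  | _, .rt => 3
  | _, .zero => 4
  | _, .succ => 5
  | _, .add => 6
  | _, .mul => 7

/-- numbers of the relation symbols -/
def eR : (Σ n, LU.Relations n) → ℕ := fun p => eRr p.2

lemma eF_inj : Function.Injective eF := fun p => Empty.elim p.2

lemma eR_inj : Function.Injective eR := by
  rintro ⟨n, R⟩ ⟨m, S⟩ h
  change eRr (R : URel n) = eRr (S : URel m) at h
  cases R <;> cases S <;> first | rfl | (simp [eRr] at h)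

/-! ### Primitive recursive families of formulas -/

/-- the code of a formula -/
def cd {n : ℕ} (φ : LU.BoundedFormula Empty n) : ℕ := code eF eR φ

/-- the family of formulas is primitive recursive -/
def PR {n : ℕ} (φ : ℕ → LU.BoundedFormula Empty n) : Prop := Primrec (fun i => cd (φ i))

lemma PR.const {n : ℕ} (φ : LU.BoundedFormula Empty n) : PR (fun _ => φ) := Primrec.const _

lemma PR.imp {n : ℕ} {φ ψ : ℕ → LU.BoundedFormula Empty n} (h1 : PR φ) (h2 : PR ψ) :
    PR (fun i => (φ i).imp (ψ i)) := by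
  have : (fun i => cd ((φ i).imp (ψ i))) = fun i => Nat.pair 3 (Nat.pair (cd (φ i)) (cd (ψ i))) := by
    funext i
    rfl
  unfold PR
  rw [this]
  exact Primrec₂.natPair.comp (Primrec.const 3) (Primrec₂.natPair.comp h1 h2)

lemma PR.all {n : ℕ} {φ : ℕ → LU.BoundedFormula Empty (n + 1)} (h1 : PR φ) :
    PR (fun i => (φ i).all) := by
  have : (fun i => cd ((φ i).all)) = fun i => Nat.pair 4 (cd (φ i)) := by
    funext i
    rfl
  unfold PR
  rw [this]
  exact Primrec₂.natPair.comp (Primrec.const 4) h1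

lemma PR.not {n : ℕ} {φ : ℕ → LU.BoundedFormula Empty n} (h1 : PR φ) :
    PR (fun i => ∼(φ i)) := h1.imp (PR.const _)

lemma PR.inf {n : ℕ} {φ ψ : ℕ → LU.BoundedFormula Empty n} (h1 : PR φ) (h2 : PR ψ) :
    PR (fun i => φ i ⊓ ψ i) := (h1.imp h2.not).not

lemma PR.ex {n : ℕ} {φ : ℕ → LU.BoundedFormula Empty (n + 1)} (h1 : PR φ) :
    PR (fun i => ∃' (φ i)) := h1.not.all.not

/-- the general recursion -/
lemma rec_aux (c : ℕ → ℕ) (G : ℕ → ℕ → ℕ) (H : ℕ → ℕ → ℕ) (hc : Primrec c) (hG : Primrec₂ G)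
    (h0 : ∀ m, H 0 m = c m) (hs : ∀ s m, H (s + 1) m = G m (H s (m + 1))) (m : ℕ) :
    Primrec (fun i => H i m) := by
  let h : ℕ → ℕ → ℕ := fun N t => Nat.rec (c N) (fun t r => G (N - (t + 1)) r) t
  have hh : Primrec₂ h := by
    have h2 : Primrec₂ (fun (N : ℕ) (p : ℕ × ℕ) => G (N - (p.1 + 1)) p.2) := by
      exact (hG.comp (Primrec.nat_sub.comp Primrec.fst
        (Primrec.succ.comp (Primrec.fst.comp Primrec.snd))) (Primrec.snd.comp Primrec.snd))
    exact Primrec.nat_rec hc h2
  have key : ∀ N t, t ≤ N → h N t = H t (N - t) := by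
    intro N t
    induction t with
    | zero =>
      intro _
      simp [h, h0]
    | succ t ih =>
      intro ht
      have h1 : h N (t + 1) = G (N - (t + 1)) (h N t) := rfl
      rw [h1, ih (by omega), hs]
      congr 2
      omega
  have : (fun i => H i m) = fun i => h (i + m) i := by
    funext i
    rw [key (i + m) i (by omega)]
    congr 1
    omega
  rw [this]
  exact hh.comp (Primrec.nat_add.comp Primrec.id (Primrec.const m)) Primrec.id

/-- the code of an atomic formula with one variable -/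
def at1 (r x : ℕ) : ℕ := Nat.pair 2 (Nat.pair r (Encodable.encode [Nat.pair 0 x]))

/-- the code of an atomic formula with two variables -/
def at2 (r x y : ℕ) : ℕ :=
  Nat.pair 2 (Nat.pair r (Encodable.encode [Nat.pair 0 x, Nat.pair 0 y]))

lemma prim_at1 {α : Type} [Primcodable α] (r : ℕ) {f : α → ℕ} (hf : Primrec f) :
    Primrec (fun a => at1 r (f a)) := by
  unfold at1
  refine Primrec₂.natPair.comp (Primrec.const 2) (Primrec₂.natPair.comp (Primrec.const r) ?_)
  refine Primrec.encode.comp (Primrec.list_cons.comp ?_ (Primrec.const []))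
  exact Primrec₂.natPair.comp (Primrec.const 0) hf

lemma prim_at2 {α : Type} [Primcodable α] (r : ℕ) {f g : α → ℕ} (hf : Primrec f)
    (hg : Primrec g) : Primrec (fun a => at2 r (f a) (g a)) := by
  unfold at2
  refine Primrec₂.natPair.comp (Primrec.const 2) (Primrec₂.natPair.comp (Primrec.const r) ?_)
  refine Primrec.encode.comp (Primrec.list_cons.comp ?_
    (Primrec.list_cons.comp ?_ (Primrec.const [])))
  · exact Primrec₂.natPair.comp (Primrec.const 0) hf
  · exact Primrec₂.natPair.comp (Primrec.const 0) hg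

lemma cd_at1 {n : ℕ} (R : URel 1) (x : Fin n) :
    cd (.rel (L := LU) (l := 1) R ![vr x]) = at1 (eRr R) x := by
  simp only [cd, code, at1, List.ofFn_succ, List.ofFn_zero]
  rfl

lemma cd_at2 {n : ℕ} (R : URel 2) (x y : Fin n) :
    cd (.rel (L := LU) (l := 2) R ![vr x, vr y]) = at2 (eRr R) x y := by
  simp only [cd, code, at2, List.ofFn_succ, List.ofFn_zero]
  rfl

/-- negation -/
def ng (a : ℕ) : ℕ := Nat.pair 3 (Nat.pair a (Nat.pair 0 0))

/-- existential quantifier and conjunction -/
def exand (a b : ℕ) : ℕ := ng (Nat.pair 4 (ng (ng (Nat.pair 3 (Nat.pair a (ng b))))))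

lemma prim_ng : Primrec ng := by
  unfold ng
  exact Primrec₂.natPair.comp (Primrec.const 3) (Primrec₂.natPair.comp Primrec.id
    (Primrec.const _))

lemma prim_exand : Primrec₂ exand := by
  unfold exand
  refine prim_ng.comp (Primrec₂.natPair.comp (Primrec.const 4) (prim_ng.comp (prim_ng.comp ?_)))
  exact Primrec₂.natPair.comp (Primrec.const 3) (Primrec₂.natPair.comp Primrec.fst
    (prim_ng.comp Primrec.snd))

lemma cd_not {n : ℕ} (φ : LU.BoundedFormula Empty n) : cd (∼φ) = ng (cd φ) := rfl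

lemma cd_exand {n : ℕ} (φ ψ : LU.BoundedFormula Empty (n + 1)) :
    cd (∃' (φ ⊓ ψ)) = exand (cd φ) (cd ψ) := rfl

lemma cd_tyF_eq (s : ℕ) : ∀ (n m : ℕ) (y : Fin n) (z : Fin m), n = m → (y : ℕ) = z →
    cd (tyF s y) = cd (tyF s z) := by
  intro n m y z h h'
  subst h
  have : y = z := Fin.ext h'
  rw [this]

lemma PR_tyF (m : ℕ) : PR (fun i => tyF i (Fin.last m)) := by
  unfold PR
  refine rec_aux (fun m => at1 2 m) (fun m r => exand (at2 1 m (m + 1)) (ng r))
    (fun i m => cd (tyF i (Fin.last m))) (prim_at1 2 Primrec.id) ?_ ?_ ?_ m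
  · refine prim_exand.comp ?_ ?_
    · exact prim_at2 1 Primrec.fst (Primrec.succ.comp Primrec.fst)
    · exact prim_ng.comp Primrec.snd
  · intro m
    exact cd_at1 _ _
  · intro s m
    change cd (∃' (_ ⊓ _)) = _
    rw [cd_exand, cd_not, cd_at2]
    rfl

lemma PR_numF (m : ℕ) : PR (fun i => numF i (Fin.last m)) := by
  unfold PR
  refine rec_aux (fun m => at1 4 m) (fun m r => exand (at2 5 (m + 1) m) r)
    (fun i m => cd (numF i (Fin.last m))) (prim_at1 4 Primrec.id) ?_ ?_ ?_ m
  · refine prim_exand.comp ?_ ?_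
    · exact prim_at2 5 (Primrec.succ.comp Primrec.fst) Primrec.fst
    · exact Primrec.snd
  · intro m
    exact cd_at1 _ _
  · intro s m
    change cd (∃' (_ ⊓ _)) = _
    rw [cd_exand, cd_at2]
    rfl

lemma PR_part1 : PR part1 := by
  unfold part1
  exact ((PR.const _).inf ((PR.const _).inf (PR_tyF 3))).ex.ex.ex

lemma PR_part2 : PR part2 := by
  unfold part2
  exact ((PR.const _).imp ((PR_tyF 3).imp
    (((PR.const _).inf ((PR.const _).inf (PR_tyF 6))).ex.ex.ex))).all.all.all

lemma PR_part3 (P : Fml) : PR (part3 P) := by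
  unfold part3
  exact ((PR.const _).imp ((PR_tyF 3).imp (PR.const _))).all.all.all

lemma PR_axA (P : Fml) : PR (axA P) := by
  unfold axA
  exact ((PR_numF 0).imp (PR_part1.inf (PR_part2.inf (PR_part3 P)))).all

/-- The range of a computable function is recursively enumerable. -/
lemma rePred_range {g : ℕ → ℕ} (hg : Computable g) : REPred (fun k => ∃ n, g n = k) := by
  have h1 : Computable₂ (fun k n : ℕ => decide (g n = k)) := by
    have := (Primrec.eq (α := ℕ)).decide.to_comp
    exact this.comp (hg.comp Computable.snd) Computable.fst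
  have h2 : Partrec (fun k : ℕ => Nat.rfind (fun n => Part.some (decide (g n = k)))) :=
    Partrec.rfind h1.partrec₂
  refine h2.dom_re.of_eq ?_
  intro k
  rw [Nat.rfind_dom]
  constructor
  · rintro ⟨n, hn, _⟩
    exact ⟨n, by simpa using hn⟩
  · rintro ⟨n, hn⟩
    exact ⟨n, by simpa using hn, fun _ => trivial⟩

theorem utRE : UTRE := by
  intro P
  refine ⟨eF, eR, eF_inj, eR_inj, ?_⟩
  let l : List ℕ := cd axE :: cd axAdj :: robinson.map (fun ψ => cd (axQ ψ))
  let g : ℕ → ℕ := fun n => (l[n]?).getD (cd (axA P (n - l.length)))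
  have hg : Computable g := by
    refine Primrec.to_comp ?_
    refine Primrec.option_getD.comp ?_ ?_
    · exact Primrec.list_getElem?.comp (Primrec.const l) Primrec.id
    · exact (PR_axA P).comp (Primrec.nat_sub.comp Primrec.id (Primrec.const _))
  refine (rePred_range hg).of_eq ?_
  intro k
  constructor
  · rintro ⟨n, rfl⟩
    by_cases hn : n < l.length
    · have h1 : g n = l[n] := by simp [g, List.getElem?_eq_getElem hn]
      have h2 : g n ∈ l := by
        rw [h1]
        exact List.getElem_mem hn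
      simp only [l, List.mem_cons, List.mem_map] at h2
      rcases h2 with h2 | h2 | ⟨ψ, hψ, h2⟩
      · exact ⟨axE, Or.inl (Or.inl (Or.inl rfl)), h2.symm⟩
      · exact ⟨axAdj, Or.inl (Or.inl (Or.inr rfl)), h2.symm⟩
      · exact ⟨axQ ψ, Or.inl (Or.inr ⟨ψ, hψ, rfl⟩), h2⟩
    · have h1 : g n = cd (axA P (n - l.length)) := by
        simp [g, List.getElem?_eq_none (not_lt.mp hn)]
      exact ⟨axA P (n - l.length), Or.inr ⟨_, rfl⟩, h1.symm⟩
  · rintro ⟨σ, hσ, rfl⟩
    have key : ∀ a ∈ l, ∃ n, g n = a := by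
      intro a ha
      obtain ⟨n, hn, rfl⟩ := List.getElem_of_mem ha
      exact ⟨n, by simp [g, List.getElem?_eq_getElem hn]⟩
    rcases hσ with (h | ⟨ψ, hψ, rfl⟩) | ⟨i, rfl⟩
    · rcases h with rfl | rfl
      · exact key _ (by simp [l, cd])
      · exact key _ (by simp [l, cd])
    · exact key _ (by
        simp only [l, List.mem_cons, List.mem_map]
        exact Or.inr (Or.inr ⟨ψ, hψ, rfl⟩))
    · refine ⟨l.length + i, ?_⟩
      have : g (l.length + i) = cd (axA P (l.length + i - l.length)) := by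
        simp [g]
      rw [this]
      simp [cd]

end Pool.Agent.Helper364_SP.UTRec
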