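import Pool.Agent.Helper364_SP.Stmts

/-!
# Models of the theory `UT`, sequentiality, finiteness of the language
-/

set_option autoImplicit false

namespace Pool.Agent.Helper364_SP.UTSm

open FirstOrder FirstOrder.Language
open Pool.Agent.TH672 (Fm Str upd Pv LogK)
open Pool.Agent.TH636.BC (Fml inst robinson Arith)
open Pool.Agent.TH838.J1549 (Q)
open Pool.Agent.Helper364_SP

section real

variable {M : Type} [LU.Structure M] {n : ℕ} {v : Empty → M} {xs : Fin n → M}

theorem r1 {R : LU.Relations 1} {a : Fin n} :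
    (BoundedFormula.rel R ![vr a]).Realize v xs ↔ Structure.RelMap R ![xs a] := by
  have h : (fun i => ((![vr a] : Fin 1 → LU.Term (Empty ⊕ Fin n)) i).realize (Sum.elim v xs)) =
      ![xs a] := by
    funext i; fin_cases i; rfl
  exact iff_of_eq (congrArg (Structure.RelMap R) h)

theorem r2 {R : LU.Relations 2} {a b : Fin n} :
    (BoundedFormula.rel R ![vr a, vr b]).Realize v xs ↔ Structure.RelMap R ![xs a, xs b] := by
  have h : (fun i => ((![vr a, vr b] : Fin 2 → LU.Term (Empty ⊕ Fin n)) i).realize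
      (Sum.elim v xs)) = ![xs a, xs b] := by
    funext i; fin_cases i <;> rfl
  exact iff_of_eq (congrArg (Structure.RelMap R) h)

theorem r3 {R : LU.Relations 3} {a b c : Fin n} :
    (BoundedFormula.rel R ![vr a, vr b, vr c]).Realize v xs ↔
      Structure.RelMap R ![xs a, xs b, xs c] := by
  have h : (fun i => ((![vr a, vr b, vr c] : Fin 3 → LU.Term (Empty ⊕ Fin n)) i).realize
      (Sum.elim v xs)) = ![xs a, xs b, xs c] := by
    funext i; fin_cases i <;> rfl
  exact iff_of_eq (congrArg (Structure.RelMap R) h)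

theorem r4 {R : LU.Relations 4} {a b c d : Fin n} :
    (BoundedFormula.rel R ![vr a, vr b, vr c, vr d]).Realize v xs ↔
      Structure.RelMap R ![xs a, xs b, xs c, xs d] := by
  have h : (fun i => ((![vr a, vr b, vr c, vr d] : Fin 4 → LU.Term (Empty ⊕ Fin n)) i).realize
      (Sum.elim v xs)) = ![xs a, xs b, xs c, xs d] := by
    funext i; fin_cases i <;> rfl
  exact iff_of_eq (congrArg (Structure.RelMap R) h)

end real

section lemmas

variable {M : Type} [LU.Structure M]

theorem toL_real [Nonempty M] (φ : Fml) : ∀ (n : ℕ) (e : ℕ → Fin n) (v : Empty → M)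
    (xs : Fin n → M),
    (toL φ n e).Realize v xs ↔ Fm.Sat (arS M) φ (fun x => xs (e x)) := by
  induction φ with
  | bot => intro n e v xs; exact Iff.rfl
  | eq x y => intro n e v xs; exact Iff.rfl
  | zero x => intro n e v xs; exact r1
  | succ x y => intro n e v xs; exact r2
  | add x y z => intro n e v xs; exact r3
  | mul x y z => intro n e v xs; exact r3
  | op i a b c d => intro n e v xs; exact Iff.rfl
  | imp φ ψ ih1 ih2 =>
    intro n e v xs
    exact imp_congr (ih1 n e v xs) (ih2 n e v xs)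
  | all x φ ih =>
    intro n e v xs
    refine forall_congr' fun a => (ih (n + 1) _ v _).trans ?_
    have h : (fun y => (Fin.snoc xs a : Fin (n + 1) → M)
        (upd (fun y => (e y).castSucc) x (Fin.last n) y)) = upd (fun y => xs (e y)) x a := by
      funext y
      by_cases hy : y = x
      · subst hy
        rw [Pool.Agent.TH672.upd_same, Pool.Agent.TH672.upd_same, Fin.snoc_last]
      · rw [Pool.Agent.TH672.upd_ne _ _ hy, Pool.Agent.TH672.upd_ne _ _ hy, Fin.snoc_castSucc]
    exact iff_of_eq (congrArg (Fm.Sat (arS M) φ) h)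

theorem tyF_real (s : ℕ) : ∀ (n : ℕ) (y : Fin n) (v : Empty → M) (xs : Fin n → M),
    (tyF s y).Realize v xs ↔ TyS M s (xs y) := by
  induction s with
  | zero => intro n y v xs; exact r1
  | succ s ih =>
    intro n y v xs
    rw [tyF, BoundedFormula.realize_ex, TyS]
    refine exists_congr fun a => ?_
    rw [BoundedFormula.realize_inf, BoundedFormula.realize_not, r2, ih, Fin.snoc_last,
      Fin.snoc_castSucc]

theorem numF_real (s : ℕ) : ∀ (n : ℕ) (y : Fin n) (v : Empty → M) (xs : Fin n → M),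
    (numF s y).Realize v xs ↔ NumS M s (xs y) := by
  induction s with
  | zero => intro n y v xs; exact r1
  | succ s ih =>
    intro n y v xs
    rw [numF, BoundedFormula.realize_ex, NumS]
    refine exists_congr fun a => ?_
    rw [BoundedFormula.realize_inf, r2, ih, Fin.snoc_last, Fin.snoc_castSucc]

theorem axE_real : M ⊨ axE ↔
    ∃ x : M, ∀ y : M, ¬ Structure.RelMap (L := LU) URel.mem ![y, x] := by
  change BoundedFormula.Realize (M := M) (∃' ∀' ∼(.rel URel.mem ![vr 1, vr 0]) :
    LU.BoundedFormula Empty 0) default default ↔ _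
  rw [BoundedFormula.realize_ex]
  refine exists_congr fun x => ?_
  rw [BoundedFormula.realize_all]
  refine forall_congr' fun y => ?_
  rw [BoundedFormula.realize_not, r2]
  exact Iff.rfl

theorem axAdj_real : M ⊨ axAdj ↔
    ∀ x y : M, ∃ z : M, ∀ w : M, Structure.RelMap (L := LU) URel.mem ![w, z] ↔
    (Structure.RelMap (L := LU) URel.mem ![w, x] ∨ w = y) := by
  change BoundedFormula.Realize (M := M) (∀' ∀' ∃' ∀' ((.rel URel.mem ![vr 3, vr 2]) ⇔
    ((.rel URel.mem ![vr 3, vr 0]) ⊔ (.equal (vr 3) (vr 1)))) :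
    LU.BoundedFormula Empty 0) default default ↔ _
  rw [BoundedFormula.realize_all]
  refine forall_congr' fun x => ?_
  rw [BoundedFormula.realize_all]
  refine forall_congr' fun y => ?_
  rw [BoundedFormula.realize_ex]
  refine exists_congr fun z => ?_
  rw [BoundedFormula.realize_all]
  refine forall_congr' fun w => ?_
  rw [BoundedFormula.realize_iff, BoundedFormula.realize_sup, r2, r2]
  exact Iff.rfl

theorem axQ_real [Nonempty M] (ψ : Fml) (hψ : ψ.Closed) :
    M ⊨ axQ ψ ↔ ∀ v : ℕ → M, Fm.Sat (arS M) ψ v := by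
  change BoundedFormula.Realize (M := M) (∀' (toL ψ 1 (fun _ => 0)) :
    LU.BoundedFormula Empty 0) default default ↔ _
  rw [BoundedFormula.realize_all]
  constructor
  · intro h v
    have h1 := (toL_real ψ 1 _ _ _).1 (h (Classical.arbitrary M))
    exact (Pool.Agent.TH838.J1549.sat_cong (S := arS M) fun x hx => absurd hx (hψ x)).1 h1
  · intro h a
    exact (toL_real ψ 1 _ _ _).2 (h _)

theorem part1_real (i : ℕ) (v : Empty → M) (x : M) (xs : Fin 1 → M) (hx : xs 0 = x) :
    (part1 i).Realize v xs ↔ ∃ j d r : M, Structure.RelMap (L := LU) URel.zero ![j] ∧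
    Structure.RelMap (L := LU) URel.rt ![r, x, j, d] ∧ TyS M i r := by
  subst hx
  rw [part1, BoundedFormula.realize_ex]
  refine exists_congr fun j => ?_
  rw [BoundedFormula.realize_ex]
  refine exists_congr fun d => ?_
  rw [BoundedFormula.realize_ex]
  refine exists_congr fun r => ?_
  rw [BoundedFormula.realize_inf, BoundedFormula.realize_inf, r1, r4, tyF_real]
  exact Iff.rfl

theorem part2_real (i : ℕ) (v : Empty → M) (x : M) (xs : Fin 1 → M) (hx : xs 0 = x) :
    (part2 i).Realize v xs ↔ ∀ j d r : M,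
    Structure.RelMap (L := LU) URel.rt ![r, x, j, d] → TyS M i r →
    ∃ j' d' r' : M, Structure.RelMap (L := LU) URel.succ ![j, j'] ∧
      Structure.RelMap (L := LU) URel.rt ![r', x, j', d'] ∧ TyS M i r' := by
  subst hx
  rw [part2, BoundedFormula.realize_all]
  refine forall_congr' fun j => ?_
  rw [BoundedFormula.realize_all]
  refine forall_congr' fun d => ?_
  rw [BoundedFormula.realize_all]
  refine forall_congr' fun r => ?_
  rw [BoundedFormula.realize_imp, BoundedFormula.realize_imp, r4, tyF_real]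
  refine imp_congr Iff.rfl (imp_congr Iff.rfl ?_)
  rw [BoundedFormula.realize_ex]
  refine exists_congr fun j' => ?_
  rw [BoundedFormula.realize_ex]
  refine exists_congr fun d' => ?_
  rw [BoundedFormula.realize_ex]
  refine exists_congr fun r' => ?_
  rw [BoundedFormula.realize_inf, BoundedFormula.realize_inf, r2, r4, tyF_real]
  exact Iff.rfl

theorem part3_real [Nonempty M] (P : Fml) (i : ℕ) (v : Empty → M) (x : M) (xs : Fin 1 → M)
    (hx : xs 0 = x) :
    (part3 P i).Realize v xs ↔ ∀ j d r : M,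
    Structure.RelMap (L := LU) URel.rt ![r, x, j, d] → TyS M i r →
    ¬ Fm.Sat (arS M) P (fun y => if y = 3 then j else x) := by
  subst hx
  rw [part3, BoundedFormula.realize_all]
  refine forall_congr' fun j => ?_
  rw [BoundedFormula.realize_all]
  refine forall_congr' fun d => ?_
  rw [BoundedFormula.realize_all]
  refine forall_congr' fun r => ?_
  rw [BoundedFormula.realize_imp, BoundedFormula.realize_imp, r4, tyF_real,
    BoundedFormula.realize_not, toL_real]
  refine imp_congr Iff.rfl (imp_congr Iff.rfl (not_congr ?_))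
  have h : (fun y => (Fin.snoc (Fin.snoc (Fin.snoc xs j : Fin 2 → M) d : Fin 3 → M) r : Fin 4 → M)
      (env y)) = fun y => if y = 3 then j else xs 0 := by
    funext y
    unfold env
    by_cases hy : y = 3
    · rw [if_pos hy, if_pos hy]; rfl
    · rw [if_neg hy, if_neg hy]; rfl
  exact iff_of_eq (congrArg (Fm.Sat (arS M) P) h)

theorem axA_real [Nonempty M] (P : Fml) (i : ℕ) : M ⊨ axA P i ↔
    ∀ x : M, NumS M i x → (∃ j d r : M, Structure.RelMap (L := LU) URel.zero ![j] ∧
      Structure.RelMap (L := LU) URel.rt ![r, x, j, d] ∧ TyS M i r) ∧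
    (∀ j d r : M, Structure.RelMap (L := LU) URel.rt ![r, x, j, d] → TyS M i r →
      ∃ j' d' r' : M, Structure.RelMap (L := LU) URel.succ ![j, j'] ∧
      Structure.RelMap (L := LU) URel.rt ![r', x, j', d'] ∧ TyS M i r') ∧
    ∀ j d r : M, Structure.RelMap (L := LU) URel.rt ![r, x, j, d] → TyS M i r →
      ¬ Fm.Sat (arS M) P (fun y => if y = 3 then j else x) := by
  change BoundedFormula.Realize (M := M) (∀' (numF i (0 : Fin 1) ⟹
    (part1 i ⊓ (part2 i ⊓ part3 P i))) : LU.BoundedFormula Empty 0) default default ↔ _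
  rw [BoundedFormula.realize_all]
  refine forall_congr' fun x => ?_
  rw [BoundedFormula.realize_imp, BoundedFormula.realize_inf, BoundedFormula.realize_inf,
    numF_real, part1_real i _ x _ rfl, part2_real i _ x _ rfl, part3_real P i _ x _ rfl]
  exact Iff.rfl

end lemmas

theorem utIff : UTIff := by
  intro P M _ _
  rw [Theory.model_iff]
  constructor
  · intro h
    have hE : M ⊨ axE := h _ (Or.inl (Or.inl (Or.inl rfl)))
    have hAdj : M ⊨ axAdj := h _ (Or.inl (Or.inl (Or.inr rfl)))
    have hQ : ∀ ψ ∈ TH636.BC.robinson, M ⊨ axQ ψ := fun ψ hψ => h _ (Or.inl (Or.inr ⟨ψ, hψ, rfl⟩))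
    have hA : ∀ i, M ⊨ axA P i := fun i => h _ (Or.inr ⟨i, rfl⟩)
    refine ⟨axE_real.1 hE, axAdj_real.1 hAdj, fun ψ hψ =>
      (axQ_real ψ (Pool.Agent.TH838.J1549.closed_robinson ψ hψ)).1 (hQ ψ hψ), ?_, ?_, ?_⟩
    · intro i x hx; exact ((axA_real P i).1 (hA i) x hx).1
    · intro i x hx; exact ((axA_real P i).1 (hA i) x hx).2.1
    · intro i x hx; exact ((axA_real P i).1 (hA i) x hx).2.2
  · intro h φ hφ
    rcases hφ with (hφ | ⟨ψ, hψ, rfl⟩) | ⟨i, rfl⟩
    · rcases hφ with rfl | hφ
      · exact axE_real.2 h.e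
      · rw [Set.mem_singleton_iff] at hφ
        subst hφ
        exact axAdj_real.2 h.adj
    · exact (axQ_real ψ (Pool.Agent.TH838.J1549.closed_robinson ψ hψ)).2 (h.q ψ hψ)
    · exact (axA_real P i).2 fun x hx => ⟨h.a1 i x hx, h.a2 i x hx, h.a3 i x hx⟩

theorem utSeq : UTSeq := by
  intro P
  refine ⟨Relations.formula₂ (L := LU) URel.mem (Term.var 0) (Term.var 1), ?_⟩
  intro M _ _ hM
  have h := (utIff P M).1 hM
  have key : ∀ a b : M, (Relations.formula₂ (L := LU) URel.mem (Term.var (0 : Fin 2))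
      (Term.var 1)).Realize ![a, b] ↔ Structure.RelMap (L := LU) URel.mem ![a, b] := by
    intro a b
    rw [Formula.realize_rel₂]
    exact Iff.rfl
  simp only [key]
  exact ⟨h.e, h.adj⟩

theorem luFin : LUFin := by
  refine ⟨?_, ?_⟩
  · have : IsEmpty (Σ n, LU.Functions n) := ⟨fun p => Empty.elim p.2⟩
    infer_instance
  · let f : Fin 8 → (Σ n, LU.Relations n) := fun i =>
      (![⟨2, URel.mem⟩, ⟨2, URel.ch⟩, ⟨1, URel.col⟩, ⟨4, URel.rt⟩, ⟨1, URel.zero⟩, ⟨2, URel.succ⟩,
        ⟨3, URel.add⟩, ⟨3, URel.mul⟩] : Fin 8 → (Σ n, URel n)) i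
    refine Finite.of_surjective f ?_
    rintro ⟨n, R⟩
    change URel n at R
    cases R with
    | mem => exact ⟨0, rfl⟩
    | ch => exact ⟨1, rfl⟩
    | col => exact ⟨2, rfl⟩
    | rt => exact ⟨3, rfl⟩
    | zero => exact ⟨4, rfl⟩
    | succ => exact ⟨5, rfl⟩
    | add => exact ⟨6, rfl⟩
    | mul => exact ⟨7, rfl⟩

end Pool.Agent.Helper364_SP.UTSm
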