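import Pool.Agent.TH636.BC.Defs

/-!
# The nice structures: semantic axioms

The structures `S : Str ℕ` are used with the following symbols.
`op 1 x y y y`: `x` is a member of `y`;
`op 2 x y y y`: `y` is a child of the node `x`;
`op 3 r i j d`: `r` is the root of the tree of level `i` at `(j, d)`;
`op 4 x x x x`: the leaf `x` is coloured (internal colouring);
`op 5 x x x x`: `x` is a number;
`op 6 r r r r`: the root `r` has type `1` (internal types);
`op 7 x x x x`: the node `x` has type `1` if its root has type `0`;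
`op 8 x x x x`: the node `x` has type `1` if its root has type `1`;
`op 9 x r r r`: `r` is the root of the node `x`;
`op 10 x k k k`: the node `x` has height `k`;
`op 11 p r r r`: `r` belongs to the domain of the condition `p`;
`op 12 p r r r`: the root `r` has the type `1` in the condition `p`;
`op 13 f x y y`: `f` maps `x` to `y`;
`op 14 k p q f`: `f` is a matching of quality `k` between the conditions `p` and `q`;
`op 15 x y z z`: `z` is the pair of `x` and `y`;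
`op 16 i i i i`: the number `i` is smaller than `n`;
`op 17 i i i i`: `i` is the number `n`;
`op 18 i i i i`: `i` is the number `c`;
`op 19 p x x x`: all roots of nodes occurring in `x` belong to the domain of the condition `p`;
`op 20 r r r r`: `r` is a root of level smaller than `n`.
-/

set_option autoImplicit false

namespace Pool.Agent.Helper364_SP

open Pool.Agent.TH672 (Fm Str upd)
open Pool.Agent.TH636.BC (Fml)

/-- the assignment used for the formula `P`: the variable `2` is `c`, the variable `3` is `j`, the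
other variables (in particular the variable `4`) are `i` -/
def as3 {M : Type} (c j i : M) (x : ℕ) : M := if x = 2 then c else if x = 3 then j else i

/-- The axioms of the nice structures, without Robinson arithmetic. -/
structure AxSem (P : Fml) (S : Str ℕ) : Prop where
  -- membership, pairs, numbers
  as1 : ∃ x, ∀ y, ¬ S.op 1 y x x x
  as2 : ∀ x y, ∃ z, ∀ w, S.op 1 w z z z ↔ (S.op 1 w x x x ∨ w = y)
  cons1 : ∀ x y, ∃ z, S.op 15 x y z z
  cons2 : ∀ x y x' y' z, S.op 15 x y z z → S.op 15 x' y' z z → x = x' ∧ y = y'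
  n1 : ∀ x, S.zero x → S.op 5 x x x x
  n2 : ∀ x y, S.op 5 x x x x → S.succ x y → S.op 5 y y y y
  -- trees
  rt1 : ∀ i j d, S.op 5 i i i i → S.op 5 j j j j → S.op 5 d d d d → ∃ r, S.op 3 r i j d
  rt2 : ∀ r i j d i' j' d', S.op 3 r i j d → S.op 3 r i' j' d' → i = i' ∧ j = j' ∧ d = d'
  rt3 : ∀ r r' i j d, S.op 3 r i j d → S.op 3 r' i j d → r = r'
  rt4 : ∀ r i j d, S.op 3 r i j d → S.op 9 r r r r ∧ S.op 10 r i i i ∧ S.op 8 r r r r ∧
    ¬ S.op 7 r r r r
  ro1 : ∀ v r r', S.op 9 v r r r → S.op 9 v r' r' r' → r = r'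
  ro2 : ∀ v k, S.op 10 v k k k → ∃ r, S.op 9 v r r r
  cd1 : ∀ v k k', S.op 10 v k k k → S.op 10 v k' k' k' → k = k'
  ch1 : ∀ v r k' z, S.op 9 v r r r → S.op 10 v k' k' k' → S.op 2 v z z z →
    S.op 9 z r r r ∧ ∃ k, S.succ k k' ∧ S.op 10 z k k k
  ch2 : ∀ v r k k', S.op 9 v r r r → S.op 10 v k' k' k' → S.succ k k' →
    (S.op 8 v v v v ↔ ∃ z, S.op 2 v z z z ∧ ¬ S.op 8 z z z z) ∧
    (S.op 7 v v v v ↔ ∃ z, S.op 2 v z z z ∧ ¬ S.op 7 z z z z)
  pt : ∀ v, S.op 4 v v v v ↔ ∃ r k, S.op 9 v r r r ∧ S.op 10 v k k k ∧ S.zero k ∧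
    ((S.op 6 r r r r ∧ S.op 8 v v v v) ∨ (¬ S.op 6 r r r r ∧ S.op 7 v v v v))
  -- the low levels
  ln0 : ∀ x y, S.op 17 x x x x → S.op 17 y y y y → x = y
  ln1 : ∀ x, S.op 17 x x x x → ¬ S.op 16 x x x x
  ln2 : ∀ x y, S.succ x y → S.op 16 x x x x → ¬ S.op 17 y y y y → S.op 16 y y y y
  ln3 : ∀ x, S.zero x → ¬ S.op 17 x x x x → S.op 16 x x x x
  ln4 : ∀ x y, S.succ x y → ¬ S.op 16 x x x x → ¬ S.op 16 y y y y
  lw : ∀ r i j d, S.op 3 r i j d → (S.op 20 r r r r ↔ S.op 16 i i i i)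
  ct1 : ∀ r, S.op 6 r r r r → S.op 20 r r r r
  cut1 : ∀ i, S.op 16 i i i i → ∃ j d r, S.zero j ∧ S.op 3 r i j d ∧ S.op 6 r r r r
  cut2 : ∀ i j d r, S.op 16 i i i i → S.op 3 r i j d → S.op 6 r r r r →
    ∃ j' d' r', S.succ j j' ∧ S.op 3 r' i j' d' ∧ S.op 6 r' r' r' r'
  nh : ∀ i j d r c, S.op 16 i i i i → S.op 3 r i j d → S.op 6 r r r r → S.op 18 c c c c →
    ¬ Fm.Sat S P (as3 c j i)
  -- conditions
  dm1 : ∀ p q x, ∃ p', (∀ r, S.op 11 p r r r → S.op 11 p' r r r) ∧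
    (∀ r, S.op 11 q r r r → S.op 11 p' r r r) ∧ S.op 19 p' x x x
  dm2 : ∀ p, ∃ p', (∀ r, S.op 11 p r r r ↔ S.op 11 p' r r r) ∧
    ∀ r, S.op 11 p' r r r → (S.op 12 p' r r r ↔ S.op 6 r r r r)
  dm3 : ∀ p r', ∃ p', (∀ r, S.op 11 p r r r ↔ S.op 11 p' r r r) ∧
    ∀ r, S.op 11 p' r r r → (S.op 12 p' r r r ↔ (S.op 12 p r r r ∨ r = r'))
  dm4 : ∀ p, ∃ d, S.op 5 d d d d ∧ ∀ r i j, S.op 3 r i j d → ¬ S.op 11 p r r r
  cov1 : ∀ p p' x, S.op 19 p x x x → (∀ r, S.op 11 p r r r → S.op 11 p' r r r) →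
    S.op 19 p' x x x
  -- matchings
  mt1 : ∀ k p q f p' q', S.op 14 k p q f →
    (∀ r, S.op 11 p r r r → S.op 11 p' r r r ∧ (S.op 12 p r r r ↔ S.op 12 p' r r r)) →
    (∀ r, S.op 11 q r r r → S.op 11 q' r r r ∧ (S.op 12 q r r r ↔ S.op 12 q' r r r)) →
    (∀ r, S.op 11 p' r r r ↔ S.op 11 q' r r r) →
    (∀ r, S.op 11 p' r r r → S.op 20 r r r r → (S.op 12 p' r r r ↔ S.op 12 q' r r r)) →
    S.op 14 k p' q' f
  mt2 : ∀ k p q, S.op 16 k k k k → (∀ r, S.op 11 p r r r ↔ S.op 11 q r r r) →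
    (∀ r, S.op 11 p r r r → S.op 20 r r r r → (S.op 12 p r r r ↔ S.op 12 q r r r)) →
    ∃ f, S.op 14 k p q f
  ef1 : ∀ k k' p q f x, S.succ k k' → S.op 16 k' k' k' k' → S.op 14 k' p q f →
    S.op 19 p x x x → ∃ f' y, (∀ a b, S.op 13 f a b b → S.op 13 f' a b b) ∧
      S.op 14 k p q f' ∧ S.op 13 f' x y y
  ef2 : ∀ k k' p q f y, S.succ k k' → S.op 16 k' k' k' k' → S.op 14 k' p q f →
    S.op 19 q y y y → ∃ f' x, (∀ a b, S.op 13 f a b b → S.op 13 f' a b b) ∧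
      S.op 14 k p q f' ∧ S.op 13 f' x y y
  sym : ∀ k k' p q f g, S.succ k k' → S.op 16 k' k' k' k' → S.op 14 k' p q f →
    S.op 14 k' p q g → ∃ e e', S.op 14 k q q e ∧ S.op 14 k q q e' ∧
      (∀ u u', S.op 13 f u u' u' → S.op 13 g u u' u' →
        S.op 13 e u' u' u' ∧ S.op 13 e' u' u' u') ∧
      ∀ x x1 x2, S.op 13 f x x1 x1 → S.op 13 g x x2 x2 →
        ∃ y, S.op 13 e x1 y y ∧ S.op 13 e y x1 x1 ∧ S.op 13 e' y x2 x2 ∧ S.op 13 e' x2 y y
  at2 : ∀ k p q f x y x' y', S.op 14 k p q f → S.op 13 f x x' x' → S.op 13 f y y' y' →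
    (x = y ↔ x' = y') ∧ (S.op 1 x y y y ↔ S.op 1 x' y' y' y') ∧
    (S.op 2 x y y y ↔ S.op 2 x' y' y' y') ∧ (S.succ x y ↔ S.succ x' y') ∧
    (S.zero x ↔ S.zero x')
  at3 : ∀ k p q f x y z x' y' z', S.op 14 k p q f → S.op 13 f x x' x' → S.op 13 f y y' y' →
    S.op 13 f z z' z' → (S.add x y z ↔ S.add x' y' z') ∧ (S.mul x y z ↔ S.mul x' y' z')
  at4 : ∀ k p q f x y z w x' y' z' w', S.op 14 k p q f → S.op 13 f x x' x' →
    S.op 13 f y y' y' → S.op 13 f z z' z' → S.op 13 f w w' w' →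
    (S.op 3 x y z w ↔ S.op 3 x' y' z' w')
  lf1 : ∀ k p q f x x' m, S.op 14 k p q f → S.op 13 f x x' x' → S.zero m →
    (S.op 10 x m m m ↔ S.op 10 x' m m m)
  lf2 : ∀ k p q f x x' m r, S.op 14 k p q f → S.op 13 f x x' x' → S.zero m →
    S.op 10 x m m m → S.op 9 x r r r → S.op 9 x' r r r ∧ S.op 11 p r r r ∧ S.op 11 q r r r ∧
    (((S.op 12 p r r r ∧ S.op 8 x x x x) ∨ (¬ S.op 12 p r r r ∧ S.op 7 x x x x)) ↔
      ((S.op 12 q r r r ∧ S.op 8 x' x' x' x') ∨ (¬ S.op 12 q r r r ∧ S.op 7 x' x' x' x')))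

/-! ### Uniform definability -/

/-- All symbols `op i` that occur in the formula satisfy `i < k`. -/
def OpB (k : ℕ) : Fml → Prop
  | .op i _ _ _ _ => i < k
  | .imp φ ψ => OpB k φ ∧ OpB k ψ
  | .all _ φ => OpB k φ
  | _ => True

theorem OpB.of_arith {k : ℕ} : ∀ {φ : Fml}, TH636.BC.Arith φ → OpB k φ
  | .bot, _ => trivial
  | .eq _ _, _ => trivial
  | .zero _, _ => trivial
  | .succ _ _, _ => trivial
  | .add _ _ _, _ => trivial
  | .mul _ _ _, _ => trivial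
  | .op _ _ _ _ _, h => absurd h id
  | .imp _ _, h => ⟨OpB.of_arith h.1, OpB.of_arith h.2⟩
  | .all _ φ, h => OpB.of_arith (φ := φ) h

/-- The relation `R` is defined by the same formula in all structures, for every choice of the
names of the variables; the formula has no other free variables and contains only the symbols
`op i` with `i < 100`. -/
def UD {β : Type} (R : ∀ S : Str ℕ, (β → S.M) → Prop) : Prop :=
  ∀ e : β → ℕ, ∃ φ : Fml, OpB 100 φ ∧ (∀ x, φ.Free x → ∃ b, e b = x) ∧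
    ∀ (S : Str ℕ) (v : ℕ → S.M), Fm.Sat S φ v ↔ R S (fun b => v (e b))

namespace UD

variable {β : Type}

theorem eq (a b : β) : UD (fun S (w : β → S.M) => w a = w b) :=
  fun e => ⟨.eq (e a) (e b), trivial, by
    rintro x (h | h)
    · exact ⟨a, h.symm⟩
    · exact ⟨b, h.symm⟩, fun _ _ => Iff.rfl⟩

theorem zero (a : β) : UD (fun S (w : β → S.M) => S.zero (w a)) :=
  fun e => ⟨.zero (e a), trivial, fun _ h => ⟨a, Eq.symm h⟩, fun _ _ => Iff.rfl⟩

theorem succ (a b : β) : UD (fun S (w : β → S.M) => S.succ (w a) (w b)) :=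
  fun e => ⟨.succ (e a) (e b), trivial, by
    rintro x (h | h)
    · exact ⟨a, h.symm⟩
    · exact ⟨b, h.symm⟩, fun _ _ => Iff.rfl⟩

theorem add (a b c : β) : UD (fun S (w : β → S.M) => S.add (w a) (w b) (w c)) :=
  fun e => ⟨.add (e a) (e b) (e c), trivial, by
    rintro x (h | h | h)
    · exact ⟨a, h.symm⟩
    · exact ⟨b, h.symm⟩
    · exact ⟨c, h.symm⟩, fun _ _ => Iff.rfl⟩

theorem mul (a b c : β) : UD (fun S (w : β → S.M) => S.mul (w a) (w b) (w c)) :=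
  fun e => ⟨.mul (e a) (e b) (e c), trivial, by
    rintro x (h | h | h)
    · exact ⟨a, h.symm⟩
    · exact ⟨b, h.symm⟩
    · exact ⟨c, h.symm⟩, fun _ _ => Iff.rfl⟩

theorem op (i : ℕ) (a b c d : β) (hi : i < 100) :
    UD (fun S (w : β → S.M) => S.op i (w a) (w b) (w c) (w d)) :=
  fun e => ⟨.op i (e a) (e b) (e c) (e d), hi, by
    rintro x (h | h | h | h)
    · exact ⟨a, h.symm⟩
    · exact ⟨b, h.symm⟩
    · exact ⟨c, h.symm⟩
    · exact ⟨d, h.symm⟩, fun _ _ => Iff.rfl⟩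

theorem false' : UD (fun S (_ : β → S.M) => False) :=
  fun _ => ⟨.bot, trivial, fun _ h => absurd h id, fun _ _ => Iff.rfl⟩

theorem imp {R R' : ∀ S : Str ℕ, (β → S.M) → Prop} (h : UD R) (h' : UD R') :
    UD (fun S w => R S w → R' S w) := by
  intro e
  obtain ⟨φ, h1, h2, hφ⟩ := h e
  obtain ⟨ψ, h1', h2', hψ⟩ := h' e
  exact ⟨.imp φ ψ, ⟨h1, h1'⟩, fun x hx => hx.elim (h2 x) (h2' x),
    fun S v => by rw [Fm.sat_imp, hφ, hψ]⟩

theorem not {R : ∀ S : Str ℕ, (β → S.M) → Prop} (h : UD R) : UD (fun S w => ¬ R S w) :=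
  h.imp false'

theorem of_iff {R R' : ∀ S : Str ℕ, (β → S.M) → Prop} (h : UD R)
    (hR : ∀ S w, R S w ↔ R' S w) : UD R' := by
  intro e
  obtain ⟨φ, h1, h2, hφ⟩ := h e
  exact ⟨φ, h1, h2, fun S v => by rw [hφ, hR]⟩

theorem and {R R' : ∀ S : Str ℕ, (β → S.M) → Prop} (h : UD R) (h' : UD R') :
    UD (fun S w => R S w ∧ R' S w) :=
  (h.imp h'.not).not.of_iff fun S w => by tauto

theorem or {R R' : ∀ S : Str ℕ, (β → S.M) → Prop} (h : UD R) (h' : UD R') :
    UD (fun S w => R S w ∨ R' S w) :=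
  (h.not.imp h').of_iff fun S w => by tauto

theorem iff {R R' : ∀ S : Str ℕ, (β → S.M) → Prop} (h : UD R) (h' : UD R') :
    UD (fun S w => R S w ↔ R' S w) :=
  ((h.imp h').and (h'.imp h)).of_iff fun S w => by tauto

theorem fresh [Finite β] (e : β → ℕ) : ∃ x, ∀ b, e b ≠ x := by
  obtain ⟨x, hx⟩ := (Set.finite_range e).exists_notMem
  exact ⟨x, fun b h => hx ⟨b, h⟩⟩

theorem all [Finite β] {R : ∀ S : Str ℕ, (β → S.M) → S.M → Prop}
    (h : UD (fun S (w : Option β → S.M) => R S (fun b => w (some b)) (w none))) :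
    UD (fun S w => ∀ a, R S w a) := by
  intro e
  obtain ⟨x, hx⟩ := fresh e
  obtain ⟨φ, h1, h2, hφ⟩ := h (fun o => o.elim x e)
  refine ⟨.all x φ, h1, ?_, fun S v => ?_⟩
  · rintro y ⟨hy1, hy2⟩
    obtain ⟨o, ho⟩ := h2 y hy2
    cases o with
    | none => exact absurd ho.symm hy1
    | some b => exact ⟨b, ho⟩
  rw [Fm.sat_all]
  refine forall_congr' fun a => ?_
  rw [hφ]
  simp only [Option.elim_some, Option.elim_none, TH672.upd_same]
  have : (fun b => upd v x a (e b)) = fun b => v (e b) := by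
    funext b
    exact TH672.upd_ne v a (hx b)
  rw [this]

theorem ex [Finite β] {R : ∀ S : Str ℕ, (β → S.M) → S.M → Prop}
    (h : UD (fun S (w : Option β → S.M) => R S (fun b => w (some b)) (w none))) :
    UD (fun S w => ∃ a, R S w a) :=
  (all (R := fun S w a => ¬ R S w a) h.not).not.of_iff fun S w => by
    simp only [not_forall, not_not]

end UD

end Pool.Agent.Helper364_SP
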