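import Pool.Agent.Helper364_SP.AxSem

/-!
# The axioms of the nice structures are given by one formula
-/

set_option autoImplicit false

namespace Pool.Agent.Helper364_SP

open Pool.Agent.TH672 (Fm Str upd)
open Pool.Agent.TH636.BC (Fml)

theorem UD.sat : ∀ (φ : Fml) (_ : OpB 100 φ) {β : Type} [Finite β] (g : ℕ → β),
    UD (fun S (w : β → S.M) => Fm.Sat S φ (fun x => w (g x)))
  | .bot, _, _, _, _ => UD.false'
  | .eq x y, _, _, _, g => UD.eq (g x) (g y)
  | .zero x, _, _, _, g => UD.zero (g x)
  | .succ x y, _, _, _, g => UD.succ (g x) (g y)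
  | .add x y z, _, _, _, g => UD.add (g x) (g y) (g z)
  | .mul x y z, _, _, _, g => UD.mul (g x) (g y) (g z)
  | .op i a b c d, h, _, _, g => UD.op i (g a) (g b) (g c) (g d) h
  | .imp φ ψ, h, _, _, g => (UD.sat φ h.1 g).imp (UD.sat ψ h.2 g)
  | .all x φ, h, β, _, g => by
    refine UD.all (R := fun S w a => Fm.Sat S φ (upd (fun x => w (g x)) x a)) ?_
    refine (UD.sat φ h (β := Option β) (fun y => if y = x then none else some (g y))).of_iff ?_
    intro S w
    have : (fun y => w (if y = x then none else some (g y))) =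
        upd (fun x => w (some (g x))) x (w none) := by
      funext y
      unfold upd
      split_ifs <;> rfl
    rw [this]

theorem UD.sat3 (P : Fml) (hP : OpB 100 P) {β : Type} [Finite β] (a b c : β) :
    UD (fun S (w : β → S.M) => Fm.Sat S P (as3 (w a) (w b) (w c))) := by
  refine (UD.sat P hP (fun x => if x = 2 then a else if x = 3 then b else c)).of_iff fun S w => ?_
  have : (fun x => w (if x = 2 then a else if x = 3 then b else c)) =
      as3 (w a) (w b) (w c) := by
    funext x
    unfold as3
    split_ifs <;> rfl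
  rw [this]

theorem ud_as1 : UD (β := Empty) (fun S _ =>
    ∃ x, ∀ y, ¬ S.op 1 y x x x) := by
  repeat' first
    | exact UD.op _ _ _ _ _ (by decide)
    | exact UD.succ _ _
    | exact UD.zero _
    | exact UD.eq _ _
    | exact UD.add _ _ _
    | exact UD.mul _ _ _
    | exact UD.sat3 _ (by assumption) _ _ _
    | exact UD.false'
    | apply UD.imp
    | apply UD.and
    | apply UD.or
    | apply UD.not
    | apply UD.iff
    | apply UD.ex
    | apply UD.all


theorem ud_as2 : UD (β := Empty) (fun S _ =>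
    ∀ x y, ∃ z, ∀ w, S.op 1 w z z z ↔ (S.op 1 w x x x ∨ w = y)) := by
  repeat' first
    | exact UD.op _ _ _ _ _ (by decide)
    | exact UD.succ _ _
    | exact UD.zero _
    | exact UD.eq _ _
    | exact UD.add _ _ _
    | exact UD.mul _ _ _
    | exact UD.sat3 _ (by assumption) _ _ _
    | exact UD.false'
    | apply UD.imp
    | apply UD.and
    | apply UD.or
    | apply UD.not
    | apply UD.iff
    | apply UD.ex
    | apply UD.all


theorem ud_cons1 : UD (β := Empty) (fun S _ =>
    ∀ x y, ∃ z, S.op 15 x y z z) := by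
  repeat' first
    | exact UD.op _ _ _ _ _ (by decide)
    | exact UD.succ _ _
    | exact UD.zero _
    | exact UD.eq _ _
    | exact UD.add _ _ _
    | exact UD.mul _ _ _
    | exact UD.sat3 _ (by assumption) _ _ _
    | exact UD.false'
    | apply UD.imp
    | apply UD.and
    | apply UD.or
    | apply UD.not
    | apply UD.iff
    | apply UD.ex
    | apply UD.all


theorem ud_cons2 : UD (β := Empty) (fun S _ =>
    ∀ x y x' y' z, S.op 15 x y z z → S.op 15 x' y' z z → x = x' ∧ y = y') := by
  repeat' first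
    | exact UD.op _ _ _ _ _ (by decide)
    | exact UD.succ _ _
    | exact UD.zero _
    | exact UD.eq _ _
    | exact UD.add _ _ _
    | exact UD.mul _ _ _
    | exact UD.sat3 _ (by assumption) _ _ _
    | exact UD.false'
    | apply UD.imp
    | apply UD.and
    | apply UD.or
    | apply UD.not
    | apply UD.iff
    | apply UD.ex
    | apply UD.all


theorem ud_n1 : UD (β := Empty) (fun S _ =>
    ∀ x, S.zero x → S.op 5 x x x x) := by
  repeat' first
    | exact UD.op _ _ _ _ _ (by decide)
    | exact UD.succ _ _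
    | exact UD.zero _
    | exact UD.eq _ _
    | exact UD.add _ _ _
    | exact UD.mul _ _ _
    | exact UD.sat3 _ (by assumption) _ _ _
    | exact UD.false'
    | apply UD.imp
    | apply UD.and
    | apply UD.or
    | apply UD.not
    | apply UD.iff
    | apply UD.ex
    | apply UD.all


theorem ud_n2 : UD (β := Empty) (fun S _ =>
    ∀ x y, S.op 5 x x x x → S.succ x y → S.op 5 y y y y) := by
  repeat' first
    | exact UD.op _ _ _ _ _ (by decide)
    | exact UD.succ _ _
    | exact UD.zero _
    | exact UD.eq _ _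
    | exact UD.add _ _ _
    | exact UD.mul _ _ _
    | exact UD.sat3 _ (by assumption) _ _ _
    | exact UD.false'
    | apply UD.imp
    | apply UD.and
    | apply UD.or
    | apply UD.not
    | apply UD.iff
    | apply UD.ex
    | apply UD.all


theorem ud_rt1 : UD (β := Empty) (fun S _ =>
    ∀ i j d, S.op 5 i i i i → S.op 5 j j j j → S.op 5 d d d d → ∃ r, S.op 3 r i j d) := by
  repeat' first
    | exact UD.op _ _ _ _ _ (by decide)
    | exact UD.succ _ _
    | exact UD.zero _
    | exact UD.eq _ _
    | exact UD.add _ _ _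
    | exact UD.mul _ _ _
    | exact UD.sat3 _ (by assumption) _ _ _
    | exact UD.false'
    | apply UD.imp
    | apply UD.and
    | apply UD.or
    | apply UD.not
    | apply UD.iff
    | apply UD.ex
    | apply UD.all


theorem ud_rt2 : UD (β := Empty) (fun S _ =>
    ∀ r i j d i' j' d', S.op 3 r i j d → S.op 3 r i' j' d' → i = i' ∧ j = j' ∧ d = d') := by
  repeat' first
    | exact UD.op _ _ _ _ _ (by decide)
    | exact UD.succ _ _
    | exact UD.zero _
    | exact UD.eq _ _
    | exact UD.add _ _ _
    | exact UD.mul _ _ _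
    | exact UD.sat3 _ (by assumption) _ _ _
    | exact UD.false'
    | apply UD.imp
    | apply UD.and
    | apply UD.or
    | apply UD.not
    | apply UD.iff
    | apply UD.ex
    | apply UD.all


theorem ud_rt3 : UD (β := Empty) (fun S _ =>
    ∀ r r' i j d, S.op 3 r i j d → S.op 3 r' i j d → r = r') := by
  repeat' first
    | exact UD.op _ _ _ _ _ (by decide)
    | exact UD.succ _ _
    | exact UD.zero _
    | exact UD.eq _ _
    | exact UD.add _ _ _
    | exact UD.mul _ _ _
    | exact UD.sat3 _ (by assumption) _ _ _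
    | exact UD.false'
    | apply UD.imp
    | apply UD.and
    | apply UD.or
    | apply UD.not
    | apply UD.iff
    | apply UD.ex
    | apply UD.all


theorem ud_rt4 : UD (β := Empty) (fun S _ =>
    ∀ r i j d, S.op 3 r i j d → S.op 9 r r r r ∧ S.op 10 r i i i ∧ S.op 8 r r r r ∧
    ¬ S.op 7 r r r r) := by
  repeat' first
    | exact UD.op _ _ _ _ _ (by decide)
    | exact UD.succ _ _
    | exact UD.zero _
    | exact UD.eq _ _
    | exact UD.add _ _ _
    | exact UD.mul _ _ _
    | exact UD.sat3 _ (by assumption) _ _ _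
    | exact UD.false'
    | apply UD.imp
    | apply UD.and
    | apply UD.or
    | apply UD.not
    | apply UD.iff
    | apply UD.ex
    | apply UD.all


theorem ud_ro1 : UD (β := Empty) (fun S _ =>
    ∀ v r r', S.op 9 v r r r → S.op 9 v r' r' r' → r = r') := by
  repeat' first
    | exact UD.op _ _ _ _ _ (by decide)
    | exact UD.succ _ _
    | exact UD.zero _
    | exact UD.eq _ _
    | exact UD.add _ _ _
    | exact UD.mul _ _ _
    | exact UD.sat3 _ (by assumption) _ _ _
    | exact UD.false'
    | apply UD.imp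
    | apply UD.and
    | apply UD.or
    | apply UD.not
    | apply UD.iff
    | apply UD.ex
    | apply UD.all


theorem ud_ro2 : UD (β := Empty) (fun S _ =>
    ∀ v k, S.op 10 v k k k → ∃ r, S.op 9 v r r r) := by
  repeat' first
    | exact UD.op _ _ _ _ _ (by decide)
    | exact UD.succ _ _
    | exact UD.zero _
    | exact UD.eq _ _
    | exact UD.add _ _ _
    | exact UD.mul _ _ _
    | exact UD.sat3 _ (by assumption) _ _ _
    | exact UD.false'
    | apply UD.imp
    | apply UD.and
    | apply UD.or
    | apply UD.not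
    | apply UD.iff
    | apply UD.ex
    | apply UD.all


theorem ud_cd1 : UD (β := Empty) (fun S _ =>
    ∀ v k k', S.op 10 v k k k → S.op 10 v k' k' k' → k = k') := by
  repeat' first
    | exact UD.op _ _ _ _ _ (by decide)
    | exact UD.succ _ _
    | exact UD.zero _
    | exact UD.eq _ _
    | exact UD.add _ _ _
    | exact UD.mul _ _ _
    | exact UD.sat3 _ (by assumption) _ _ _
    | exact UD.false'
    | apply UD.imp
    | apply UD.and
    | apply UD.or
    | apply UD.not
    | apply UD.iff
    | apply UD.ex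
    | apply UD.all


theorem ud_ch1 : UD (β := Empty) (fun S _ =>
    ∀ v r k' z, S.op 9 v r r r → S.op 10 v k' k' k' → S.op 2 v z z z →
    S.op 9 z r r r ∧ ∃ k, S.succ k k' ∧ S.op 10 z k k k) := by
  repeat' first
    | exact UD.op _ _ _ _ _ (by decide)
    | exact UD.succ _ _
    | exact UD.zero _
    | exact UD.eq _ _
    | exact UD.add _ _ _
    | exact UD.mul _ _ _
    | exact UD.sat3 _ (by assumption) _ _ _
    | exact UD.false'
    | apply UD.imp
    | apply UD.and
    | apply UD.or
    | apply UD.not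
    | apply UD.iff
    | apply UD.ex
    | apply UD.all


theorem ud_ch2 : UD (β := Empty) (fun S _ =>
    ∀ v r k k', S.op 9 v r r r → S.op 10 v k' k' k' → S.succ k k' →
    (S.op 8 v v v v ↔ ∃ z, S.op 2 v z z z ∧ ¬ S.op 8 z z z z) ∧
    (S.op 7 v v v v ↔ ∃ z, S.op 2 v z z z ∧ ¬ S.op 7 z z z z)) := by
  repeat' first
    | exact UD.op _ _ _ _ _ (by decide)
    | exact UD.succ _ _
    | exact UD.zero _
    | exact UD.eq _ _
    | exact UD.add _ _ _
    | exact UD.mul _ _ _
    | exact UD.sat3 _ (by assumption) _ _ _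
    | exact UD.false'
    | apply UD.imp
    | apply UD.and
    | apply UD.or
    | apply UD.not
    | apply UD.iff
    | apply UD.ex
    | apply UD.all


theorem ud_pt : UD (β := Empty) (fun S _ =>
    ∀ v, S.op 4 v v v v ↔ ∃ r k, S.op 9 v r r r ∧ S.op 10 v k k k ∧ S.zero k ∧
    ((S.op 6 r r r r ∧ S.op 8 v v v v) ∨ (¬ S.op 6 r r r r ∧ S.op 7 v v v v))) := by
  repeat' first
    | exact UD.op _ _ _ _ _ (by decide)
    | exact UD.succ _ _
    | exact UD.zero _
    | exact UD.eq _ _
    | exact UD.add _ _ _
    | exact UD.mul _ _ _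
    | exact UD.sat3 _ (by assumption) _ _ _
    | exact UD.false'
    | apply UD.imp
    | apply UD.and
    | apply UD.or
    | apply UD.not
    | apply UD.iff
    | apply UD.ex
    | apply UD.all


theorem ud_ln0 : UD (β := Empty) (fun S _ =>
    ∀ x y, S.op 17 x x x x → S.op 17 y y y y → x = y) := by
  repeat' first
    | exact UD.op _ _ _ _ _ (by decide)
    | exact UD.succ _ _
    | exact UD.zero _
    | exact UD.eq _ _
    | exact UD.add _ _ _
    | exact UD.mul _ _ _
    | exact UD.sat3 _ (by assumption) _ _ _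
    | exact UD.false'
    | apply UD.imp
    | apply UD.and
    | apply UD.or
    | apply UD.not
    | apply UD.iff
    | apply UD.ex
    | apply UD.all


theorem ud_ln1 : UD (β := Empty) (fun S _ =>
    ∀ x, S.op 17 x x x x → ¬ S.op 16 x x x x) := by
  repeat' first
    | exact UD.op _ _ _ _ _ (by decide)
    | exact UD.succ _ _
    | exact UD.zero _
    | exact UD.eq _ _
    | exact UD.add _ _ _
    | exact UD.mul _ _ _
    | exact UD.sat3 _ (by assumption) _ _ _
    | exact UD.false'
    | apply UD.imp
    | apply UD.and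
    | apply UD.or
    | apply UD.not
    | apply UD.iff
    | apply UD.ex
    | apply UD.all


theorem ud_ln2 : UD (β := Empty) (fun S _ =>
    ∀ x y, S.succ x y → S.op 16 x x x x → ¬ S.op 17 y y y y → S.op 16 y y y y) := by
  repeat' first
    | exact UD.op _ _ _ _ _ (by decide)
    | exact UD.succ _ _
    | exact UD.zero _
    | exact UD.eq _ _
    | exact UD.add _ _ _
    | exact UD.mul _ _ _
    | exact UD.sat3 _ (by assumption) _ _ _
    | exact UD.false'
    | apply UD.imp
    | apply UD.and
    | apply UD.or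
    | apply UD.not
    | apply UD.iff
    | apply UD.ex
    | apply UD.all


theorem ud_ln3 : UD (β := Empty) (fun S _ =>
    ∀ x, S.zero x → ¬ S.op 17 x x x x → S.op 16 x x x x) := by
  repeat' first
    | exact UD.op _ _ _ _ _ (by decide)
    | exact UD.succ _ _
    | exact UD.zero _
    | exact UD.eq _ _
    | exact UD.add _ _ _
    | exact UD.mul _ _ _
    | exact UD.sat3 _ (by assumption) _ _ _
    | exact UD.false'
    | apply UD.imp
    | apply UD.and
    | apply UD.or
    | apply UD.not
    | apply UD.iff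
    | apply UD.ex
    | apply UD.all


theorem ud_ln4 : UD (β := Empty) (fun S _ =>
    ∀ x y, S.succ x y → ¬ S.op 16 x x x x → ¬ S.op 16 y y y y) := by
  repeat' first
    | exact UD.op _ _ _ _ _ (by decide)
    | exact UD.succ _ _
    | exact UD.zero _
    | exact UD.eq _ _
    | exact UD.add _ _ _
    | exact UD.mul _ _ _
    | exact UD.sat3 _ (by assumption) _ _ _
    | exact UD.false'
    | apply UD.imp
    | apply UD.and
    | apply UD.or
    | apply UD.not
    | apply UD.iff
    | apply UD.ex
    | apply UD.all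


theorem ud_lw : UD (β := Empty) (fun S _ =>
    ∀ r i j d, S.op 3 r i j d → (S.op 20 r r r r ↔ S.op 16 i i i i)) := by
  repeat' first
    | exact UD.op _ _ _ _ _ (by decide)
    | exact UD.succ _ _
    | exact UD.zero _
    | exact UD.eq _ _
    | exact UD.add _ _ _
    | exact UD.mul _ _ _
    | exact UD.sat3 _ (by assumption) _ _ _
    | exact UD.false'
    | apply UD.imp
    | apply UD.and
    | apply UD.or
    | apply UD.not
    | apply UD.iff
    | apply UD.ex
    | apply UD.all


theorem ud_ct1 : UD (β := Empty) (fun S _ =>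
    ∀ r, S.op 6 r r r r → S.op 20 r r r r) := by
  repeat' first
    | exact UD.op _ _ _ _ _ (by decide)
    | exact UD.succ _ _
    | exact UD.zero _
    | exact UD.eq _ _
    | exact UD.add _ _ _
    | exact UD.mul _ _ _
    | exact UD.sat3 _ (by assumption) _ _ _
    | exact UD.false'
    | apply UD.imp
    | apply UD.and
    | apply UD.or
    | apply UD.not
    | apply UD.iff
    | apply UD.ex
    | apply UD.all


theorem ud_cut1 : UD (β := Empty) (fun S _ =>
    ∀ i, S.op 16 i i i i → ∃ j d r, S.zero j ∧ S.op 3 r i j d ∧ S.op 6 r r r r) := by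
  repeat' first
    | exact UD.op _ _ _ _ _ (by decide)
    | exact UD.succ _ _
    | exact UD.zero _
    | exact UD.eq _ _
    | exact UD.add _ _ _
    | exact UD.mul _ _ _
    | exact UD.sat3 _ (by assumption) _ _ _
    | exact UD.false'
    | apply UD.imp
    | apply UD.and
    | apply UD.or
    | apply UD.not
    | apply UD.iff
    | apply UD.ex
    | apply UD.all


theorem ud_cut2 : UD (β := Empty) (fun S _ =>
    ∀ i j d r, S.op 16 i i i i → S.op 3 r i j d → S.op 6 r r r r →
    ∃ j' d' r', S.succ j j' ∧ S.op 3 r' i j' d' ∧ S.op 6 r' r' r' r') := by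
  repeat' first
    | exact UD.op _ _ _ _ _ (by decide)
    | exact UD.succ _ _
    | exact UD.zero _
    | exact UD.eq _ _
    | exact UD.add _ _ _
    | exact UD.mul _ _ _
    | exact UD.sat3 _ (by assumption) _ _ _
    | exact UD.false'
    | apply UD.imp
    | apply UD.and
    | apply UD.or
    | apply UD.not
    | apply UD.iff
    | apply UD.ex
    | apply UD.all


theorem ud_nh (P : Fml) (hP : OpB 100 P) : UD (β := Empty) (fun S _ =>
    ∀ i j d r c, S.op 16 i i i i → S.op 3 r i j d → S.op 6 r r r r → S.op 18 c c c c →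
    ¬ Fm.Sat S P (as3 c j i)) := by
  repeat' first
    | exact UD.op _ _ _ _ _ (by decide)
    | exact UD.succ _ _
    | exact UD.zero _
    | exact UD.eq _ _
    | exact UD.add _ _ _
    | exact UD.mul _ _ _
    | exact UD.sat3 _ (by assumption) _ _ _
    | exact UD.false'
    | apply UD.imp
    | apply UD.and
    | apply UD.or
    | apply UD.not
    | apply UD.iff
    | apply UD.ex
    | apply UD.all


theorem ud_dm1 : UD (β := Empty) (fun S _ =>
    ∀ p q x, ∃ p', (∀ r, S.op 11 p r r r → S.op 11 p' r r r) ∧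
    (∀ r, S.op 11 q r r r → S.op 11 p' r r r) ∧ S.op 19 p' x x x) := by
  repeat' first
    | exact UD.op _ _ _ _ _ (by decide)
    | exact UD.succ _ _
    | exact UD.zero _
    | exact UD.eq _ _
    | exact UD.add _ _ _
    | exact UD.mul _ _ _
    | exact UD.sat3 _ (by assumption) _ _ _
    | exact UD.false'
    | apply UD.imp
    | apply UD.and
    | apply UD.or
    | apply UD.not
    | apply UD.iff
    | apply UD.ex
    | apply UD.all


theorem ud_dm2 : UD (β := Empty) (fun S _ =>
    ∀ p, ∃ p', (∀ r, S.op 11 p r r r ↔ S.op 11 p' r r r) ∧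
    ∀ r, S.op 11 p' r r r → (S.op 12 p' r r r ↔ S.op 6 r r r r)) := by
  repeat' first
    | exact UD.op _ _ _ _ _ (by decide)
    | exact UD.succ _ _
    | exact UD.zero _
    | exact UD.eq _ _
    | exact UD.add _ _ _
    | exact UD.mul _ _ _
    | exact UD.sat3 _ (by assumption) _ _ _
    | exact UD.false'
    | apply UD.imp
    | apply UD.and
    | apply UD.or
    | apply UD.not
    | apply UD.iff
    | apply UD.ex
    | apply UD.all


theorem ud_dm3 : UD (β := Empty) (fun S _ =>
    ∀ p r', ∃ p', (∀ r, S.op 11 p r r r ↔ S.op 11 p' r r r) ∧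
    ∀ r, S.op 11 p' r r r → (S.op 12 p' r r r ↔ (S.op 12 p r r r ∨ r = r'))) := by
  repeat' first
    | exact UD.op _ _ _ _ _ (by decide)
    | exact UD.succ _ _
    | exact UD.zero _
    | exact UD.eq _ _
    | exact UD.add _ _ _
    | exact UD.mul _ _ _
    | exact UD.sat3 _ (by assumption) _ _ _
    | exact UD.false'
    | apply UD.imp
    | apply UD.and
    | apply UD.or
    | apply UD.not
    | apply UD.iff
    | apply UD.ex
    | apply UD.all


theorem ud_dm4 : UD (β := Empty) (fun S _ =>
    ∀ p, ∃ d, S.op 5 d d d d ∧ ∀ r i j, S.op 3 r i j d → ¬ S.op 11 p r r r) := by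
  repeat' first
    | exact UD.op _ _ _ _ _ (by decide)
    | exact UD.succ _ _
    | exact UD.zero _
    | exact UD.eq _ _
    | exact UD.add _ _ _
    | exact UD.mul _ _ _
    | exact UD.sat3 _ (by assumption) _ _ _
    | exact UD.false'
    | apply UD.imp
    | apply UD.and
    | apply UD.or
    | apply UD.not
    | apply UD.iff
    | apply UD.ex
    | apply UD.all


theorem ud_cov1 : UD (β := Empty) (fun S _ =>
    ∀ p p' x, S.op 19 p x x x → (∀ r, S.op 11 p r r r → S.op 11 p' r r r) →
    S.op 19 p' x x x) := by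
  repeat' first
    | exact UD.op _ _ _ _ _ (by decide)
    | exact UD.succ _ _
    | exact UD.zero _
    | exact UD.eq _ _
    | exact UD.add _ _ _
    | exact UD.mul _ _ _
    | exact UD.sat3 _ (by assumption) _ _ _
    | exact UD.false'
    | apply UD.imp
    | apply UD.and
    | apply UD.or
    | apply UD.not
    | apply UD.iff
    | apply UD.ex
    | apply UD.all


theorem ud_mt1 : UD (β := Empty) (fun S _ =>
    ∀ k p q f p' q', S.op 14 k p q f →
    (∀ r, S.op 11 p r r r → S.op 11 p' r r r ∧ (S.op 12 p r r r ↔ S.op 12 p' r r r)) →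
    (∀ r, S.op 11 q r r r → S.op 11 q' r r r ∧ (S.op 12 q r r r ↔ S.op 12 q' r r r)) →
    (∀ r, S.op 11 p' r r r ↔ S.op 11 q' r r r) →
    (∀ r, S.op 11 p' r r r → S.op 20 r r r r → (S.op 12 p' r r r ↔ S.op 12 q' r r r)) →
    S.op 14 k p' q' f) := by
  repeat' first
    | exact UD.op _ _ _ _ _ (by decide)
    | exact UD.succ _ _
    | exact UD.zero _
    | exact UD.eq _ _
    | exact UD.add _ _ _
    | exact UD.mul _ _ _
    | exact UD.sat3 _ (by assumption) _ _ _
    | exact UD.false'
    | apply UD.imp
    | apply UD.and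
    | apply UD.or
    | apply UD.not
    | apply UD.iff
    | apply UD.ex
    | apply UD.all


theorem ud_mt2 : UD (β := Empty) (fun S _ =>
    ∀ k p q, S.op 16 k k k k → (∀ r, S.op 11 p r r r ↔ S.op 11 q r r r) →
    (∀ r, S.op 11 p r r r → S.op 20 r r r r → (S.op 12 p r r r ↔ S.op 12 q r r r)) →
    ∃ f, S.op 14 k p q f) := by
  repeat' first
    | exact UD.op _ _ _ _ _ (by decide)
    | exact UD.succ _ _
    | exact UD.zero _
    | exact UD.eq _ _
    | exact UD.add _ _ _
    | exact UD.mul _ _ _
    | exact UD.sat3 _ (by assumption) _ _ _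
    | exact UD.false'
    | apply UD.imp
    | apply UD.and
    | apply UD.or
    | apply UD.not
    | apply UD.iff
    | apply UD.ex
    | apply UD.all


theorem ud_ef1 : UD (β := Empty) (fun S _ =>
    ∀ k k' p q f x, S.succ k k' → S.op 16 k' k' k' k' → S.op 14 k' p q f →
    S.op 19 p x x x → ∃ f' y, (∀ a b, S.op 13 f a b b → S.op 13 f' a b b) ∧
      S.op 14 k p q f' ∧ S.op 13 f' x y y) := by
  repeat' first
    | exact UD.op _ _ _ _ _ (by decide)
    | exact UD.succ _ _
    | exact UD.zero _
    | exact UD.eq _ _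
    | exact UD.add _ _ _
    | exact UD.mul _ _ _
    | exact UD.sat3 _ (by assumption) _ _ _
    | exact UD.false'
    | apply UD.imp
    | apply UD.and
    | apply UD.or
    | apply UD.not
    | apply UD.iff
    | apply UD.ex
    | apply UD.all


theorem ud_ef2 : UD (β := Empty) (fun S _ =>
    ∀ k k' p q f y, S.succ k k' → S.op 16 k' k' k' k' → S.op 14 k' p q f →
    S.op 19 q y y y → ∃ f' x, (∀ a b, S.op 13 f a b b → S.op 13 f' a b b) ∧
      S.op 14 k p q f' ∧ S.op 13 f' x y y) := by
  repeat' first
    | exact UD.op _ _ _ _ _ (by decide)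
    | exact UD.succ _ _
    | exact UD.zero _
    | exact UD.eq _ _
    | exact UD.add _ _ _
    | exact UD.mul _ _ _
    | exact UD.sat3 _ (by assumption) _ _ _
    | exact UD.false'
    | apply UD.imp
    | apply UD.and
    | apply UD.or
    | apply UD.not
    | apply UD.iff
    | apply UD.ex
    | apply UD.all


theorem ud_sym : UD (β := Empty) (fun S _ =>
    ∀ k k' p q f g, S.succ k k' → S.op 16 k' k' k' k' → S.op 14 k' p q f →
    S.op 14 k' p q g → ∃ e e', S.op 14 k q q e ∧ S.op 14 k q q e' ∧
      (∀ u u', S.op 13 f u u' u' → S.op 13 g u u' u' →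
        S.op 13 e u' u' u' ∧ S.op 13 e' u' u' u') ∧
      ∀ x x1 x2, S.op 13 f x x1 x1 → S.op 13 g x x2 x2 →
        ∃ y, S.op 13 e x1 y y ∧ S.op 13 e y x1 x1 ∧ S.op 13 e' y x2 x2 ∧ S.op 13 e' x2 y y) := by
  repeat' first
    | exact UD.op _ _ _ _ _ (by decide)
    | exact UD.succ _ _
    | exact UD.zero _
    | exact UD.eq _ _
    | exact UD.add _ _ _
    | exact UD.mul _ _ _
    | exact UD.sat3 _ (by assumption) _ _ _
    | exact UD.false'
    | apply UD.imp
    | apply UD.and
    | apply UD.or
    | apply UD.not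
    | apply UD.iff
    | apply UD.ex
    | apply UD.all


theorem ud_at2 : UD (β := Empty) (fun S _ =>
    ∀ k p q f x y x' y', S.op 14 k p q f → S.op 13 f x x' x' → S.op 13 f y y' y' →
    (x = y ↔ x' = y') ∧ (S.op 1 x y y y ↔ S.op 1 x' y' y' y') ∧
    (S.op 2 x y y y ↔ S.op 2 x' y' y' y') ∧ (S.succ x y ↔ S.succ x' y') ∧
    (S.zero x ↔ S.zero x')) := by
  repeat' first
    | exact UD.op _ _ _ _ _ (by decide)
    | exact UD.succ _ _
    | exact UD.zero _
    | exact UD.eq _ _
    | exact UD.add _ _ _
    | exact UD.mul _ _ _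
    | exact UD.sat3 _ (by assumption) _ _ _
    | exact UD.false'
    | apply UD.imp
    | apply UD.and
    | apply UD.or
    | apply UD.not
    | apply UD.iff
    | apply UD.ex
    | apply UD.all


theorem ud_at3 : UD (β := Empty) (fun S _ =>
    ∀ k p q f x y z x' y' z', S.op 14 k p q f → S.op 13 f x x' x' → S.op 13 f y y' y' →
    S.op 13 f z z' z' → (S.add x y z ↔ S.add x' y' z') ∧ (S.mul x y z ↔ S.mul x' y' z')) := by
  repeat' first
    | exact UD.op _ _ _ _ _ (by decide)
    | exact UD.succ _ _
    | exact UD.zero _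
    | exact UD.eq _ _
    | exact UD.add _ _ _
    | exact UD.mul _ _ _
    | exact UD.sat3 _ (by assumption) _ _ _
    | exact UD.false'
    | apply UD.imp
    | apply UD.and
    | apply UD.or
    | apply UD.not
    | apply UD.iff
    | apply UD.ex
    | apply UD.all


theorem ud_at4 : UD (β := Empty) (fun S _ =>
    ∀ k p q f x y z w x' y' z' w', S.op 14 k p q f → S.op 13 f x x' x' →
    S.op 13 f y y' y' → S.op 13 f z z' z' → S.op 13 f w w' w' →
    (S.op 3 x y z w ↔ S.op 3 x' y' z' w')) := by
  repeat' first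
    | exact UD.op _ _ _ _ _ (by decide)
    | exact UD.succ _ _
    | exact UD.zero _
    | exact UD.eq _ _
    | exact UD.add _ _ _
    | exact UD.mul _ _ _
    | exact UD.sat3 _ (by assumption) _ _ _
    | exact UD.false'
    | apply UD.imp
    | apply UD.and
    | apply UD.or
    | apply UD.not
    | apply UD.iff
    | apply UD.ex
    | apply UD.all


theorem ud_lf1 : UD (β := Empty) (fun S _ =>
    ∀ k p q f x x' m, S.op 14 k p q f → S.op 13 f x x' x' → S.zero m →
    (S.op 10 x m m m ↔ S.op 10 x' m m m)) := by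
  repeat' first
    | exact UD.op _ _ _ _ _ (by decide)
    | exact UD.succ _ _
    | exact UD.zero _
    | exact UD.eq _ _
    | exact UD.add _ _ _
    | exact UD.mul _ _ _
    | exact UD.sat3 _ (by assumption) _ _ _
    | exact UD.false'
    | apply UD.imp
    | apply UD.and
    | apply UD.or
    | apply UD.not
    | apply UD.iff
    | apply UD.ex
    | apply UD.all


theorem ud_lf2 : UD (β := Empty) (fun S _ =>
    ∀ k p q f x x' m r, S.op 14 k p q f → S.op 13 f x x' x' → S.zero m →
    S.op 10 x m m m → S.op 9 x r r r → S.op 9 x' r r r ∧ S.op 11 p r r r ∧ S.op 11 q r r r ∧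
    (((S.op 12 p r r r ∧ S.op 8 x x x x) ∨ (¬ S.op 12 p r r r ∧ S.op 7 x x x x)) ↔
      ((S.op 12 q r r r ∧ S.op 8 x' x' x' x') ∨ (¬ S.op 12 q r r r ∧ S.op 7 x' x' x' x')))) := by
  repeat' first
    | exact UD.op _ _ _ _ _ (by decide)
    | exact UD.succ _ _
    | exact UD.zero _
    | exact UD.eq _ _
    | exact UD.add _ _ _
    | exact UD.mul _ _ _
    | exact UD.sat3 _ (by assumption) _ _ _
    | exact UD.false'
    | apply UD.imp
    | apply UD.and
    | apply UD.or
    | apply UD.not
    | apply UD.iff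
    | apply UD.ex
    | apply UD.all


/-- The axioms of the nice structures are given by one formula. -/
theorem ud_axSem (P : Fml) (hP : OpB 100 P) : UD (β := Empty) (fun S _ => AxSem P S) := by
  refine UD.of_iff (
    (ud_as1).and ((ud_as2).and ((ud_cons1).and ((ud_cons2).and ((ud_n1).and ((ud_n2).and
    ((ud_rt1).and ((ud_rt2).and ((ud_rt3).and ((ud_rt4).and ((ud_ro1).and ((ud_ro2).and
    ((ud_cd1).and ((ud_ch1).and ((ud_ch2).and ((ud_pt).and ((ud_ln0).and ((ud_ln1).and
    ((ud_ln2).and ((ud_ln3).and ((ud_ln4).and ((ud_lw).and ((ud_ct1).and ((ud_cut1).and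
    ((ud_cut2).and ((ud_nh P hP).and ((ud_dm1).and ((ud_dm2).and ((ud_dm3).and ((ud_dm4).and
    ((ud_cov1).and ((ud_mt1).and ((ud_mt2).and ((ud_ef1).and ((ud_ef2).and ((ud_sym).and
    ((ud_at2).and ((ud_at3).and ((ud_at4).and ((ud_lf1).and
    (ud_lf2)))))))))))))))))))))))))))))))))))))))))
    (fun S w => ⟨?_, fun h => ⟨
      h.as1, h.as2, h.cons1, h.cons2, h.n1, h.n2, h.rt1, h.rt2, h.rt3, h.rt4, h.ro1, h.ro2,
      h.cd1, h.ch1, h.ch2, h.pt, h.ln0, h.ln1, h.ln2, h.ln3, h.ln4, h.lw, h.ct1, h.cut1, h.cut2,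
      h.nh, h.dm1, h.dm2, h.dm3, h.dm4, h.cov1, h.mt1, h.mt2, h.ef1, h.ef2, h.sym, h.at2, h.at3,
      h.at4, h.lf1, h.lf2⟩⟩)
  rintro ⟨
    h0, h1, h2, h3, h4, h5, h6, h7, h8, h9, h10, h11, h12, h13, h14, h15, h16, h17, h18, h19,
    h20, h21, h22, h23, h24, h25, h26, h27, h28, h29, h30, h31, h32, h33, h34, h35, h36, h37,
    h38, h39, h40⟩
  exact ⟨
    h0, h1, h2, h3, h4, h5, h6, h7, h8, h9, h10, h11, h12, h13, h14, h15, h16, h17, h18, h19,
    h20, h21, h22, h23, h24, h25, h26, h27, h28, h29, h30, h31, h32, h33, h34, h35, h36, h37,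
    h38, h39, h40⟩

end Pool.Agent.Helper364_SP
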