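import Pool.Agent.Helper364_SP.All
import Pool.Agent.Helper364_SQ.Defs

/-!
# Comparison with interpretations without parameters

The theory `U` interprets `T` without parameters, in the sense of `Helper364_SQ.Defs`; then it
interprets `T` in the sense of `Helper364_SP.Defs`.
-/

set_option autoImplicit false

namespace Pool.Agent.Helper364_SP

open FirstOrder FirstOrder.Language

/-- A translation without parameters as a translation with `0` parameters. -/
def ofFree {L' L : FirstOrder.Language.{0, 0}} (K : Helper364_SQ.Interp L' L) : Interp L' L where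
  par := 0
  dim := K.dim
  dom := K.dom.relabel Sum.inr
  eqv := K.eqv.relabel Sum.inr
  func F := (K.func F).relabel Sum.inr
  rel R := (K.rel R).relabel Sum.inr

theorem interprets_of_free {L L' : FirstOrder.Language.{0, 0}} {U : L.Theory} {T : L'.Theory}
    (h : Helper364_SQ.Interprets U T) : Interprets U T := by
  obtain ⟨K, hK⟩ := h
  refine ⟨ofFree K, fun M _ _ hM => ?_⟩
  obtain ⟨A, sA, neA, f, hf, hA⟩ := hK M hM
  have hdom : ∀ x : Fin K.dim → M,
      (ofFree K).dom.Realize (Sum.elim (default : Fin 0 → M) x) ↔ K.dom.Realize x := by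
    intro x
    show (K.dom.relabel Sum.inr).Realize _ ↔ _
    rw [Formula.realize_relabel]
    rfl
  refine ⟨(default : Fin 0 → M), A, sA, neA,
    fun x => f ⟨x.1, (hdom x.1).1 x.2⟩, ⟨?_, ?_, ?_, ?_⟩, hA⟩
  · intro b
    obtain ⟨⟨x, hx⟩, hb⟩ := hf.surj b
    exact ⟨⟨x, (hdom x).2 hx⟩, hb⟩
  · intro x
    have := hf.eqv (fun i => ⟨(x i).1, (hdom _).1 (x i).2⟩)
    rw [← this]
    show (K.eqv.relabel Sum.inr).Realize _ ↔ _
    rw [Formula.realize_relabel]
    rfl
  · intro n F x
    have := hf.func F (fun i => ⟨(x i).1, (hdom _).1 (x i).2⟩)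
    rw [← this]
    show ((K.func F).relabel Sum.inr).Realize _ ↔ _
    rw [Formula.realize_relabel]
    rfl
  · intro n R x
    have := hf.rel R (fun i => ⟨(x i).1, (hdom _).1 (x i).2⟩)
    rw [← this]
    show ((K.rel R).relabel Sum.inr).Realize _ ↔ _
    rw [Formula.realize_relabel]
    rfl

end Pool.Agent.Helper364_SP
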