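import Pool.Agent.Helper364_SP.Stmts



/-!

TARGET: ExtS (Helper364_SP/Stmts.lean), given LowS.
Enumerate S.M: e : ℕ → S.M surjective (exists_surjective_nat, S.M is nonempty and countable). By dm1 define recursively p : ℕ → S.M with Dom (p 0) ⊇ Dom (e 0),
Dom (p (m+1)) ⊇ Dom (p m) ∪ Dom (e (m+1)) (Dom x := {r | op 11 x r r r}). By dm4 choose d m with op 5 (d m) and no root of the form
op 3 r i j (d m) in Dom (p m). Let C r := CtS S r ∨ ∃ i l, n ≤ i ∧ S.op 3 r (nm i) (nm l) (d (Nat.pair i l)).
apx: let x = e t. All roots r in Dom x with op 3 r (nm i) (nm l) (d (pair i l)) satisfy pair i l < t (otherwise Dom x ⊆ Dom (p t) ⊆ Dom (p (pair i l)), contradiction). dm2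
gives p' with the same domain and values CtS on the domain; then add, for all m < t with m = pair i l, n ≤ i, the root r with op 3 r (nm i) (nm l) (d m) (unique
by rt3, if it exists) by dm3: induction on m. At the end the values are C on the domain.
low: a root op 3 r (nm i) j d with n ≤ i is not low: lw: op 20 r <-> op 16 (nm i), and LowS. So for low r: C r <-> CtS S r.
ex: rt1 gives r with op 3 r (nm i) (nm l) (d (pair i l)) (numbers: n1, n2 give op 5 (nm k) for all k; use q.zero_iff, q.succ_iff).
num: C r and op 3 r (nm i) j d0 with n ≤ i: CtS S r is impossible (ct1, lw, LowS); otherwise op 3 r (nm i') (nm l') _, by rt2 j = nm l'.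

-/

set_option autoImplicit false

namespace Pool.Agent.Helper364_SP.ExtCol

open FirstOrder FirstOrder.Language
open Pool.Agent.TH672 (Fm Str upd Pv LogK)
open Pool.Agent.TH636.BC (Fml inst robinson Arith)
open Pool.Agent.TH838.J1549 (Q)
open Pool.Agent.Helper364_SP

theorem op5 {P : Fml} {S : Str ℕ} (hA : AxSem P S) (q : Q S) :
    ∀ k, S.op 5 (q.nm k) (q.nm k) (q.nm k) (q.nm k)
  | 0 => hA.n1 _ ((q.zero_iff _).2 rfl)
  | k + 1 => hA.n2 _ _ (op5 hA q k) ((q.succ_iff _ _).2 rfl)

theorem extS (h : LowS) : ExtS := by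
  intro P S q n hc hA h17
  have hlow := h P S q n hA h17
  have hne : Nonempty S.M := S.ne
  obtain ⟨e, he⟩ := exists_surjective_nat S.M
  choose f hf1 hf2 _ using fun a b => hA.dm1 a b (e 0)
  set p : ℕ → S.M := fun m => Nat.rec (e 0) (fun k a => f a (e (k + 1))) m with hpdef
  have hp : ∀ m r, S.op 11 (e m) r r r → S.op 11 (p m) r r r := by
    intro m r hr
    cases m with
    | zero => exact hr
    | succ m => exact hf2 _ _ r hr
  have hmono : ∀ m k r, S.op 11 (p m) r r r → S.op 11 (p (m + k)) r r r := by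
    intro m k r hr
    induction k with
    | zero => exact hr
    | succ k ih => exact hf1 _ _ r ih
  choose d hd5 hd using fun m => hA.dm4 (p m)
  refine ⟨fun r => CtS S r ∨ ∃ i l, n ≤ i ∧ S.op 3 r (q.nm i) (q.nm l) (d (Nat.pair i l)), ?_⟩
  refine ⟨?_, ?_, ?_, ?_⟩
  · -- approximation
    intro x
    obtain ⟨t, rfl⟩ := he x
    have hlt : ∀ r i l, S.op 11 (e t) r r r → S.op 3 r (q.nm i) (q.nm l) (d (Nat.pair i l)) →
        Nat.pair i l < t := by
      intro r i l hr h3
      by_contra hcon
      push Not at hcon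
      have h1 := hmono t (Nat.pair i l - t) r (hp t r hr)
      rw [Nat.add_sub_cancel' hcon] at h1
      exact hd _ _ _ _ h3 h1
    have key : ∀ s, ∃ p', (∀ r, S.op 11 (e t) r r r ↔ S.op 11 p' r r r) ∧
        ∀ r, S.op 11 p' r r r → (S.op 12 p' r r r ↔ (CtS S r ∨ ∃ i l, n ≤ i ∧
          Nat.pair i l < s ∧ S.op 3 r (q.nm i) (q.nm l) (d (Nat.pair i l)))) := by
      intro s
      induction s with
      | zero =>
        obtain ⟨p', h1, h2⟩ := hA.dm2 (e t)
        refine ⟨p', h1, fun r hr => ?_⟩
        rw [h2 r hr]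
        constructor
        · exact fun h => Or.inl h
        · rintro (h | ⟨i, l, -, h, -⟩)
          · exact h
          · exact absurd h (Nat.not_lt_zero _)
      | succ s ih =>
        obtain ⟨p', h1, h2⟩ := ih
        by_cases hex : n ≤ (Nat.unpair s).1 ∧ ∃ r0, S.op 3 r0 (q.nm (Nat.unpair s).1)
            (q.nm (Nat.unpair s).2) (d s)
        · obtain ⟨hn, r0, hr0⟩ := hex
          obtain ⟨p'', h3, h4⟩ := hA.dm3 p' r0
          refine ⟨p'', fun r => (h1 r).trans (h3 r), fun r hr => ?_⟩
          rw [h4 r hr, h2 r ((h3 r).2 hr)]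
          constructor
          · rintro ((h5 | ⟨i, l, h5, h6, h7⟩) | rfl)
            · exact Or.inl h5
            · exact Or.inr ⟨i, l, h5, h6.trans (Nat.lt_succ_self _), h7⟩
            · refine Or.inr ⟨(Nat.unpair s).1, (Nat.unpair s).2, hn, ?_, ?_⟩
              · rw [Nat.pair_unpair]
                exact Nat.lt_succ_self _
              · rw [Nat.pair_unpair]
                exact hr0
          · rintro (h5 | ⟨i, l, h5, h6, h7⟩)
            · exact Or.inl (Or.inl h5)
            · rcases (Nat.lt_succ_iff_lt_or_eq.1 h6) with h6 | h6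
              · exact Or.inl (Or.inr ⟨i, l, h5, h6, h7⟩)
              · right
                have e1 : Nat.unpair s = (i, l) := by rw [← h6, Nat.unpair_pair]
                rw [e1] at hr0
                rw [h6] at h7
                exact hA.rt3 _ _ _ _ _ h7 hr0
        · refine ⟨p', h1, fun r hr => ?_⟩
          rw [h2 r hr]
          constructor
          · rintro (h5 | ⟨i, l, h5, h6, h7⟩)
            · exact Or.inl h5
            · exact Or.inr ⟨i, l, h5, h6.trans (Nat.lt_succ_self _), h7⟩
          · rintro (h5 | ⟨i, l, h5, h6, h7⟩)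
            · exact Or.inl h5
            · rcases (Nat.lt_succ_iff_lt_or_eq.1 h6) with h6 | h6
              · exact Or.inr ⟨i, l, h5, h6, h7⟩
              · exfalso
                apply hex
                have e1 : Nat.unpair s = (i, l) := by rw [← h6, Nat.unpair_pair]
                rw [e1]
                rw [h6] at h7
                exact ⟨h5, r, h7⟩
    obtain ⟨p', h1, h2⟩ := key t
    refine ⟨p', h1, fun r hr => ?_⟩
    rw [h2 r hr]
    constructor
    · rintro (h5 | ⟨i, l, h5, h6, h7⟩)
      · exact Or.inl h5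
      · exact Or.inr ⟨i, l, h5, h7⟩
    · rintro (h5 | ⟨i, l, h5, h7⟩)
      · exact Or.inl h5
      · exact Or.inr ⟨i, l, h5, hlt r i l ((h1 r).2 hr) h7, h7⟩
  · intro r hr
    constructor
    · rintro (h1 | ⟨i, l, h1, h2⟩)
      · exact h1
      · have h3 := (hlow i).1 ((hA.lw _ _ _ _ h2).1 hr)
        omega
    · exact fun h => Or.inl h
  · intro i l hi
    obtain ⟨r, hr⟩ := hA.rt1 (q.nm i) (q.nm l) (d (Nat.pair i l)) (op5 hA q i) (op5 hA q l)
      (hd5 _)
    exact ⟨r, _, hr, Or.inr ⟨i, l, hi, hr⟩⟩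
  · rintro i j d0 r hi h3 (h1 | ⟨i', l', h1, h2⟩)
    · have h4 := (hlow i).1 ((hA.lw _ _ _ _ h3).1 (hA.ct1 r h1))
      omega
    · exact ⟨l', (hA.rt2 _ _ _ _ _ _ _ h3 h2).2.1⟩

end Pool.Agent.Helper364_SP.ExtCol
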