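import Pool.Agent.Helper364_SP.Stmts

/-!
# Semantics of the special formulas
-/

set_option autoImplicit false

namespace Pool.Agent.Helper364_SP

open FirstOrder FirstOrder.Language
open Pool.Agent.TH672 (Fm Str upd Pv)
open Pool.Agent.TH636.BC (Fml inst robinson Arith)
open Pool.Agent.TH838.J1549 (Q)

section

variable (M : Type) [LU.Structure M]

theorem vec1 {n : ℕ} (xs : Fin n → M) (a : Fin n) :
    (fun i => ((![vr a] : Fin 1 → LU.Term (Empty ⊕ Fin n)) i).realize (Sum.elim default xs)) =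
      ![xs a] := by
  funext i
  fin_cases i
  rfl

theorem vec2 {n : ℕ} (xs : Fin n → M) (a b : Fin n) :
    (fun i => ((![vr a, vr b] : Fin 2 → LU.Term (Empty ⊕ Fin n)) i).realize
      (Sum.elim default xs)) = ![xs a, xs b] := by
  funext i
  fin_cases i <;> rfl

theorem vec3 {n : ℕ} (xs : Fin n → M) (a b c : Fin n) :
    (fun i => ((![vr a, vr b, vr c] : Fin 3 → LU.Term (Empty ⊕ Fin n)) i).realize
      (Sum.elim default xs)) = ![xs a, xs b, xs c] := by
  funext i
  fin_cases i <;> rfl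

theorem vec4 {n : ℕ} (xs : Fin n → M) (a b c d : Fin n) :
    (fun i => ((![vr a, vr b, vr c, vr d] : Fin 4 → LU.Term (Empty ⊕ Fin n)) i).realize
      (Sum.elim default xs)) = ![xs a, xs b, xs c, xs d] := by
  funext i
  fin_cases i <;> rfl

theorem realize_rel1 {n : ℕ} (R : URel 1) (xs : Fin n → M) (a : Fin n) :
    (BoundedFormula.rel (L := LU) (α := Empty) R ![vr a]).Realize default xs ↔
      Structure.RelMap (L := LU) R ![xs a] := by
  show Structure.RelMap (L := LU) R _ ↔ _
  rw [vec1]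

theorem realize_rel2 {n : ℕ} (R : URel 2) (xs : Fin n → M) (a b : Fin n) :
    (BoundedFormula.rel (L := LU) (α := Empty) R ![vr a, vr b]).Realize default xs ↔
      Structure.RelMap (L := LU) R ![xs a, xs b] := by
  show Structure.RelMap (L := LU) R _ ↔ _
  rw [vec2]

theorem realize_rel3 {n : ℕ} (R : URel 3) (xs : Fin n → M) (a b c : Fin n) :
    (BoundedFormula.rel (L := LU) (α := Empty) R ![vr a, vr b, vr c]).Realize default xs ↔
      Structure.RelMap (L := LU) R ![xs a, xs b, xs c] := by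
  show Structure.RelMap (L := LU) R _ ↔ _
  rw [vec3]

theorem realize_rel4 {n : ℕ} (R : URel 4) (xs : Fin n → M) (a b c d : Fin n) :
    (BoundedFormula.rel (L := LU) (α := Empty) R ![vr a, vr b, vr c, vr d]).Realize default xs ↔
      Structure.RelMap (L := LU) R ![xs a, xs b, xs c, xs d] := by
  show Structure.RelMap (L := LU) R _ ↔ _
  rw [vec4]

theorem realize_tyF : ∀ (s : ℕ) {n : ℕ} (y : Fin n) (xs : Fin n → M),
    (tyF s y).Realize default xs ↔ TyS M s (xs y)
  | 0, _, y, xs => realize_rel1 M _ xs y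
  | s + 1, n, y, xs => by
    rw [tyF, TyS, BoundedFormula.realize_ex]
    refine exists_congr fun z => ?_
    rw [BoundedFormula.realize_inf, BoundedFormula.realize_not, realize_tyF s, realize_rel2]
    simp only [Fin.snoc_castSucc, Fin.snoc_last]

theorem realize_numF : ∀ (s : ℕ) {n : ℕ} (y : Fin n) (xs : Fin n → M),
    (numF s y).Realize default xs ↔ NumS M s (xs y)
  | 0, _, y, xs => realize_rel1 M _ xs y
  | s + 1, n, y, xs => by
    rw [numF, NumS, BoundedFormula.realize_ex]
    refine exists_congr fun z => ?_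
    rw [BoundedFormula.realize_inf, realize_numF s, realize_rel2]
    simp only [Fin.snoc_castSucc, Fin.snoc_last]

end

/-- the formula saying that `x0` belongs to the cut of level `n` -/
def cutn (n : ℕ) : LU.BoundedFormula Empty 3 :=
  ∃' ∃' ∃' (numF n (3 : Fin 6) ⊓ (.rel URel.rt ![vr 5, vr 3, vr 0, vr 4] ⊓ tyF n (5 : Fin 6)))

/-- the cut of level `n` -/
def CutS (M : Type) [LU.Structure M] (n : ℕ) (a : M) : Prop :=
  ∃ z d r : M, NumS M n z ∧ Structure.RelMap (L := LU) URel.rt ![r, z, a, d] ∧ TyS M n r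

theorem realize_cutn (M : Type) [LU.Structure M] (n : ℕ) (xs : Fin 3 → M) :
    (cutn n).Realize default xs ↔ CutS M n (xs 0) := by
  rw [cutn, CutS]
  simp only [BoundedFormula.realize_ex, BoundedFormula.realize_inf, realize_numF, realize_tyF,
    realize_rel4]
  rfl

/-- the seven formulas -/
def psi (n : ℕ) : Fin 7 → LU.BoundedFormula Empty 3 :=
  ![⊤, .equal (vr 0) (vr 1), .rel URel.zero ![vr 0], .rel URel.succ ![vr 0, vr 1],
    .rel URel.add ![vr 0, vr 1, vr 2], .rel URel.mul ![vr 0, vr 1, vr 2], cutn n]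

/-- the arithmetical structure on `M` with the cut of level `n` -/
def quo (M : Type) [LU.Structure M] [ne : Nonempty M] (n : ℕ) : Str ℕ where
  M := M
  ne := ne
  zero x := Structure.RelMap (L := LU) URel.zero ![x]
  succ x y := Structure.RelMap (L := LU) URel.succ ![x, y]
  add x y z := Structure.RelMap (L := LU) URel.add ![x, y, z]
  mul x y z := Structure.RelMap (L := LU) URel.mul ![x, y, z]
  op _ a _ _ _ := CutS M n a

theorem sat_arith (S S' : Str ℕ) (hM : S.M = S'.M)
    (h0 : HEq S.zero S'.zero) (h1 : HEq S.succ S'.succ) (h2 : HEq S.add S'.add)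
    (h3 : HEq S.mul S'.mul) : ∀ (φ : Fml), Arith φ → ∀ (v : ℕ → S.M) (v' : ℕ → S'.M), HEq v v' →
      (Fm.Sat S φ v ↔ Fm.Sat S' φ v') := by
  obtain ⟨M, ne, z, s, a, m, o⟩ := S
  obtain ⟨M', ne', z', s', a', m', o'⟩ := S'
  dsimp only at hM h0 h1 h2 h3 ⊢
  subst hM
  cases h0; cases h1; cases h2; cases h3
  intro φ
  induction φ with
  | bot => intros; rfl
  | eq x y => intro _ v v' hv; cases hv; rfl
  | zero x => intro _ v v' hv; cases hv; rfl
  | succ x y => intro _ v v' hv; cases hv; rfl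
  | add x y z => intro _ v v' hv; cases hv; rfl
  | mul x y z => intro _ v v' hv; cases hv; rfl
  | op i a b c d => intro h; exact absurd h id
  | imp φ ψ ih1 ih2 =>
    intro h v v' hv
    cases hv
    rw [Fm.sat_imp, Fm.sat_imp, ih1 h.1 v v HEq.rfl, ih2 h.2 v v HEq.rfl]
  | all x φ ih =>
    intro h v v' hv
    cases hv
    rw [Fm.sat_all, Fm.sat_all]
    exact forall_congr' fun a => ih h _ _ HEq.rfl

theorem sat_arith_quo (M : Type) [LU.Structure M] [Nonempty M] (n : ℕ) (φ : Fml) (h : Arith φ)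
    (v : ℕ → M) : Fm.Sat (arS M) φ v ↔ Fm.Sat (quo M n) φ v :=
  sat_arith (arS M) (quo M n) rfl HEq.rfl HEq.rfl HEq.rfl HEq.rfl φ h v v HEq.rfl

theorem arith_robinson : ∀ ψ ∈ robinson, Arith ψ := by
  simp only [robinson, List.mem_cons, List.not_mem_nil, or_false, forall_eq_or_imp, forall_eq,
    Arith, Fm.ex, Fm.or, Fm.neg, and_self]

theorem closed_cutF : cutF.Closed := by
  intro x
  simp only [cutF, Fm.and, Fm.neg, Fm.ex, Fm.Free]
  tauto

theorem free_conjL {Γ : List Fml} : ∀ {x : ℕ}, (conjL Γ).Free x → ∃ ψ ∈ Γ, ψ.Free x := by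
  induction Γ with
  | nil => intro x h; simp only [conjL, Fm.neg, Fm.Free, or_self] at h
  | cons ψ Γ ih =>
    intro x h
    simp only [conjL, Fm.and, Fm.neg, Fm.Free, or_false] at h
    rcases h with h | h
    · exact ⟨ψ, by simp, h⟩
    · obtain ⟨χ, h1, h2⟩ := ih h
      exact ⟨χ, by simp [h1], h2⟩

theorem sat_conjL (S : Str ℕ) (v : ℕ → S.M) : ∀ Γ : List Fml,
    Fm.Sat S (conjL Γ) v ↔ ∀ ψ ∈ Γ, Fm.Sat S ψ v
  | [] => by simp [conjL]
  | ψ :: Γ => by
    rw [conjL, Fm.sat_and, sat_conjL S v Γ]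
    simp

theorem closed_theta {P : Fml} (hP : ∀ x, P.Free x → x = 2 ∨ x = 3 ∨ x = 4) (c n : ℕ) :
    (theta P c n).Closed := by
  intro x h
  simp only [theta, Fm.and, Fm.neg, Fm.Free, or_false] at h
  rcases h with h | h | h
  · obtain ⟨ψ, h1, h2⟩ := free_conjL h
    exact TH838.J1549.closed_robinson ψ h1 x h2
  · exact closed_cutF x h
  · have h2 := TH838.J1549.free_inst h
    have h3 := TH838.J1549.free_inst h2.2.2
    have h4 := h3.2.2
    simp only [Fm.Free, or_false] at h4
    rcases h4.2 with h5 | h5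
    · omega
    · have := hP x h5
      omega

theorem bd_iter {ψ : Fml} {y : ℕ} : ∀ n : ℕ, (TH636.BC.blk^[n] ψ).Bd y → y = 0 ∨ y = 1 ∨ ψ.Bd y
  | 0, h => .inr (.inr h)
  | n + 1, h => by
    rw [Function.iterate_succ_apply'] at h
    simp only [TH636.BC.blk, Fm.Bd, false_or] at h
    rcases h with h | h | h
    · exact .inr (.inl h)
    · exact .inl h
    · exact bd_iter n h

theorem bd_inst {x n y : ℕ} {φ : Fml} (h : (inst x n φ).Bd y) :
    y = 0 ∨ y = 1 ∨ y = x ∨ φ.Bd y := by
  simp only [TH636.BC.inst, Fm.Bd, false_or] at h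
  rcases h with h | h
  · exact .inl h
  · rcases bd_iter n h with h | h | h
    · exact .inl h
    · exact .inr (.inl h)
    · simp only [Fm.Bd, false_or] at h
      exact .inr (.inr h)

theorem bd_robinson : ∀ ψ ∈ robinson, ∀ y, ψ.Bd y → y < 10 := by
  simp only [TH636.BC.robinson, List.mem_cons, List.not_mem_nil, or_false, forall_eq_or_imp,
    forall_eq, Fm.Bd, Fm.ex, Fm.or, Fm.neg]
  simp only [false_or, forall_eq]
  omega

theorem bd_conjL {Γ : List Fml} : ∀ {x : ℕ}, (conjL Γ).Bd x → ∃ ψ ∈ Γ, ψ.Bd x := by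
  induction Γ with
  | nil => intro x h; simp only [conjL, Fm.neg, Fm.Bd, or_self] at h
  | cons ψ Γ ih =>
    intro x h
    simp only [conjL, Fm.and, Fm.neg, Fm.Bd, or_false] at h
    rcases h with h | h
    · exact ⟨ψ, by simp, h⟩
    · obtain ⟨χ, h1, h2⟩ := ih h
      exact ⟨χ, by simp [h1], h2⟩

theorem bd_theta {P : Fml} {c n p : ℕ} (h : (theta P c n).Bd p) : p < 10 ∨ P.Bd p := by
  simp only [theta, Fm.and, Fm.neg, Fm.Bd, or_false] at h
  rcases h with h | h | h
  · obtain ⟨ψ, h1, h2⟩ := bd_conjL h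
    exact .inl (bd_robinson ψ h1 p h2)
  · simp only [cutF, Fm.and, Fm.neg, Fm.ex, Fm.Bd, or_false, false_or] at h
    left
    omega
  · rcases bd_inst h with h | h | h | h
    · omega
    · omega
    · omega
    · rcases bd_inst h with h | h | h | h
      · omega
      · omega
      · omega
      · simp only [Fm.Bd, Fm.neg, or_false, false_or] at h
        rcases h with h | h
        · omega
        · exact .inr h

end Pool.Agent.Helper364_SP
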